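import Pool.Agent.H45.LLG.Spec

/-! Amplification: the space of low energy shrinks. -/

namespace LG45
open RC14 RC852 TE852 LL14 Finset
open scoped InnerProductSpace

section basic
variable {V : Type*} [NormedAddCommGroup V] [InnerProductSpace ℂ V]

theorem LRk.mono {W : Submodule ℂ V} {Φ Ψ : V → ℝ} {Λ Λ' : ℝ} (h : LRk W Φ Λ)
    (hΦ : ∀ v ∈ W, Φ v ≤ Ψ v) (hΛ : Λ' ≤ Λ) : LRk W Ψ Λ' := by
  intro U hU hΨ
  refine (h U hU fun u hu => (hΦ u (hU hu)).trans (hΨ u hu)).trans ?_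
  exact mul_le_mul_of_nonneg_right (Real.exp_le_exp.2 (by linarith)) (Nat.cast_nonneg _)

/-- a strict energy bound -/
theorem LRk.of_gap {W : Submodule ℂ V} {Φ : V → ℝ} (Λ : ℝ)
    (h : ∀ v ∈ W, 2 * ‖v‖ ^ 2 ≤ Φ v) : LRk W Φ Λ := by
  intro U hU hΦ
  have h1 : U = ⊥ := by
    rw [Submodule.eq_bot_iff]
    intro u hu
    have h2 := h u (hU hu)
    have h3 := hΦ u hu
    have h4 : ‖u‖ ^ 2 ≤ 0 := by linarith
    have h5 : ‖u‖ = 0 := by
      have := sq_nonneg ‖u‖
      exact pow_eq_zero_iff (two_ne_zero) |>.1 (le_antisymm h4 this)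
    exact norm_eq_zero.1 h5
  rw [h1]
  simp only [finrank_bot, Nat.cast_zero]
  positivity

end basic

variable {V : Type*} [NormedAddCommGroup V] [InnerProductSpace ℂ V] [FiniteDimensional ℂ V]

/-- lower bound for a trace -/
theorem sum_le_rtr (B : Module.End ℂ V) (hB : ∀ v, 0 ≤ (⟪B v, v⟫_ℂ).re) (U : Submodule ℂ V)
    (c : ℝ) (hc : ∀ u ∈ U, ‖u‖ = 1 → c ≤ (⟪B u, u⟫_ℂ).re) :
    Module.finrank ℂ U * c ≤ rtr B := by
  classical
  set b := stdOrthonormalBasis ℂ U with hb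
  set f : Fin (Module.finrank ℂ U) → V := fun i => (b i : V) with hf
  have hfo : Orthonormal ℂ f := b.orthonormal.comp_linearIsometry U.subtypeₗᵢ
  have hv : Orthonormal ℂ ((↑) : Set.range f → V) := hfo.toSubtypeRange
  obtain ⟨u, b', hvu, hb'⟩ := hv.exists_orthonormalBasis_extension
  have e1 : rtr B = ∑ x ∈ u, (⟪B x, x⟫_ℂ).re := by
    unfold rtr
    rw [LinearMap.trace_eq_sum_inner _ b', Complex.re_sum, ← Finset.sum_coe_sort u]
    refine Finset.sum_congr rfl fun x _ => ?_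
    rw [hb', ← inner_conj_symm, Complex.conj_re]
  have hinj : Function.Injective f := by
    intro i k hik
    exact b.toBasis.injective (by
      rw [OrthonormalBasis.coe_toBasis]
      exact Subtype.ext hik)
  have h2 : Finset.univ.image f ⊆ u := by
    intro x hx
    rw [Finset.mem_image] at hx
    obtain ⟨i, _, rfl⟩ := hx
    exact hvu ⟨i, rfl⟩
  rw [e1]
  refine le_trans ?_ (Finset.sum_le_sum_of_subset_of_nonneg h2 fun x _ _ => hB x)
  rw [Finset.sum_image fun i _ k _ h => hinj h]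
  have h3 : ∑ _i : Fin (Module.finrank ℂ U), c ≤ ∑ i, (⟪B (f i), f i⟫_ℂ).re := by
    refine Finset.sum_le_sum fun i _ => hc _ (b i).2 ?_
    exact hfo.1 i
  rw [Finset.sum_const, Finset.card_univ, Fintype.card_fin, nsmul_eq_mul] at h3
  exact h3

variable {G : Type*} [Group G] [Fintype G]

open TREE in
/-- amplification by a tree of conjugates -/
theorem AMPLR (ρ : G →* (V ≃ₗᵢ[ℂ] V)) (hirr : Irr ρ ⊤) (E : Module.End ℂ V) (hE : SymIdem E)
    (q R : ℕ) (hq : 2 ≤ q) (Λ : ℝ) (hΛ : 32 ≤ Λ)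
    (hτ : rtr E ≤ Real.exp (-Λ) * Module.finrank ℂ V) :
    (Nat.card {z : Fin R → Fin q → G // ¬ LRk (⊤ : Submodule ℂ V)
        (fun v => 8 * ‖v - E v‖ ^ 2 + 32 / (q : ℝ) * ∑ r, En ρ (z r) v) (Λ * (q : ℝ) ^ R / 2)} : ℝ) ≤
      R * Real.exp (-(Λ * q / 64)) * (Fintype.card G : ℝ) ^ (R * q) := by
  classical
  have hnt := nontriv ρ hirr
  have hd0 : (0 : ℝ) < Module.finrank ℂ V := by exact_mod_cast Module.finrank_pos
  refine le_trans ?_ (count ρ hirr E hE q hq Λ hΛ hτ R)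
  rw [Nat.card_eq_fintype_card, Fintype.card_subtype]
  refine Nat.cast_le.2 (Finset.card_le_card fun z hz => ?_)
  rw [Finset.mem_filter] at hz ⊢
  refine ⟨hz.1, ?_⟩
  by_contra hcon
  push Not at hcon
  apply hz.2
  intro U _ hU
  have hq0 : (0 : ℝ) < q := by exact_mod_cast (by omega : 0 < q)
  have hqR : 1 ≤ (q : ℝ) ^ R := one_le_pow₀ (by exact_mod_cast (by omega : 1 ≤ q))
  set t : ℝ := Λ * (q : ℝ) ^ R with ht
  have ht0 : 0 ≤ t := by positivity
  have hsym : (((t : ℝ) : ℂ) • AA ρ E R z).IsSymmetric := smul_symm _ _ (AA_symm ρ E hE.1 R z)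
  have h4 : rtr (ex (((t : ℝ) : ℂ) • AA ρ E R z)) = TREE.mm ρ E Λ R z * Module.finrank ℂ V := by
    unfold TREE.mm
    rw [div_mul_cancel₀ _ hd0.ne']
  have h1 := sum_le_rtr (ex (((t : ℝ) : ℂ) • AA ρ E R z)) (fun v => by
      by_cases hv : v = 0
      · subst hv; simp
      · exact (ex_pos _ hsym v)) U (Real.exp (t * (3 / 4))) (by
      intro u hu hu1
      refine le_trans ?_ (ex_jensen _ hsym u hu1)
      apply Real.exp_le_exp.2
      have h3 : (⟪(((t : ℝ) : ℂ) • AA ρ E R z) u, u⟫_ℂ).re = t * (⟪AA ρ E R z u, u⟫_ℂ).re := by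
        rw [LinearMap.smul_apply, inner_smul_left, Complex.conj_ofReal, Complex.re_ofReal_mul]
      rw [h3]
      apply mul_le_mul_of_nonneg_left _ ht0
      have h5 := DISP ρ E hE q R (by omega) z u
      have h6 := hU u hu
      simp only [hu1] at h5 h6
      have h7 : (32 : ℝ) / q * ∑ r, En ρ (z r) u = 4 * (8 / (q : ℝ) * ∑ r, En ρ (z r) u) := by
        ring
      rw [h7] at h6
      linarith)
  rw [h4] at h1
  have h8 : (Module.finrank ℂ U : ℝ) * Real.exp (t * (3 / 4)) ≤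
      Real.exp (Th q Λ R) * Module.finrank ℂ V :=
    h1.trans (mul_le_mul_of_nonneg_right hcon hd0.le)
  have h9 : (Module.finrank ℂ U : ℝ) = (Module.finrank ℂ U : ℝ) * Real.exp (t * (3 / 4)) *
      Real.exp (-(t * (3 / 4))) := by
    rw [mul_assoc, ← Real.exp_add, add_neg_cancel, Real.exp_zero, mul_one]
  rw [h9]
  calc (Module.finrank ℂ U : ℝ) * Real.exp (t * (3 / 4)) * Real.exp (-(t * (3 / 4)))
      ≤ Real.exp (Th q Λ R) * Module.finrank ℂ V * Real.exp (-(t * (3 / 4))) :=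
        mul_le_mul_of_nonneg_right h8 (Real.exp_pos _).le
    _ = Real.exp (Th q Λ R - t * (3 / 4)) * Module.finrank ℂ V := by
        rw [sub_eq_add_neg, Real.exp_add]; ring
    _ ≤ Real.exp (-(t / 2)) * Module.finrank ℂ V := by
        apply mul_le_mul_of_nonneg_right _ hd0.le
        apply Real.exp_le_exp.2
        unfold Th
        rw [ht]
        nlinarith
    _ ≤ Real.exp (-(t / 2)) * Module.finrank ℂ (⊤ : Submodule ℂ V) := by
        rw [finrank_top]

end LG45
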