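import Pool.Graph.R_seed8.H14R2.LL.MAINH

/-!
Definitions for the project LLG (helper45), MP_75608d_al: `C log log n` random elements of `A_n`.
-/

namespace LG45
open RC14 RC852 TE852 LL14 Finset Equiv
open scoped InnerProductSpace

noncomputable section

section
variable {V : Type*} [NormedAddCommGroup V] [InnerProductSpace ℂ V]

/-- every subspace of `W` on which the energy `Φ` is at most `‖·‖²` has relative dimension at most
`exp (-Λ)` -/
def LRk (W : Submodule ℂ V) (Φ : V → ℝ) (Λ : ℝ) : Prop :=
  ∀ U : Submodule ℂ V, U ≤ W → (∀ u ∈ U, Φ u ≤ ‖u‖ ^ 2) →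
    (Module.finrank ℂ U : ℝ) ≤ Real.exp (-Λ) * Module.finrank ℂ W

end

/-- on every irreducible component of the levels `1, …, r` the vectors of energy at most `c / 2`
form a space of relative dimension at most `exp (-l j)` -/
def GLR (n r : ℕ) (l c : ℝ) {a : ℕ} (x : Fin a → Alt n) : Prop :=
  ∀ j, 1 ≤ j → j ≤ r → ∀ W : Submodule ℂ (RC14.V j n), Irr (repA j n) W → W ≤ Lvl j n →
    LRk W (fun v => 2 / c * En (repA j n) x v) (l * j)

/-- few elements of the family have many fixed points, even after multiplication by `u` -/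
def FMix {n : ℕ} {K : Type*} [Fintype K] (D : ℕ) (ε : ℝ) (g : K → Perm (Fin n)) : Prop :=
  ∀ u : Perm (Fin n), (#{k | D ≤ nfix (g k * u)} : ℝ) ≤ ε * Fintype.card K

end

end LG45
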