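import Pool.Agent.H45.LLG.Mix

/-! Few block words have many degenerate trajectories. -/

namespace LG45
open RC14 RC852 TE852 LL14 Finset Equiv

noncomputable section

variable {n q : ℕ} {K : Type*} (g : K → Perm (Fin n)) (b : Fin q → Perm (Fin n))

/-- second component of `eid` as a permutation -/
def ep (c : K × (Fin q × Bool)) : Perm (Fin n) := if c.2.2 then g c.1 else (b c.2.1)⁻¹ * g c.1

/-- the correction by the letter -/
def bt (c : K × (Fin q × Bool)) : Perm (Fin n) := if c.2.2 then 1 else b c.2.1

/-- the position as a permutation -/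
def posP (u : List (K × (Fin q × Bool))) : Perm (Fin n) := (u.map (blk g b)).prod

/-- the edges as permutations -/
def edP : List (K × (Fin q × Bool)) → List (Fin q × Perm (Fin n))
  | [] => []
  | c :: u => (c.2.1, ep g b c * posP g b u) :: edP u

variable {g b}

theorem eid_eq (c : K × (Fin q × Bool)) (y : Fin n) : eid g b c y = (c.2.1, ep g b c y) := by
  unfold eid ep
  split_ifs <;> rfl

theorem ep_eq (c : K × (Fin q × Bool)) : ep g b c = (bt b c)⁻¹ * g c.1 := by
  unfold ep bt
  split_ifs <;> simp

theorem edg_eq (u : List (K × (Fin q × Bool))) (a : Fin n) :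
    edg g b u a = (edP g b u).map fun e => (e.1, e.2 a) := by
  induction u with
  | nil => rfl
  | cons c u ih =>
    rw [edg, ih, edP, List.map_cons, eid_eq]
    rfl

theorem length_edP (u : List (K × (Fin q × Bool))) : (edP g b u).length = u.length := by
  induction u with
  | nil => rfl
  | cons c u ih => rw [edP, List.length_cons, List.length_cons, ih]

variable (g b)

/-- the block `c` is bad after `u` -/
def bad (D : ℕ) (c : K × (Fin q × Bool)) (u : List (K × (Fin q × Bool))) : Prop :=
  ∃ e ∈ edP g b u, D ≤ nfix (g c.1 * (posP g b u * e.2⁻¹ * (bt b c)⁻¹))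

open Classical in
/-- number of bad blocks -/
def nb (D : ℕ) : List (K × (Fin q × Bool)) → ℕ
  | [] => 0
  | c :: u => nb D u + if bad g b D c u then 1 else 0

open Classical in
/-- number of collisions at good blocks -/
def gc (D : ℕ) : List (K × (Fin q × Bool)) → Fin n → ℕ
  | [], _ => 0
  | c :: u, a => gc D u a + if eid g b c (posn g b u a) ∈ edg g b u a ∧ ¬ bad g b D c u then 1 else 0

variable {g b}

theorem length_le (D : ℕ) (u : List (K × (Fin q × Bool))) (a : Fin n) :
    u.length ≤ dst g b u a + gc g b D u a + nb g b D u := by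
  classical
  induction u with
  | nil => simp
  | cons c u ih =>
    have h1 : dst g b (c :: u) a = dst g b u a +
        if eid g b c (posn g b u a) ∈ edg g b u a then 0 else 1 := by
      unfold dst
      rw [edg, List.toFinset_cons]
      split_ifs with h
      · rw [Finset.insert_eq_of_mem (List.mem_toFinset.2 h), add_zero]
      · rw [Finset.card_insert_of_notMem (fun h2 => h (List.mem_toFinset.1 h2))]
    rw [h1, gc, nb, List.length_cons]
    by_cases h2 : eid g b c (posn g b u a) ∈ edg g b u a <;> by_cases h3 : bad g b D c u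
    · simp [h2, h3]; omega
    · simp [h2, h3]; omega
    · simp [h2, h3]; omega
    · simp [h2, h3]; omega

/-- collisions with one edge -/
theorem card_coll (c : K × (Fin q × Bool)) (P Q : Perm (Fin n)) :
    #{a : Fin n | ep g b c (P a) = Q a} = nfix (g c.1 * (P * Q⁻¹ * (bt b c)⁻¹)) := by
  classical
  unfold nfix
  refine Finset.card_bij (fun a _ => bt b c (Q a)) ?_ ?_ ?_
  · intro a ha
    rw [Finset.mem_filter] at ha ⊢
    refine ⟨Finset.mem_univ _, ?_⟩
    have h1 := ha.2
    rw [ep_eq] at h1
    have e1 : (bt b c)⁻¹ (bt b c (Q a)) = Q a := by simp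
    have e2 : Q⁻¹ (Q a) = a := by simp
    rw [Perm.mul_apply, Perm.mul_apply, Perm.mul_apply, e1, e2]
    have h2 := congrArg (bt b c) h1
    simpa using h2
  · intro a _ a' _ h
    exact Q.injective ((bt b c).injective h)
  · intro a' ha'
    rw [Finset.mem_filter] at ha'
    refine ⟨Q⁻¹ ((bt b c)⁻¹ a'), ?_, by simp⟩
    rw [Finset.mem_filter]
    refine ⟨Finset.mem_univ _, ?_⟩
    have h1 := ha'.2
    simp only [Perm.mul_apply] at h1
    rw [ep_eq, Perm.mul_apply, h1]
    simp

theorem sum_gc (D : ℕ) (u : List (K × (Fin q × Bool))) :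
    ∑ a, gc g b D u a ≤ u.length * u.length * D := by
  classical
  induction u with
  | nil => simp [gc]
  | cons c u ih =>
    have h1 : ∑ a, gc g b D (c :: u) a = ∑ a, gc g b D u a +
        ∑ a, (if eid g b c (posn g b u a) ∈ edg g b u a ∧ ¬ bad g b D c u then 1 else 0) := by
      rw [← Finset.sum_add_distrib]
      rfl
    have h2 : ∑ a, (if eid g b c (posn g b u a) ∈ edg g b u a ∧ ¬ bad g b D c u then 1 else 0) ≤
        u.length * D := by
      by_cases h3 : bad g b D c u
      · simp [h3]
      · rw [← Finset.card_filter]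
        have h4 : (univ.filter fun a => eid g b c (posn g b u a) ∈ edg g b u a ∧
            ¬ bad g b D c u) ⊆
            ((edP g b u).toFinset).biUnion fun e =>
              univ.filter fun a => ep g b c (posP g b u a) = e.2 a := by
          intro a ha
          rw [Finset.mem_filter] at ha
          have h5 := ha.2.1
          rw [edg_eq, List.mem_map] at h5
          obtain ⟨e, he, hea⟩ := h5
          rw [Finset.mem_biUnion]
          refine ⟨e, List.mem_toFinset.2 he, ?_⟩
          rw [Finset.mem_filter]
          refine ⟨Finset.mem_univ _, ?_⟩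
          rw [eid_eq] at hea
          exact (congrArg Prod.snd hea).symm
        refine (Finset.card_le_card h4).trans (Finset.card_biUnion_le.trans ?_)
        calc ∑ e ∈ (edP g b u).toFinset, #{a | ep g b c (posP g b u a) = e.2 a}
            ≤ ∑ _e ∈ (edP g b u).toFinset, D := by
              refine Finset.sum_le_sum fun e he => ?_
              rw [card_coll]
              by_contra hcon
              exact h3 ⟨e, List.mem_toFinset.1 he, (not_le.1 hcon).le⟩
          _ = (edP g b u).toFinset.card * D := by rw [Finset.sum_const, smul_eq_mul]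
          _ ≤ u.length * D := by
              apply Nat.mul_le_mul_right
              rw [← length_edP (g := g) (b := b) u]
              exact List.toFinset_card_le _
    rw [h1, List.length_cons]
    calc _ ≤ u.length * u.length * D + u.length * D := Nat.add_le_add ih h2
      _ = (u.length * (u.length + 1)) * D := by ring
      _ ≤ ((u.length + 1) * (u.length + 1)) * D := by gcongr; omega

/-- many degenerate points force many bad blocks -/
theorem nb_of_deg (D J F : ℕ) (hJ : 1 ≤ J) (hF : 1 ≤ F) (hD : 8 * (J * D) ≤ F)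
    (u : List (K × (Fin q × Bool))) (hu : u.length = J)
    (h : F ≤ #{a : Fin n | 4 * dst g b u a < 3 * J}) : J / 8 + 1 ≤ nb g b D u := by
  classical
  by_contra hcon
  have h1 : 8 * nb g b D u ≤ J := by omega
  set S : Finset (Fin n) := {a | 4 * dst g b u a < 3 * J} with hS
  have h2 : ∀ a ∈ S, J + 1 ≤ 8 * gc g b D u a := by
    intro a ha
    have h3 := length_le (g := g) (b := b) D u a
    have h4 := (Finset.mem_filter.1 ha).2
    omega
  have h5 : #S * (J + 1) ≤ 8 * (J * J * D) := by
    calc #S * (J + 1) = ∑ _a ∈ S, (J + 1) := by rw [Finset.sum_const, smul_eq_mul]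
      _ ≤ ∑ a ∈ S, 8 * gc g b D u a := Finset.sum_le_sum h2
      _ ≤ ∑ a, 8 * gc g b D u a := Finset.sum_le_sum_of_subset (Finset.subset_univ _)
      _ = 8 * ∑ a, gc g b D u a := by rw [Finset.mul_sum]
      _ ≤ 8 * (J * J * D) := by
          apply Nat.mul_le_mul_left
          have := sum_gc (g := g) (b := b) D u
          rwa [hu] at this
  have h6 : 8 * (J * J * D) ≤ J * F := by
    calc 8 * (J * J * D) = J * (8 * (J * D)) := by ring
      _ ≤ J * F := Nat.mul_le_mul_left _ hD
  have h7 : F * (J + 1) ≤ #S * (J + 1) := Nat.mul_le_mul_right _ h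
  nlinarith

/-- number of bad blocks after `u` -/
theorem card_bad [Fintype K] (D : ℕ) (ε : ℝ) (hε : 0 ≤ ε) (hg : FMix D ε g)
    (u : List (K × (Fin q × Bool))) :
    (Nat.card {c : K × (Fin q × Bool) // bad g b D c u} : ℝ) ≤
      u.length * ε * Fintype.card (K × (Fin q × Bool)) := by
  classical
  rw [Nat.card_eq_fintype_card, Fintype.card_subtype]
  have h1 : (univ.filter fun c : K × (Fin q × Bool) => bad g b D c u) ⊆
      ((edP g b u).toFinset).biUnion fun e => univ.filter fun c : K × (Fin q × Bool) =>
        D ≤ nfix (g c.1 * (posP g b u * e.2⁻¹ * (bt b c)⁻¹)) := by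
    intro c hc
    obtain ⟨e, he, h⟩ := (Finset.mem_filter.1 hc).2
    rw [Finset.mem_biUnion]
    exact ⟨e, List.mem_toFinset.2 he, Finset.mem_filter.2 ⟨Finset.mem_univ _, h⟩⟩
  have h2 : ∀ e : Fin q × Perm (Fin n), ((univ.filter fun c : K × (Fin q × Bool) =>
        D ≤ nfix (g c.1 * (posP g b u * e.2⁻¹ * (bt b c)⁻¹))).card : ℝ) ≤
      ε * Fintype.card (K × (Fin q × Bool)) := by
    intro e
    have e1 : ((univ.filter fun c : K × (Fin q × Bool) =>
        D ≤ nfix (g c.1 * (posP g b u * e.2⁻¹ * (bt b c)⁻¹))).card : ℝ) =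
        ∑ s : Fin q × Bool, (#{k : K | D ≤ nfix (g k * (posP g b u * e.2⁻¹ *
          (if s.2 then (1 : Perm (Fin n)) else b s.1)⁻¹))} : ℝ) := by
      rw [Finset.card_filter]
      push_cast
      rw [Fintype.sum_prod_type, Finset.sum_comm]
      refine Finset.sum_congr rfl fun s _ => ?_
      rw [Finset.card_filter]
      push_cast
      rfl
    rw [e1]
    calc _ ≤ ∑ _s : Fin q × Bool, ε * Fintype.card K :=
          Finset.sum_le_sum fun s _ => hg _
      _ = ε * Fintype.card (K × (Fin q × Bool)) := by
          rw [Finset.sum_const, Finset.card_univ, nsmul_eq_mul, Fintype.card_prod (α := K)]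
          push_cast
          ring
  calc ((univ.filter fun c : K × (Fin q × Bool) => bad g b D c u).card : ℝ)
      ≤ ∑ e ∈ (edP g b u).toFinset, ((univ.filter fun c : K × (Fin q × Bool) =>
        D ≤ nfix (g c.1 * (posP g b u * e.2⁻¹ * (bt b c)⁻¹))).card : ℝ) := by
        exact_mod_cast (Finset.card_le_card h1).trans Finset.card_biUnion_le
    _ ≤ ∑ _e ∈ (edP g b u).toFinset, ε * Fintype.card (K × (Fin q × Bool)) :=
        Finset.sum_le_sum fun e _ => h2 e
    _ = (edP g b u).toFinset.card * (ε * Fintype.card (K × (Fin q × Bool))) := by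
        rw [Finset.sum_const, nsmul_eq_mul]
    _ ≤ u.length * (ε * Fintype.card (K × (Fin q × Bool))) := by
        apply mul_le_mul_of_nonneg_right _ (by positivity)
        rw [← length_edP (g := g) (b := b) u]
        exact_mod_cast List.toFinset_card_le _
    _ = _ := by ring

/-- number of words with many bad blocks -/
theorem card_nb [Fintype K] (D : ℕ) (ε : ℝ) (hε : 0 ≤ ε) (hg : FMix D ε g) (J0 : ℕ) (J : ℕ) :
    J ≤ J0 → ∀ s : ℕ,
    (Nat.card {w : Fin J → K × (Fin q × Bool) // s ≤ nb g b D (List.ofFn w)} : ℝ) ≤
      2 ^ J * (J0 * ε) ^ s * (Fintype.card (K × (Fin q × Bool)) : ℝ) ^ J := by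
  classical
  have hall : ∀ J : ℕ, ∀ P : (Fin J → K × (Fin q × Bool)) → Prop,
      (Nat.card {w : Fin J → K × (Fin q × Bool) // P w} : ℝ) ≤
        (Fintype.card (K × (Fin q × Bool)) : ℝ) ^ J := by
    intro J P
    have h1 : Nat.card {w : Fin J → K × (Fin q × Bool) // P w} ≤
        Fintype.card (Fin J → K × (Fin q × Bool)) := by
      rw [Nat.card_eq_fintype_card]
      exact Fintype.card_subtype_le _
    rw [Fintype.card_fun, Fintype.card_fin] at h1
    exact_mod_cast h1
  induction J with
  | zero =>
    intro _ s
    rcases Nat.eq_zero_or_pos s with h | h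
    · subst h
      refine (hall 0 _).trans ?_
      simp
    · have h2 : Nat.card {w : Fin 0 → K × (Fin q × Bool) // s ≤ nb g b D (List.ofFn w)} = 0 := by
        rw [Nat.card_eq_zero]
        left
        refine ⟨fun w => ?_⟩
        have h3 := w.2
        simp [nb] at h3
        omega
      rw [h2]
      push_cast
      positivity
  | succ J ih =>
    intro hJ s
    have ih' := ih (by omega)
    rcases Nat.eq_zero_or_pos s with h | h
    · subst h
      refine (hall (J + 1) _).trans ?_
      rw [pow_zero, mul_one]
      have : (1 : ℝ) ≤ 2 ^ (J + 1) := one_le_pow₀ (by norm_num)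
      have h0 : (0 : ℝ) ≤ (Fintype.card (K × (Fin q × Bool)) : ℝ) ^ (J + 1) := by positivity
      nlinarith
    · obtain ⟨s', rfl⟩ : ∃ s', s = s' + 1 := ⟨s - 1, by omega⟩
      set C : ℝ := (Fintype.card (K × (Fin q × Bool)) : ℝ) with hC
      have hC0 : 0 ≤ C := Nat.cast_nonneg _
      -- fibres
      have e1 : (Nat.card {w : Fin (J + 1) → K × (Fin q × Bool) //
          s' + 1 ≤ nb g b D (List.ofFn w)} : ℝ) =
          ∑ w : Fin J → K × (Fin q × Bool), ∑ c : K × (Fin q × Bool),
            if s' + 1 ≤ nb g b D (c :: List.ofFn w) then (1 : ℝ) else 0 := by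
        rw [Nat.card_eq_fintype_card, Fintype.card_subtype, Finset.card_filter]
        push_cast
        rw [← (Fin.consEquiv (fun _ : Fin (J + 1) => K × (Fin q × Bool))).sum_comp,
          Fintype.sum_prod_type, Finset.sum_comm]
        refine Finset.sum_congr rfl fun w _ => Finset.sum_congr rfl fun c _ => ?_
        simp [Fin.consEquiv, List.ofFn_succ]
      have e2 : ∀ w : Fin J → K × (Fin q × Bool), (∑ c : K × (Fin q × Bool),
            if s' + 1 ≤ nb g b D (c :: List.ofFn w) then (1 : ℝ) else 0) ≤
          (if s' + 1 ≤ nb g b D (List.ofFn w) then C else 0) +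
            (if s' ≤ nb g b D (List.ofFn w) then J0 * ε * C else 0) := by
        intro w
        have h3 : ∀ c, (if s' + 1 ≤ nb g b D (c :: List.ofFn w) then (1 : ℝ) else 0) ≤
            (if s' + 1 ≤ nb g b D (List.ofFn w) then 1 else 0) +
            (if s' ≤ nb g b D (List.ofFn w) then (if bad g b D c (List.ofFn w) then 1 else 0)
              else 0) := by
          intro c
          rw [nb]
          by_cases h4 : bad g b D c (List.ofFn w)
          · simp only [h4, if_true]
            by_cases h5 : s' ≤ nb g b D (List.ofFn w)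
            · rw [if_pos (by omega), if_pos h5]
              have : (0 : ℝ) ≤ if s' + 1 ≤ nb g b D (List.ofFn w) then 1 else 0 := by
                split_ifs <;> norm_num
              linarith
            · rw [if_neg (by omega), if_neg h5]
              have : (0 : ℝ) ≤ if s' + 1 ≤ nb g b D (List.ofFn w) then 1 else 0 := by
                split_ifs <;> norm_num
              linarith
          · simp only [h4, if_false, add_zero, ite_self]
            exact le_rfl
        refine (Finset.sum_le_sum fun c _ => h3 c).trans ?_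
        rw [Finset.sum_add_distrib]
        refine add_le_add ?_ ?_
        · rw [Finset.sum_const, Finset.card_univ, nsmul_eq_mul]
          split_ifs <;> simp [hC]
        · split_ifs with h5
          · have h6 := card_bad (q := q) (b := b) D ε hε hg (List.ofFn w)
            rw [Nat.card_eq_fintype_card, Fintype.card_subtype, Finset.card_filter] at h6
            push_cast at h6
            refine h6.trans ?_
            rw [List.length_ofFn]
            apply mul_le_mul_of_nonneg_right _ hC0
            apply mul_le_mul_of_nonneg_right _ hε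
            exact_mod_cast (by omega : J ≤ J0)
          · simp
      rw [e1]
      refine (Finset.sum_le_sum fun w _ => e2 w).trans ?_
      rw [Finset.sum_add_distrib]
      have e3 : ∀ (t : ℕ) (x : ℝ), (∑ w : Fin J → K × (Fin q × Bool),
          if t ≤ nb g b D (List.ofFn w) then x else 0) =
          (Nat.card {w : Fin J → K × (Fin q × Bool) // t ≤ nb g b D (List.ofFn w)} : ℝ) * x := by
        intro t x
        rw [← Finset.sum_filter, Finset.sum_const, nsmul_eq_mul, Nat.card_eq_fintype_card,
          Fintype.card_subtype]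
      rw [e3, e3]
      have h7 := ih' (s' + 1)
      have h8 := ih' s'
      have hx : 0 ≤ (J0 : ℝ) * ε := by positivity
      calc _ ≤ (2 ^ J * (J0 * ε) ^ (s' + 1) * C ^ J) * C +
            (2 ^ J * (J0 * ε) ^ s' * C ^ J) * (J0 * ε * C) := by gcongr
        _ = 2 ^ (J + 1) * (J0 * ε) ^ (s' + 1) * C ^ (J + 1) := by ring

/-- few words have many degenerate points -/
theorem card_deg [Fintype K] (D : ℕ) (ε : ℝ) (hε : 0 ≤ ε) (hg : FMix D ε g) (J F : ℕ)
    (hJ : 1 ≤ J) (hF : 1 ≤ F) (hD : 8 * (J * D) ≤ F) :
    (Nat.card {w : Fin J → K × (Fin q × Bool) //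
      F ≤ #{a : Fin n | 4 * dst g b (List.ofFn w) a < 3 * J}} : ℝ) ≤
      2 ^ J * (J * ε) ^ (J / 8 + 1) * (Fintype.card (K × (Fin q × Bool)) : ℝ) ^ J := by
  refine le_trans ?_ (card_nb (b := b) D ε hε hg J J le_rfl (J / 8 + 1))
  exact Nat.cast_le.2 (RC14.card_mono _ _ fun w hw =>
    nb_of_deg D J F hJ hF hD _ (List.length_ofFn) hw)

end

end LG45
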