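import Pool.Agent.H45.LLG.Deg

/-! A random letter `b` is good, if few elements of the family have many fixed points. -/

namespace LG45
open RC14 RC852 TE852 LL14 Finset Equiv

/-- few pairs (letters, block word) have many fixed points -/
theorem EXPOBF (n q J F f K' D : ℕ) (hJ : 1 ≤ J)
    (hF1 : 1 ≤ F) (hK' : 1 ≤ K') (hf : Odd f) (ε : ℝ) (hε : 0 ≤ ε) {K : Type*} [Fintype K]
    [Nonempty K] (g : K → Equiv.Perm (Fin n)) (hg : FMix D ε g)
    (hF : 4 * (f * (3 * J + 1) + K') ≤ F) (hD : 8 * (J * D) ≤ F) :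
    (Nat.card {p : (Fin q → Alt n) × (Fin J → K × (Fin q × Bool)) //
        2 * F ≤ nfix (bwd g (fun i => (p.1 i : Equiv.Perm (Fin n))) p.2)} : ℝ) ≤
      (J * n / (K' : ℝ) ^ f + 2 ^ J * (J * ε) ^ (J / 8 + 1)) *
        ((Fintype.card (Alt n) : ℝ) ^ q * (Fintype.card (K × (Fin q × Bool)) : ℝ) ^ J) := by
  classical
  have hKpos : (0 : ℝ) < (K' : ℝ) ^ f := by positivity
  refine le_trans (EXPOB.card_or _
    (fun p : (Fin q → Alt n) × (Fin J → K × (Fin q × Bool)) =>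
      F ≤ #{a : Fin n | bwd g (fun i => (p.1 i : Equiv.Perm (Fin n))) p.2 a = a ∧
        3 * J ≤ 4 * dst g (fun i => (p.1 i : Equiv.Perm (Fin n))) (List.ofFn p.2) a})
    (fun p : (Fin q → Alt n) × (Fin J → K × (Fin q × Bool)) =>
      F ≤ #{a : Fin n | 4 * dst g (fun i => (p.1 i : Equiv.Perm (Fin n))) (List.ofFn p.2) a <
        3 * J})
    ?_) ?_
  · intro p hp
    have h1 : nfix (bwd g (fun i => (p.1 i : Equiv.Perm (Fin n))) p.2) ≤
        #{a : Fin n | bwd g (fun i => (p.1 i : Equiv.Perm (Fin n))) p.2 a = a ∧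
          3 * J ≤ 4 * dst g (fun i => (p.1 i : Equiv.Perm (Fin n))) (List.ofFn p.2) a} +
        #{a : Fin n | 4 * dst g (fun i => (p.1 i : Equiv.Perm (Fin n))) (List.ofFn p.2) a <
          3 * J} := by
      unfold nfix
      refine (Finset.card_le_card ?_).trans (Finset.card_union_le _ _)
      intro a ha
      simp only [Finset.mem_filter, Finset.mem_univ, true_and, Finset.mem_union] at ha ⊢
      by_cases h : 3 * J ≤ 4 * dst g (fun i => (p.1 i : Equiv.Perm (Fin n))) (List.ofFn p.2) a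
      · exact Or.inl ⟨ha, h⟩
      · exact Or.inr (by omega)
    by_cases h : F ≤ #{a : Fin n | bwd g (fun i => (p.1 i : Equiv.Perm (Fin n))) p.2 a = a ∧
          3 * J ≤ 4 * dst g (fun i => (p.1 i : Equiv.Perm (Fin n))) (List.ofFn p.2) a}
    · exact Or.inl h
    · right
      omega
  · rw [add_mul]
    refine add_le_add ?_ ?_
    · have h1 := EXPOB.card_right (α := Fin q → Alt n) (β := Fin J → K × (Fin q × Bool))
        (fun b w => F ≤ #{a : Fin n | bwd g (fun i => (b i : Equiv.Perm (Fin n))) w a = a ∧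
          3 * J ≤ 4 * dst g (fun i => (b i : Equiv.Perm (Fin n))) (List.ofFn w) a})
        ((Fintype.card (Alt n) : ℝ) ^ q * (J * n) / (K' : ℝ) ^ f) (fun w => by
          rw [le_div_iff₀ hKpos]
          exact_mod_cast FIXCNT2 n q J F f K' hJ hf g w hF)
      refine h1.trans (le_of_eq ?_)
      rw [Fintype.card_fun, Fintype.card_fin]
      push_cast
      ring
    · have h3 := EXPOB.card_left (α := Fin q → Alt n) (β := Fin J → K × (Fin q × Bool))
        (fun b w => F ≤ #{a : Fin n |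
          4 * dst g (fun i => (b i : Equiv.Perm (Fin n))) (List.ofFn w) a < 3 * J})
        (2 ^ J * (J * ε) ^ (J / 8 + 1) * (Fintype.card (K × (Fin q × Bool)) : ℝ) ^ J)
        (fun b => card_deg D ε hε hg J F hJ hF1 hD)
      refine h3.trans (le_of_eq ?_)
      rw [Fintype.card_fun, Fintype.card_fin]
      push_cast
      ring

/-- the second term with powers of `G` -/
theorem term2F (G j r L : ℕ) (hG : 32 ≤ G) (hr : 11 ≤ r) (hL : j ≤ r * L) (hL2 : L ≤ 2 * G ^ 8) :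
    (2 : ℝ) ^ (64 * L) * (((64 * L : ℕ) : ℝ) * (1 / (G : ℝ)) ^ (8 * r)) ^ (64 * L / 8 + 1) ≤
      (1 / (G : ℝ)) ^ (34 * j) := by
  have hG' : (32 : ℝ) ≤ G := by exact_mod_cast hG
  have hG0 : (0 : ℝ) < G := by linarith
  have hG1 : (1 : ℝ) ≤ G := by linarith
  have hL2' : (L : ℝ) ≤ 2 * (G : ℝ) ^ 8 := by exact_mod_cast hL2
  have he1 : (1 / (G : ℝ)) ≤ 1 := by
    rw [div_le_one hG0]
    exact hG1
  obtain ⟨x, hx⟩ : ∃ x : ℝ, x = ((64 * L : ℕ) : ℝ) * (1 / (G : ℝ)) ^ (8 * r) := ⟨_, rfl⟩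
  rw [← hx]
  have hx0 : 0 ≤ x := by rw [hx]; positivity
  have hG3 : (32768 : ℝ) ≤ (G : ℝ) ^ 3 := by
    calc (32768 : ℝ) = 32 ^ 3 := by norm_num
      _ ≤ (G : ℝ) ^ 3 := pow_le_pow_left₀ (by norm_num) hG' 3
  have hxb : 256 * x ≤ (1 / (G : ℝ)) ^ (7 * r) := by
    rw [hx, one_div_pow, one_div_pow, le_div_iff₀ (by positivity)]
    push_cast
    have h1 : (256 : ℝ) * (64 * L * (1 / (G : ℝ) ^ (8 * r))) * (G : ℝ) ^ (7 * r) =
        (16384 * L) / (G : ℝ) ^ r := by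
      have : (G : ℝ) ^ (8 * r) = (G : ℝ) ^ (7 * r) * (G : ℝ) ^ r := by
        rw [← pow_add]; congr 1; ring
      rw [this]
      field_simp
      ring
    rw [h1, div_le_one (by positivity)]
    calc (16384 : ℝ) * L ≤ 16384 * (2 * (G : ℝ) ^ 8) := by gcongr
      _ = 32768 * (G : ℝ) ^ 8 := by ring
      _ ≤ (G : ℝ) ^ 3 * (G : ℝ) ^ 8 := by gcongr
      _ = (G : ℝ) ^ 11 := by ring
      _ ≤ (G : ℝ) ^ r := pow_le_pow_right₀ hG1 hr
  have h71 : (1 / (G : ℝ)) ^ (7 * r) ≤ 1 := pow_le_one₀ (by positivity) he1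
  have hx1 : x ≤ 1 := by linarith
  have e8 : 64 * L / 8 + 1 = 8 * L + 1 := by omega
  rw [e8]
  calc (2 : ℝ) ^ (64 * L) * x ^ (8 * L + 1) ≤ (2 : ℝ) ^ (64 * L) * x ^ (8 * L) := by
        apply mul_le_mul_of_nonneg_left _ (by positivity)
        exact pow_le_pow_of_le_one hx0 hx1 (by omega)
    _ = (256 * x) ^ (8 * L) := by
        rw [mul_pow]
        congr 1
        rw [show (256 : ℝ) = 2 ^ 8 by norm_num, ← pow_mul]
        congr 1
        ring
    _ ≤ ((1 / (G : ℝ)) ^ (7 * r)) ^ (8 * L) := pow_le_pow_left₀ (by positivity) hxb _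
    _ = (1 / (G : ℝ)) ^ (56 * (r * L)) := by
        rw [← pow_mul]; congr 1; ring
    _ ≤ (1 / (G : ℝ)) ^ (34 * j) := by
        apply pow_le_pow_of_le_one (by positivity) he1
        calc 34 * j ≤ 56 * j := by omega
          _ ≤ 56 * (r * L) := Nat.mul_le_mul_left _ hL

open BPARTHx in
/-- a random letter `b` is good with probability `1 - 1/n` -/
theorem BPARTF : ∃ G0 : ℕ, ∀ G : ℕ, G0 ≤ G → ∀ n r : ℕ, 11 ≤ r → r * G ^ 256 ≤ n →
    Real.log n ≤ r → ∀ (K : Type) [Fintype K] [Nonempty K] (g : K → Perm (Fin n)),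
    FMix (n / (2048 * G ^ 16)) ((1 / (G : ℝ)) ^ (8 * r)) g →
    (Nat.card {b : Fin 1 → Alt n // ¬ GoodH G r g (cb b)} : ℝ) ≤
      1 / (n : ℝ) * (Fintype.card (Alt n) : ℝ) ^ 1 := by
  classical
  refine ⟨32, ?_⟩
  intro G hG n r hr11 hn hlog K _ _ g hg
  have hr : 1 ≤ r := by omega
  have hG' : (32 : ℝ) ≤ G := by exact_mod_cast hG
  have hG0 : (0 : ℝ) < G := by linarith
  have hG1 : (1 : ℝ) ≤ G := by linarith
  have hr' : (1 : ℝ) ≤ r := by exact_mod_cast hr
  have hn' : (r : ℝ) * (G : ℝ) ^ 256 ≤ n := by exact_mod_cast hn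
  have hGn : G ^ 256 ≤ n := le_trans (Nat.le_mul_of_pos_left _ (by omega)) hn
  have hn0 : (0 : ℝ) < n := lt_of_lt_of_le (by positivity) hn'
  have hn1 : 1 ≤ n := by exact_mod_cast hn0
  have he0 : (0 : ℝ) < 1 / (G : ℝ) := by positivity
  have he1 : (1 / (G : ℝ)) ≤ 1 := by
    rw [div_le_one hG0]
    exact hG1
  -- `F`
  obtain ⟨F, hFd⟩ : ∃ F : ℕ, F = FH G n := ⟨_, rfl⟩
  have hGp : 0 < G ^ 8 := by positivity
  have hF0 : (n : ℝ) / (G : ℝ) ^ 8 ≤ F := by
    rw [hFd, div_le_iff₀ (by positivity)]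
    unfold FH
    have h1 : n < (n / G ^ 8 + 1) * G ^ 8 := by
      have := Nat.lt_mul_div_succ n hGp
      rw [mul_comm]
      exact this
    exact_mod_cast h1.le
  have hFpos : 0 < F := by rw [hFd]; exact Nat.succ_pos _
  -- `X = r G^16 * 32768 ≤ F`
  have hbig : 32768 * (r * G ^ 16) ≤ F := by
    rw [hFd]
    unfold FH
    have h1 : 32768 * (r * G ^ 16) ≤ n / G ^ 8 := by
      rw [Nat.le_div_iff_mul_le hGp]
      calc 32768 * (r * G ^ 16) * G ^ 8 = r * (32 ^ 3 * G ^ 24) := by ring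
        _ ≤ r * (G ^ 3 * G ^ 24) := by gcongr
        _ = r * G ^ 27 := by rw [← pow_add]
        _ ≤ r * G ^ 256 := by
            apply Nat.mul_le_mul_left
            exact Nat.pow_le_pow_right (by omega) (by norm_num)
        _ ≤ n := hn
    omega
  have hFn : F ≤ n := by
    rw [hFd]
    unfold FH
    have h1 : n / G ^ 8 ≤ n / 2 := Nat.div_le_div_left (by
      calc 2 ≤ G := by omega
        _ = G ^ 1 := (pow_one _).symm
        _ ≤ G ^ 8 := Nat.pow_le_pow_right (by omega) (by norm_num)) (by norm_num)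
    have h2 : 2 ≤ n := by
      calc 2 ≤ G := by omega
        _ = G ^ 1 := (pow_one _).symm
        _ ≤ G ^ 256 := Nat.pow_le_pow_right (by omega) (by norm_num)
        _ ≤ n := hGn
    omega
  have hG16 : 1 ≤ G ^ 16 := Nat.one_le_pow _ _ (by omega)
  have hrr : r ≤ r * G ^ 16 := Nat.le_mul_of_pos_right _ (by omega)
  have hrF : 2 * r ≤ F := by omega
  obtain ⟨K', hKd⟩ : ∃ K' : ℕ, K' = F / 16 := ⟨_, rfl⟩
  have hK'pos : 1 ≤ K' := by omega
  have hK2 : (n : ℝ) / (32 * (G : ℝ) ^ 8) ≤ K' := by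
    have h1 : (n : ℝ) / (32 * (G : ℝ) ^ 8) = n / (G : ℝ) ^ 8 / 32 := by
      rw [div_div]
      congr 1
      ring
    have h2 : F ≤ 32 * K' := by omega
    have h3 : (F : ℝ) ≤ 32 * K' := by exact_mod_cast h2
    rw [h1]
    linarith
  have hA0 : (0 : ℝ) < (Fintype.card (Alt n) : ℝ) := by
    have : 0 < Fintype.card (Alt n) := Fintype.card_pos
    exact_mod_cast this
  have hC0 : (0 : ℝ) < (Fintype.card (K × (Fin 1 × Bool)) : ℝ) := by
    have : 0 < Fintype.card (K × (Fin 1 × Bool)) := Fintype.card_pos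
    exact_mod_cast this
  -- one level
  have hlevel : ∀ j, 1 ≤ j → j ≤ r * G ^ 8 →
      (Nat.card {b : Fin 1 → Alt n // ¬ (r ≤ j → (Nat.card {w : Fin (2 * LL r j) →
        K × (Fin 1 × Bool) // 2 * F ≤ nfix (bwd g (cb b) w)} : ℝ) ≤
      (1 / (G : ℝ)) ^ (2 * j) * (Fintype.card (K × (Fin 1 × Bool)) : ℝ) ^ (2 * LL r j))} : ℝ) ≤
      2 * (1 / (G : ℝ)) ^ (32 * r) * (Fintype.card (Alt n) : ℝ) ^ 1 := by
    intro j hj1 hj2
    by_cases hrj : r ≤ j
    swap
    · have : IsEmpty {b : Fin 1 → Alt n // ¬ (r ≤ j → (Nat.card {w : Fin (2 * LL r j) →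
        K × (Fin 1 × Bool) // 2 * F ≤ nfix (bwd g (cb b) w)} : ℝ) ≤
      (1 / (G : ℝ)) ^ (2 * j) * (Fintype.card (K × (Fin 1 × Bool)) : ℝ) ^ (2 * LL r j))} :=
        ⟨fun b => b.2 fun h => absurd h hrj⟩
      rw [Nat.card_of_isEmpty, Nat.cast_zero]
      positivity
    obtain ⟨L, hLd⟩ : ∃ L : ℕ, L = j / r + 1 := ⟨_, rfl⟩
    have hJL : 2 * LL r j = 64 * L := by
      unfold LL
      rw [hLd]
      ring
    have hLj : j ≤ r * L := by
      rw [hLd]
      have := Nat.lt_mul_div_succ j (by omega : 0 < r)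
      omega
    have hL1 : 1 ≤ L := by rw [hLd]; exact Nat.le_add_left 1 _
    have hL2 : L ≤ 2 * G ^ 8 := by
      have h1 : j / r ≤ G ^ 8 := by
        calc j / r ≤ (r * G ^ 8) / r := Nat.div_le_div_right hj2
          _ = G ^ 8 := Nat.mul_div_cancel_left _ (by omega)
      omega
    have hF : 4 * ((4 * j + 3) * (3 * (64 * L) + 1) + K') ≤ F := by
      have h5 : 8 * ((4 * j + 3) * (3 * (64 * L) + 1)) ≤ F := by
        refine le_trans ?_ hbig
        calc 8 * ((4 * j + 3) * (3 * (64 * L) + 1)) ≤ 8 * ((7 * j) * (4 * (64 * L))) := by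
              gcongr
              · omega
              · omega
          _ = 14336 * (j * L) := by ring
          _ ≤ 14336 * ((r * G ^ 8) * (2 * G ^ 8)) := by gcongr
          _ = 28672 * (r * G ^ 16) := by ring
          _ ≤ 32768 * (r * G ^ 16) := by gcongr; norm_num
      omega
    have hJn : 2 * (64 * L) ≤ n := by
      have h6 : L ≤ 2 * G ^ 16 := hL2.trans (by
        apply Nat.mul_le_mul_left
        exact Nat.pow_le_pow_right (by omega) (by norm_num))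
      have h7 : G ^ 16 ≤ r * G ^ 16 := Nat.le_mul_of_pos_left _ (by omega)
      omega
    have hD : 8 * (64 * L * (n / (2048 * G ^ 16))) ≤ F := by
      have h6 : n / (2048 * G ^ 16) * (2048 * G ^ 16) ≤ n := Nat.div_mul_le_self _ _
      have h7 : 8 * (64 * L * (n / (2048 * G ^ 16))) * G ^ 8 ≤ n := by
        calc 8 * (64 * L * (n / (2048 * G ^ 16))) * G ^ 8 =
            512 * L * (n / (2048 * G ^ 16)) * G ^ 8 := by ring
          _ ≤ 512 * (2 * G ^ 8) * (n / (2048 * G ^ 16)) * G ^ 8 := by gcongr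
          _ = 1024 * (n / (2048 * G ^ 16) * G ^ 16) := by ring
          _ ≤ 2048 * (n / (2048 * G ^ 16) * G ^ 16) := by gcongr; norm_num
          _ = n / (2048 * G ^ 16) * (2048 * G ^ 16) := by ring
          _ ≤ n := h6
      have h8 : 8 * (64 * L * (n / (2048 * G ^ 16))) ≤ n / G ^ 8 :=
        (Nat.le_div_iff_mul_le hGp).2 h7
      rw [hFd]
      unfold FH
      omega
    have hE := EXPOBF n 1 (64 * L) F (4 * j + 3) K' (n / (2048 * G ^ 16)) (by omega) hFpos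
      hK'pos ⟨2 * j + 1, by ring⟩ ((1 / (G : ℝ)) ^ (8 * r)) (by positivity) g hg hF hD
    have hnum1 := term1 G n j (64 * L) K' (by omega) hGn hK2 hJn
    have hnum2 := term2F G j r L hG hr11 hLj hL2
    have hpairs := card_pairs (X := Fin 1 → Alt n)
      (Y := Fin (64 * L) → K × (Fin 1 × Bool))
      (fun b w => 2 * F ≤ nfix (bwd g (cb b) w))
    have hE' : (Nat.card {p : (Fin 1 → Alt n) × (Fin (64 * L) → K × (Fin 1 × Bool)) //
        2 * F ≤ nfix (bwd g (cb p.1) p.2)} : ℝ) ≤ 2 * (1 / (G : ℝ)) ^ (34 * j) *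
        ((Fintype.card (Alt n) : ℝ) ^ 1 *
          (Fintype.card (K × (Fin 1 × Bool)) : ℝ) ^ (64 * L)) := by
      refine le_trans hE (mul_le_mul_of_nonneg_right ?_ (by positivity))
      rw [two_mul ((1 / (G : ℝ)) ^ (34 * j))]
      exact add_le_add hnum1 hnum2
    rw [hpairs] at hE'
    push_cast at hE'
    have hnj : (0 : ℝ) < (1 / (G : ℝ)) ^ (2 * j) := by positivity
    simp only [hrj, forall_const]
    rw [hJL]
    refine le_trans (markov
      (fun b : Fin 1 → Alt n => (Nat.card {w : Fin (64 * L) → K × (Fin 1 × Bool) //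
        2 * F ≤ nfix (bwd g (cb b) w)} : ℝ)) (fun b => Nat.cast_nonneg _)
      ((1 / (G : ℝ)) ^ (2 * j) * (Fintype.card (K × (Fin 1 × Bool)) : ℝ) ^ (64 * L))
      (2 * (1 / (G : ℝ)) ^ (32 * j) * (Fintype.card (Alt n) : ℝ) ^ 1) (by positivity) ?_) ?_
    · refine le_trans hE' (le_of_eq ?_)
      have e : (1 / (G : ℝ)) ^ (34 * j) = (1 / (G : ℝ)) ^ (32 * j) * (1 / (G : ℝ)) ^ (2 * j) := by
        rw [← pow_add]
        congr 1
        ring
      rw [e]
      ring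
    · apply mul_le_mul_of_nonneg_right _ (by positivity)
      apply mul_le_mul_of_nonneg_left _ (by norm_num)
      apply pow_le_pow_of_le_one he0.le he1
      omega
  -- union
  have hU := union_bound' (X := Fin 1 → Alt n)
    (fun j b => r ≤ j → (Nat.card {w : Fin (2 * LL r j) → K × (Fin 1 × Bool) //
        2 * F ≤ nfix (bwd g (cb b) w)} : ℝ) ≤
      (1 / (G : ℝ)) ^ (2 * j) * (Fintype.card (K × (Fin 1 × Bool)) : ℝ) ^ (2 * LL r j))
    (r * G ^ 8) _ hlevel (fun b => ¬ GoodH G r g (cb b)) (by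
      intro b hb
      unfold GoodH at hb
      push Not at hb
      obtain ⟨j, h1, h2, h3⟩ := hb
      rw [← hFd] at h3
      refine ⟨j, hr.trans h1, h2, fun h => ?_⟩
      exact absurd (h h1) (not_le.2 h3))
  refine le_trans hU ?_
  -- `n ≤ G ^ r`
  have hnr : (n : ℝ) ≤ (G : ℝ) ^ r := by
    calc (n : ℝ) = Real.exp (Real.log n) := (Real.exp_log hn0).symm
      _ ≤ Real.exp r := Real.exp_le_exp.2 hlog
      _ = Real.exp 1 ^ r := by rw [← Real.exp_nat_mul, mul_one]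
      _ ≤ (G : ℝ) ^ r := by
        apply pow_le_pow_left₀ (Real.exp_pos 1).le
        have := Real.exp_one_lt_d9
        linarith
  have hrG : (r : ℝ) ≤ (G : ℝ) ^ r := by
    have h1 : r < 2 ^ r := Nat.lt_two_pow_self
    have h2 : (r : ℝ) ≤ 2 ^ r := by exact_mod_cast h1.le
    refine h2.trans (pow_le_pow_left₀ (by norm_num) (by linarith) r)
  have hfin : ((r * G ^ 8 : ℕ) : ℝ) * (2 * (1 / (G : ℝ)) ^ (32 * r)) ≤ 1 / (n : ℝ) := by
    have h1 : 1 / (G : ℝ) ^ r ≤ 1 / (n : ℝ) := one_div_le_one_div_of_le hn0 hnr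
    refine le_trans ?_ h1
    push_cast
    rw [one_div_pow, le_div_iff₀ (by positivity)]
    have h2 : (r : ℝ) * (G : ℝ) ^ 8 * (2 * (1 / (G : ℝ) ^ (32 * r))) * (G : ℝ) ^ r =
        (2 * r * (G : ℝ) ^ 8 * (G : ℝ) ^ r) / (G : ℝ) ^ (32 * r) := by
      field_simp
    rw [h2, div_le_one (by positivity)]
    calc 2 * r * (G : ℝ) ^ 8 * (G : ℝ) ^ r ≤
        (G : ℝ) * (G : ℝ) ^ r * (G : ℝ) ^ 8 * (G : ℝ) ^ r := by
          gcongr
          linarith
      _ = (G : ℝ) ^ (9 + 2 * r) := by ring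
      _ ≤ (G : ℝ) ^ (32 * r) := pow_le_pow_right₀ hG1 (by omega)
  calc ((r * G ^ 8 : ℕ) : ℝ) * (2 * (1 / (G : ℝ)) ^ (32 * r) * (Fintype.card (Alt n) : ℝ) ^ 1) =
      ((r * G ^ 8 : ℕ) : ℝ) * (2 * (1 / (G : ℝ)) ^ (32 * r)) *
        (Fintype.card (Alt n) : ℝ) ^ 1 := by ring
    _ ≤ 1 / (n : ℝ) * (Fintype.card (Alt n) : ℝ) ^ 1 := by gcongr



end LG45
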