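import Pool.Agent.H45.LLG.Exp

/-! From the state `GLR` to `FMix`. -/

namespace LG45
open RC14 RC852 TE852 LL14 Finset Equiv

theorem FMIXG (G : ℕ) (hG : 256 ≤ G) (n r : ℕ) (hr : 1 ≤ r) (hn : r * G ^ 256 ≤ n)
    (a : ℕ) (ha : 1 ≤ a) (c : ℝ) (hc : 0 < c) (hc1 : c ≤ 1) (x : Fin a → Alt n)
    (h : GLR n r (26 * Real.log G) c x) (M : ℕ) (hM : 100 * (r * Real.log G) ≤ M) :
    FMix (n / (2048 * G ^ 16)) ((1 / (G : ℝ)) ^ (8 * r)) (gx (lz (pw x c)) M) := by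
  intro u
  have hG' : (256 : ℝ) ≤ G := by exact_mod_cast hG
  have hG0 : (0 : ℝ) < G := by linarith
  have hG1 : (1 : ℝ) ≤ G := by linarith
  have hr' : (1 : ℝ) ≤ r := by exact_mod_cast hr
  have hn' : (r : ℝ) * (G : ℝ) ^ 256 ≤ n := by exact_mod_cast hn
  have hGn' : (G : ℝ) ^ 256 ≤ n := by
    refine le_trans ?_ hn'
    exact le_mul_of_one_le_left (by positivity) hr'
  have hn0 : (0 : ℝ) < n := lt_of_lt_of_le (by positivity) hGn'
  obtain ⟨D, hD⟩ : ∃ D : ℕ, D = n / (2048 * G ^ 16) := ⟨_, rfl⟩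
  rw [← hD]
  have hC := pc_pos ha c
  have h1 := fmix_of_trace (q := pc a c + pc a c) (by omega) (lz (pw x c)) M r D u
  have h2 := lev_pw ha hc hc1 x r (26 * Real.log G) h M
  have hK0 : (0 : ℝ) ≤ Fintype.card (Fin (2 * M) → Fin (pc a c + pc a c) × Bool) :=
    Nat.cast_nonneg _
  -- the size of `D`
  obtain ⟨B, hB⟩ : ∃ B : ℝ, B = n / (4096 * (G : ℝ) ^ 16) := ⟨_, rfl⟩
  have hB0 : 0 < B := by rw [hB]; positivity
  have hD1 : 2 * B ≤ D + 1 := by
    have h3 : n < (n / (2048 * G ^ 16) + 1) * (2048 * G ^ 16) := by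
      have := Nat.lt_mul_div_succ n (show 0 < 2048 * G ^ 16 by positivity)
      rw [mul_comm]
      exact this
    rw [← hD] at h3
    have h4 : (n : ℝ) ≤ (D + 1) * (2048 * (G : ℝ) ^ 16) := by exact_mod_cast h3.le
    have h5 : 2 * B = n / (2048 * (G : ℝ) ^ 16) := by
      rw [hB]; field_simp; norm_num
    rw [h5, div_le_iff₀ (by positivity)]
    exact h4
  have hrB : (r : ℝ) ≤ B := by
    rw [hB, le_div_iff₀ (by positivity)]
    refine le_trans ?_ hn'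
    apply mul_le_mul_of_nonneg_left _ (by positivity)
    calc 4096 * (G : ℝ) ^ 16 ≤ (G : ℝ) ^ 2 * (G : ℝ) ^ 16 := by
          gcongr
          nlinarith
      _ = (G : ℝ) ^ 18 := by ring
      _ ≤ (G : ℝ) ^ 256 := pow_le_pow_right₀ hG1 (by norm_num)
  have hrD : r ≤ D + 1 := by
    have : (r : ℝ) ≤ D + 1 := by linarith
    exact_mod_cast this
  have hdf : B ^ r ≤ (D.descFactorial r : ℝ) := by
    have e1 : ((D + 1 - r : ℕ) : ℝ) ^ r ≤ (D.descFactorial r : ℝ) := by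
      exact_mod_cast Nat.pow_sub_le_descFactorial D r
    refine le_trans (pow_le_pow_left₀ hB0.le ?_ r) e1
    rw [Nat.cast_sub hrD]
    push_cast
    linarith
  -- numerical bounds
  have hx : Real.exp (-(26 * Real.log G)) = 1 / (G : ℝ) ^ 26 := by
    rw [Real.exp_neg, one_div]
    congr 1
    rw [show (26 : ℝ) * Real.log G = ((26 : ℕ) : ℝ) * Real.log G by norm_num, Real.exp_nat_mul,
      Real.exp_log hG0]
  have hy : Real.exp (-((M : ℝ) / 2)) ≤ (1 / (G : ℝ) ^ 50) ^ r := by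
    have e1 : (1 / (G : ℝ) ^ 50) ^ r = Real.exp (-(50 * (r * Real.log G))) := by
      rw [one_div, ← inv_pow, ← pow_mul, Real.exp_neg, inv_pow]
      congr 1
      rw [show (50 : ℝ) * (r * Real.log G) = ((50 * r : ℕ) : ℝ) * Real.log G by push_cast; ring,
        Real.exp_nat_mul, Real.exp_log hG0]
    rw [e1]
    apply Real.exp_le_exp.2
    linarith
  have hG26 : (G : ℝ) ^ 26 ≤ n := (pow_le_pow_right₀ hG1 (by norm_num)).trans hGn'
  have hone : (1 : ℝ) ≤ n := le_trans (one_le_pow₀ hG1) hG26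
  have hA : (8192 / (G : ℝ) ^ 10) ≤ (1 / (G : ℝ)) ^ 8 / 8 := by
    rw [one_div_pow, div_div, div_le_div_iff₀ (by positivity) (by positivity)]
    have e1 : (G : ℝ) ^ 10 = (G : ℝ) ^ 2 * (G : ℝ) ^ 8 := by ring
    rw [e1, one_mul]
    have e2 : (65536 : ℝ) ≤ (G : ℝ) ^ 2 := by nlinarith
    calc 8192 * ((G : ℝ) ^ 8 * 8) = 65536 * (G : ℝ) ^ 8 := by ring
      _ ≤ (G : ℝ) ^ 2 * (G : ℝ) ^ 8 := by gcongr
  have hhalf : (8192 / (G : ℝ) ^ 10) ^ r ≤ (1 / (G : ℝ)) ^ (8 * r) / 8 := by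
    refine (pow_le_pow_left₀ (by positivity) hA r).trans ?_
    rw [div_pow, ← pow_mul]
    apply div_le_div_of_nonneg_left (by positivity) (by norm_num)
    calc (8 : ℝ) = 8 ^ 1 := by norm_num
      _ ≤ 8 ^ r := pow_le_pow_right₀ (by norm_num) hr
  have hP1 : (1 + (n : ℝ) * Real.exp (-(26 * Real.log G))) ^ r ≤
      B ^ r * ((1 / (G : ℝ)) ^ (8 * r) / 8) := by
    have e1 : 1 + (n : ℝ) * Real.exp (-(26 * Real.log G)) ≤ B * (8192 / (G : ℝ) ^ 10) := by
      rw [hx, hB]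
      have e2 : (n : ℝ) / (4096 * (G : ℝ) ^ 16) * (8192 / (G : ℝ) ^ 10) =
          2 * (n / (G : ℝ) ^ 26) := by
        field_simp
        norm_num
      rw [e2]
      have e3 : 1 ≤ (n : ℝ) / (G : ℝ) ^ 26 := by
        rw [le_div_iff₀ (by positivity), one_mul]
        exact hG26
      rw [mul_one_div]
      linarith
    calc _ ≤ (B * (8192 / (G : ℝ) ^ 10)) ^ r := pow_le_pow_left₀ (by positivity) e1 r
      _ = B ^ r * (8192 / (G : ℝ) ^ 10) ^ r := mul_pow _ _ _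
      _ ≤ _ := mul_le_mul_of_nonneg_left hhalf (by positivity)
  have hP2 : Real.exp (-((M : ℝ) / 2)) * (1 + (n : ℝ)) ^ r ≤
      B ^ r * ((1 / (G : ℝ)) ^ (8 * r) / 8) := by
    have e1 : 1 / (G : ℝ) ^ 50 * (1 + (n : ℝ)) ≤ B * (8192 / (G : ℝ) ^ 10) := by
      rw [hB]
      have e2 : (n : ℝ) / (4096 * (G : ℝ) ^ 16) * (8192 / (G : ℝ) ^ 10) =
          1 / (G : ℝ) ^ 26 * (2 * n) := by
        field_simp
        norm_num
      rw [e2]
      apply mul_le_mul _ (by linarith) (by positivity) (by positivity)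
      exact one_div_le_one_div_of_le (by positivity) (pow_le_pow_right₀ hG1 (by norm_num))
    calc _ ≤ (1 / (G : ℝ) ^ 50) ^ r * (1 + (n : ℝ)) ^ r := by gcongr
      _ = (1 / (G : ℝ) ^ 50 * (1 + (n : ℝ))) ^ r := (mul_pow _ _ _).symm
      _ ≤ (B * (8192 / (G : ℝ) ^ 10)) ^ r := pow_le_pow_left₀ (by positivity) e1 r
      _ = B ^ r * (8192 / (G : ℝ) ^ 10) ^ r := mul_pow _ _ _
      _ ≤ _ := mul_le_mul_of_nonneg_left hhalf (by positivity)
  have h3 : rtr (Tq (repA r n) (lz (pw x c)) ^ (2 * M)) ≤ B ^ r * (1 / (G : ℝ)) ^ (8 * r) := by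
    refine h2.trans ((add_le_add hP1 hP2).trans ?_)
    have : 0 ≤ B ^ r * (1 / (G : ℝ)) ^ (8 * r) := by positivity
    linarith
  have h4 : (#{k | D ≤ nfix (gx (lz (pw x c)) M k * u)} : ℝ) * B ^ r ≤
      (Fintype.card (Fin (2 * M) → Fin (pc a c + pc a c) × Bool) *
        (1 / (G : ℝ)) ^ (8 * r)) * B ^ r := by
    refine (mul_le_mul_of_nonneg_left hdf (Nat.cast_nonneg _)).trans (h1.trans ?_)
    refine (mul_le_mul_of_nonneg_left h3 hK0).trans (le_of_eq ?_)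
    ring
  have h5 := le_of_mul_le_mul_right h4 (by positivity)
  linarith

end LG45
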