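import Pool.Agent.H45.LLG.Amp

/-! Transfer between isomorphic irreducible subspaces, union bound over the types. -/

namespace LG45
open RC14 RC852 TE852 LL14 Finset
open scoped InnerProductSpace

section gen
variable {G : Type*} [Group G]
variable {V : Type*} [NormedAddCommGroup V] [InnerProductSpace ℂ V] [FiniteDimensional ℂ V]

open TYPES in
/-- intertwiner between irreducible subspaces -/
theorem iso_data {ρ : G →* (V ≃ₗᵢ[ℂ] V)} {W U : Submodule ℂ V} (hW : Irr ρ W) (hU : Irr ρ U)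
    (h : Iso ρ W U) : ∃ (T : Module.End ℂ V) (s : ℝ), 0 < s ∧ Com ρ T ∧
      (∀ w ∈ W, ‖T w‖ ^ 2 = s * ‖w‖ ^ 2) ∧ W.map T = U := by
  obtain ⟨T, hT, hTU, w0, hw0, hw0'⟩ := h
  obtain ⟨s, hs⟩ := norm_T hW hT
  have hs0 : 0 < s := by
    have h1 := hs w0 hw0
    have h2 : 0 < ‖T w0‖ ^ 2 := by positivity
    have h3 : 0 ≤ ‖w0‖ ^ 2 := by positivity
    by_contra hneg
    push Not at hneg
    nlinarith
  refine ⟨T, s, hs0, hT, hs, ?_⟩
  rcases hU.2.2 (W.map T) (by rintro _ ⟨w, hw, rfl⟩; exact hTU w hw) (by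
    rintro g _ ⟨w, hw, rfl⟩
    exact ⟨ρ g w, hW.2.1 g w hw, hT g w⟩) with h | h
  · exfalso
    have : T w0 ∈ W.map T := ⟨w0, hw0, rfl⟩
    rw [h] at this
    exact hw0' ((Submodule.mem_bot ℂ).mp this)
  · exact h

open TYPES in
theorem LRk.iso {ρ : G →* (V ≃ₗᵢ[ℂ] V)} {W U : Submodule ℂ V} (hW : Irr ρ W) (hU : Irr ρ U)
    (h : Iso ρ W U) {Φ : V → ℝ} (hΦ : IsEn ρ Φ) {Λ : ℝ} (hL : LRk W Φ Λ) : LRk U Φ Λ := by
  obtain ⟨T, s, hs, hT, hn, hmap⟩ := iso_data hW hU h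
  obtain ⟨r, x, w, hw, hE⟩ := hΦ
  have hinj : ∀ v ∈ W, T v = 0 → v = 0 := by
    intro v hv h0
    have h1 := hn v hv
    rw [h0, norm_zero] at h1
    have h2 : ‖v‖ ^ 2 = 0 := by
      have h3 : s * ‖v‖ ^ 2 = 0 := by rw [← h1]; norm_num
      rcases mul_eq_zero.1 h3 with h4 | h4
      · exact absurd h4 hs.ne'
      · exact h4
    exact norm_eq_zero.1 ((pow_eq_zero_iff two_ne_zero).1 h2)
  have hΦT : ∀ v ∈ W, Φ (T v) = s * Φ v := by
    intro v hv
    rw [hE, hE, Finset.mul_sum]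
    refine Finset.sum_congr rfl fun t _ => ?_
    rw [← hT, ← map_sub, hn _ (Submodule.sub_mem _ (hW.2.1 _ _ hv) hv)]
    ring
  have hfin : ∀ Z : Submodule ℂ V, Z ≤ W → Module.finrank ℂ (Z.map T) = Module.finrank ℂ Z := by
    intro Z hZ
    have e : (T.domRestrict Z).range = Z.map T := by
      ext y
      simp only [LinearMap.mem_range, Submodule.mem_map, LinearMap.domRestrict_apply, Subtype.exists]
      constructor
      · rintro ⟨a, ha, rfl⟩; exact ⟨a, ha, rfl⟩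
      · rintro ⟨a, ha, rfl⟩; exact ⟨a, ha, rfl⟩
    rw [← e]
    apply LinearMap.finrank_range_of_inj
    rw [← LinearMap.ker_eq_bot, LinearMap.ker_eq_bot']
    intro z hz
    exact Subtype.ext (hinj z (hZ z.2) hz)
  intro Z hZ hΦZ
  have h1 := hL (W ⊓ Z.comap T) inf_le_left (by
    rintro u ⟨hu1, hu2⟩
    have h2 := hΦZ (T u) hu2
    rw [hΦT u hu1, hn u hu1] at h2
    exact le_of_mul_le_mul_left h2 hs)
  have h2 : (W ⊓ Z.comap T).map T = Z := by
    apply le_antisymm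
    · rintro _ ⟨u, ⟨_, hu2⟩, rfl⟩
      exact hu2
    · intro z hz
      have hzU : z ∈ W.map T := by rw [hmap]; exact hZ hz
      obtain ⟨u, hu, rfl⟩ := hzU
      exact ⟨u, ⟨hu, hz⟩, rfl⟩
  rw [← hfin _ inf_le_left, h2, ← hfin W le_rfl, hmap] at h1
  exact h1

open TYPES in
/-- representatives of the types of irreducible subspaces -/
theorem types_rep (ρ : G →* (V ≃ₗᵢ[ℂ] V)) (M : Submodule ℂ V) (B : ℕ)
    (hB : ∀ (N : ℕ) (W : Fin N → Submodule ℂ V), (∀ i, Irr ρ (W i)) → (∀ i, W i ≤ M) →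
      (∀ i j, i ≠ j → ¬ Iso ρ (W i) (W j)) → N ≤ B) :
    ∃ (N : ℕ) (W : Fin N → Submodule ℂ V), N ≤ B ∧ (∀ i, Irr ρ (W i) ∧ W i ≤ M) ∧
      ∀ U, Irr ρ U → U ≤ M → ∃ i, Iso ρ (W i) U := by
  classical
  let P : ℕ → Prop := fun N => ∃ W : Fin N → Submodule ℂ V, (∀ i, Irr ρ (W i)) ∧
    (∀ i, W i ≤ M) ∧ (∀ i j, i ≠ j → ¬ Iso ρ (W i) (W j))
  have hP0 : P 0 := ⟨fun i => i.elim0, fun i => i.elim0, fun i => i.elim0, fun i => i.elim0⟩
  have hPB : ∀ N, P N → N ≤ B := fun N ⟨W, h1, h2, h3⟩ => hB N W h1 h2 h3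
  have hG := Nat.findGreatest_spec (P := P) (n := B) (Nat.zero_le B) hP0
  obtain ⟨N, hN⟩ : ∃ N, N = Nat.findGreatest P B := ⟨_, rfl⟩
  rw [← hN] at hG
  obtain ⟨W, h1, h2, h3⟩ := hG
  refine ⟨N, W, hPB N ⟨W, h1, h2, h3⟩, fun i => ⟨h1 i, h2 i⟩, fun U hU hUM => ?_⟩
  by_contra hcon
  push Not at hcon
  have hP : P (N + 1) := by
    refine ⟨Fin.cons U W, ?_, ?_, ?_⟩
    · intro i
      refine Fin.cases ?_ (fun i => ?_) i
      · simpa using hU
      · simpa using h1 i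
    · intro i
      refine Fin.cases ?_ (fun i => ?_) i
      · simpa using hUM
      · simpa using h2 i
    · intro i j
      refine Fin.cases ?_ (fun i => ?_) i
      · refine Fin.cases ?_ (fun j => ?_) j
        · intro h; exact absurd rfl h
        · intro _ hiso
          simp only [Fin.cons_zero, Fin.cons_succ] at hiso
          exact hcon j (hiso.symm hU)
      · refine Fin.cases ?_ (fun j => ?_) j
        · intro _ hiso
          simp only [Fin.cons_zero, Fin.cons_succ] at hiso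
          exact hcon i hiso
        · intro hij hiso
          simp only [Fin.cons_succ] at hiso
          exact h3 i j (fun h => hij (by rw [h])) hiso
  have h4 := Nat.le_findGreatest (hPB _ hP) hP
  omega

end gen

/-- union bound over the types of irreducible subspaces of a level -/
theorem UBLR (j n : ℕ) (hj : 2 * j + 2 ≤ n) {Z : Type*} [Finite Z] (Φ : Z → RC14.V j n → ℝ)
    (hΦ : ∀ z, IsEn (repA j n) (Φ z)) (Λ B : ℝ) (hB0 : 0 ≤ B)
    (hB : ∀ W : Submodule ℂ (RC14.V j n), Irr (repA j n) W → W ≤ Lvl j n →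
      (Nat.card {z : Z // ¬ LRk W (Φ z) Λ} : ℝ) ≤ B) :
    (Nat.card {z : Z // ¬ ∀ W : Submodule ℂ (RC14.V j n), Irr (repA j n) W → W ≤ Lvl j n →
      LRk W (Φ z) Λ} : ℝ) ≤ Real.exp (3 * Real.sqrt j) * B := by
  obtain ⟨N, W, hN, hW, hrep⟩ := types_rep (repA j n) (Lvl j n)
    (Nat.card (ConjClasses (Equiv.Perm (Fin j))))
    (fun _ W h1 h2 h3 => TYPESLVL.card_le hj W h1 h2 h3)
  have step : Nat.card {z : Z // ¬ ∀ W : Submodule ℂ (RC14.V j n), Irr (repA j n) W →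
      W ≤ Lvl j n → LRk W (Φ z) Λ} ≤ ∑ i, Nat.card {z : Z // ¬ LRk (W i) (Φ z) Λ} := by
    apply RC14.card_union
    intro z hz
    by_contra hcon
    push Not at hcon
    apply hz
    intro U hU hUL
    obtain ⟨i, hi⟩ := hrep U hU hUL
    exact LRk.iso (hW i).1 hU hi (hΦ z) (hcon i)
  have h1 := CONJS j
  have h2 : (N : ℝ) ≤ Real.exp (3 * Real.sqrt j) := le_trans (by exact_mod_cast hN) h1
  calc _ ≤ ∑ i, (Nat.card {z : Z // ¬ LRk (W i) (Φ z) Λ} : ℝ) := by exact_mod_cast step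
    _ ≤ ∑ i : Fin N, B := Finset.sum_le_sum fun i _ => hB (W i) (hW i).1 (hW i).2
    _ = N * B := by simp
    _ ≤ _ := mul_le_mul_of_nonneg_right h2 hB0

end LG45
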