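import Pool.Agent.H45.LLG.Round

/-! `O(log log n)` rounds with `15` letters each. -/

namespace LG45
open RC14 RC852 TE852 LL14 Finset Equiv Filter

namespace ITERF

theorem GLR.mono {n r : ℕ} {l l' c : ℝ} {a : ℕ} {x : Fin a → Alt n} (h : l' ≤ l)
    (hx : GLR n r l c x) : GLR n r l' c x := by
  intro j h1 h2 W hW hWL
  refine (hx j h1 h2 W hW hWL).mono (fun v _ => le_rfl) ?_
  exact mul_le_mul_of_nonneg_right h (Nat.cast_nonneg _)

theorem St1.of_good {n r : ℕ} (l : ℝ) {c : ℝ} (hc : 0 < c) {a : ℕ} {x : Fin a → Alt n}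
    (hx : Good1 n r c x) : St1 n r r l c x := by
  refine ⟨hx, fun j h1 h2 W hW hWL => LRk.of_gap _ fun v hv => ?_⟩
  have h3 := hx j h1 h2 v (hWL hv)
  rw [div_mul_eq_mul_div, le_div_iff₀ hc]
  linarith

/-- the state after `i` rounds -/
def StF (D1 a0 n r0 G0 : ℕ) (B c0 lam : ℝ) (i : ℕ) : Prop :=
  ∃ (a r : ℕ) (c : ℝ), 1 ≤ a ∧ a ≤ a0 + i * (1 + 7 * 2) ∧ (Real.log n) ^ 2 ≤ r ∧ 1 ≤ r ∧
    2 * r + 2 ≤ n ∧ c0 / lam ^ i ≤ c ∧ 0 < c ∧ c ≤ 1 ∧
    (∀ G : ℕ, G0 ≤ G → (r * G ^ 256 ≤ n ∨ G = G0) →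
      (Nat.card {x : Fin a → Alt n // ¬ St1 n r0 r (26 * Real.log G) c x} : ℝ) ≤
      ((B + 2 * i) / n) * (Fintype.card (Alt n) : ℝ) ^ a) ∧
    (n ≤ D1 * r ∨ Real.log (n / r) ≤ (63 / 64) ^ i * Real.log n)

theorem step {K : ℕ} (hK : K = 256) {G0 : ℕ} {lam : ℝ} (hlam : 1 ≤ lam) (hG0 : 3 ≤ G0)
    (hround : ∀ G : ℕ, G0 ≤ G → ∀ n r0 r : ℕ,
      (Real.log n) ^ 2 ≤ r → r * G ^ K ≤ n →
      ∀ a : ℕ, 1 ≤ a → ∀ c : ℝ, 0 < c → c ≤ 1 → ∀ p : ℝ, 0 ≤ p →
      (Nat.card {x : Fin a → Alt n // ¬ St1 n r0 r (26 * Real.log G) c x} : ℝ) ≤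
        p * (Fintype.card (Alt n) : ℝ) ^ a →
      (Nat.card {y : Fin (a + (1 + 7 * 2)) → Alt n //
          ¬ St1 n r0 (r * G ^ 8) (26 * Real.log G) (c / lam) y} : ℝ) ≤
        (p + 2 / (n : ℝ)) * (Fintype.card (Alt n) : ℝ) ^ (a + (1 + 7 * 2)))
    {D1 a0 n r0 : ℕ} {B c0 : ℝ} (hD : G0 ^ K ≤ D1) (hB : 0 ≤ B) (hc0 : 0 < c0) (i : ℕ)
    (h : StF D1 a0 n r0 G0 B c0 lam i) : StF D1 a0 n r0 G0 B c0 lam (i + 1) := by
  obtain ⟨a, r, c, ha1, ha, hlr, hr1, hrn, hc, hc0', hc1, hcard, hor⟩ := h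
  have hn0 : (0 : ℝ) < n := by
    have : 0 < n := by omega
    exact_mod_cast this
  have hlam0 : (0 : ℝ) < lam := by linarith
  by_cases hcase : n ≤ D1 * r
  · refine ⟨a, r, c, ha1, ?_, hlr, hr1, hrn, ?_, hc0', hc1, ?_, Or.inl hcase⟩
    · have : i * (1 + 7 * 2) ≤ (i + 1) * (1 + 7 * 2) := Nat.mul_le_mul_right _ (by omega)
      omega
    · refine le_trans ?_ hc
      exact div_le_div_of_nonneg_left hc0.le (by positivity)
        (pow_le_pow_right₀ hlam (by omega))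
    · intro G hG hG'
      refine (hcard G hG hG').trans (mul_le_mul_of_nonneg_right ?_ (by positivity))
      apply div_le_div_of_nonneg_right _ hn0.le
      push_cast
      linarith
  · have hlogn : Real.log (n / r) ≤ (63 / 64) ^ i * Real.log n := hor.resolve_left hcase
    have hlt : D1 * r < n := not_le.mp hcase
    obtain ⟨G, hG, hG1, hG2⟩ := ITERHx.exG K (by omega) G0 n r (by omega) hr1 (by
      calc r * G0 ^ K = G0 ^ K * r := mul_comm _ _
        _ ≤ D1 * r := Nat.mul_le_mul_right _ hD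
        _ ≤ n := hlt.le)
    have hG3 : 3 ≤ G := hG0.trans hG
    have hGR : (3 : ℝ) ≤ G := by exact_mod_cast hG3
    have hGp : (0 : ℝ) < G := by linarith
    have hlogG : 1 ≤ Real.log G := by
      rw [Real.le_log_iff_exp_le hGp]
      have := Real.exp_one_lt_d9
      linarith
    have hrR : (1 : ℝ) ≤ r := by exact_mod_cast hr1
    have hrp : (0 : ℝ) < r := by linarith
    have hG8 : 1 ≤ G ^ 8 := Nat.one_le_pow _ _ (by omega)
    have hmain := hround G hG n r0 r hlr hG1 a ha1 c hc0' hc1 ((B + 2 * i) / n)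
      (by positivity) (hcard G hG (Or.inl (by rw [← hK]; exact hG1)))
    refine ⟨a + (1 + 7 * 2), r * G ^ 8, c / lam, by omega, ?_, ?_, ?_, ?_, ?_, by positivity, ?_,
      ?_, Or.inr ?_⟩
    · have : (i + 1) * (1 + 7 * 2) = i * (1 + 7 * 2) + (1 + 7 * 2) := by ring
      omega
    · refine hlr.trans ?_
      have : r ≤ r * G ^ 8 := Nat.le_mul_of_pos_right _ hG8
      exact_mod_cast this
    · exact Nat.mul_pos hr1 hG8
    · obtain ⟨K', hK'⟩ : ∃ K', K' = 248 := ⟨_, rfl⟩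
      have e : r * G ^ K = r * G ^ 8 * G ^ K' := by
        rw [mul_assoc, ← pow_add, hK', hK]
      have h1 : 4 ≤ G ^ K' := by
        calc 4 ≤ G ^ 2 := by nlinarith
          _ ≤ G ^ K' := Nat.pow_le_pow_right (by omega) (by omega)
      have h2 : r * G ^ 8 * 4 ≤ r * G ^ 8 * G ^ K' := Nat.mul_le_mul_left _ h1
      have h3 : 1 ≤ r * G ^ 8 := Nat.mul_pos hr1 hG8
      rw [e] at hG1
      omega
    · rw [pow_succ, ← div_div]
      exact div_le_div_of_nonneg_right hc hlam0.le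
    · exact (div_le_self hc0'.le hlam).trans hc1
    · intro G' hG' hor'
      have hGG : G' ≤ G := by
        rcases hor' with h1 | h1
        · by_contra hcon
          have h2 : G + 1 ≤ G' := by omega
          have h3 : r * (G + 1) ^ K ≤ r * G ^ 8 * G' ^ 256 := by
            rw [hK]
            exact Nat.mul_le_mul (Nat.le_mul_of_pos_right _ hG8) (Nat.pow_le_pow_left h2 _)
          omega
        · rw [h1]; exact hG
      have hGG' : 26 * Real.log G' ≤ 26 * Real.log G := by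
        have h1 : (0 : ℝ) < G' := by exact_mod_cast (by omega : 0 < G')
        have h2 : (G' : ℝ) ≤ G := by exact_mod_cast hGG
        have := Real.log_le_log h1 h2
        linarith
      have hm : Nat.card {y : Fin (a + (1 + 7 * 2)) → Alt n //
          ¬ St1 n r0 (r * G ^ 8) (26 * Real.log G') (c / lam) y} ≤
          Nat.card {y : Fin (a + (1 + 7 * 2)) → Alt n //
          ¬ St1 n r0 (r * G ^ 8) (26 * Real.log G) (c / lam) y} :=
        RC14.card_mono _ _ fun y hy hcon => hy ⟨hcon.1, GLR.mono hGG' hcon.2⟩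
      refine (Nat.cast_le.2 hm).trans (hmain.trans (le_of_eq ?_))
      congr 1
      push_cast
      ring
    · have h1 : (n : ℝ) / r ≤ ((G : ℝ) + 1) ^ K := by
        rw [div_le_iff₀ hrp]
        have : (n : ℝ) ≤ r * ((G : ℝ) + 1) ^ K := by exact_mod_cast hG2.le
        linarith
      have h2 : Real.log (n / r) ≤ 256 * Real.log ((G : ℝ) + 1) := by
        have := Real.log_le_log (by positivity) h1
        rw [Real.log_pow] at this
        have hKR : (K : ℝ) = 256 := by rw [hK]; norm_num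
        rw [hKR] at this
        exact this
      have h3 : Real.log ((G : ℝ) + 1) ≤ 2 * Real.log G := by
        have h4 : (G : ℝ) + 1 ≤ (G : ℝ) ^ 2 := by nlinarith
        have := Real.log_le_log (by positivity) h4
        rw [Real.log_pow] at this
        exact_mod_cast this
      have h5 : Real.log ((n : ℝ) / ((r * G ^ 8 : ℕ) : ℝ)) = Real.log (n / r) - 8 * Real.log G := by
        push_cast
        rw [← div_div, Real.log_div (by positivity) (by positivity), Real.log_pow]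
        norm_num
      rw [h5, pow_succ]
      nlinarith

theorem iter {K : ℕ} (hK : K = 256) {G0 : ℕ} {lam : ℝ} (hlam : 1 ≤ lam) (hG0 : 3 ≤ G0)
    (hround : ∀ G : ℕ, G0 ≤ G → ∀ n r0 r : ℕ,
      (Real.log n) ^ 2 ≤ r → r * G ^ K ≤ n →
      ∀ a : ℕ, 1 ≤ a → ∀ c : ℝ, 0 < c → c ≤ 1 → ∀ p : ℝ, 0 ≤ p →
      (Nat.card {x : Fin a → Alt n // ¬ St1 n r0 r (26 * Real.log G) c x} : ℝ) ≤
        p * (Fintype.card (Alt n) : ℝ) ^ a →
      (Nat.card {y : Fin (a + (1 + 7 * 2)) → Alt n //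
          ¬ St1 n r0 (r * G ^ 8) (26 * Real.log G) (c / lam) y} : ℝ) ≤
        (p + 2 / (n : ℝ)) * (Fintype.card (Alt n) : ℝ) ^ (a + (1 + 7 * 2)))
    {D1 a0 n r0 : ℕ} {B c0 : ℝ} (hD : G0 ^ K ≤ D1) (hB : 0 ≤ B) (hc0 : 0 < c0)
    (h : StF D1 a0 n r0 G0 B c0 lam 0) (i : ℕ) : StF D1 a0 n r0 G0 B c0 lam i := by
  induction i with
  | zero => exact h
  | succ i ih => exact step hK hlam hG0 hround hD hB hc0 i ih

/-- the beginning -/
theorem start (a0 : ℕ) (ha0 : 1 ≤ a0) (c0 : ℝ) (hc0 : 0 < c0) (B : ℝ)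
    (h : ∀ᶠ n : ℕ in atTop, (Nat.card {x : Fin a0 → Alt n // ¬ Good1 n (Rr (1 / 2) n) c0 x} : ℝ) ≤
      B / (n : ℝ) * (Fintype.card (Alt n) : ℝ) ^ a0) (D1 G0 : ℕ) (lam : ℝ) :
    ∀ᶠ n : ℕ in atTop, StF D1 a0 n (Rr (1 / 2) n) G0 B (min c0 1) lam 0 := by
  have h1 : ∀ᶠ x : ℝ in atTop, (Real.log x) ^ 2 + 1 ≤ x ^ (1 / 2 : ℝ) := by
    have e1 := isLittleO_log_rpow_rpow_atTop (2 : ℝ) (show (0 : ℝ) < 1 / 2 by norm_num)
    have e2 := e1.bound (show (0 : ℝ) < 1 / 2 by norm_num)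
    have e3 : ∀ᶠ x : ℝ in atTop, (2 : ℝ) ≤ x ^ (1 / 2 : ℝ) :=
      (tendsto_rpow_atTop (show (0 : ℝ) < 1 / 2 by norm_num)).eventually_ge_atTop 2
    filter_upwards [e2, e3, eventually_ge_atTop 1] with x h2 h3 h4
    have h5 : 0 ≤ Real.log x := Real.log_nonneg h4
    rw [Real.norm_of_nonneg (by positivity), Real.norm_of_nonneg (by positivity),
      Real.rpow_two] at h2
    linarith
  have h2 := (tendsto_natCast_atTop_atTop (R := ℝ)).eventually h1
  filter_upwards [h, h2, eventually_ge_atTop 16] with n hn1 hn2 hn3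
  have hn16 : (16 : ℝ) ≤ n := by exact_mod_cast hn3
  have hn0 : (0 : ℝ) < n := by linarith
  have hfl : (n : ℝ) ^ (1 / 2 : ℝ) < Rr (1 / 2) n + 1 := Nat.lt_floor_add_one _
  have hfl2 : (Rr (1 / 2) n : ℝ) ≤ (n : ℝ) ^ (1 / 2 : ℝ) := Nat.floor_le (by positivity)
  have hsq : (n : ℝ) ^ (1 / 2 : ℝ) = Real.sqrt n := (Real.sqrt_eq_rpow _).symm
  have hs4 : 4 ≤ Real.sqrt n := by
    rw [show (4 : ℝ) = Real.sqrt 16 by
      rw [show (16 : ℝ) = 4 ^ 2 by norm_num, Real.sqrt_sq (by norm_num)]]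
    exact Real.sqrt_le_sqrt hn16
  have hss : Real.sqrt n * Real.sqrt n = n := Real.mul_self_sqrt hn0.le
  have hr1 : 1 ≤ Rr (1 / 2) n := by
    have : (0 : ℝ) < Rr (1 / 2) n := by
      rw [hsq] at hfl; linarith
    exact_mod_cast this
  refine ⟨a0, Rr (1 / 2) n, min c0 1, ha0, by omega, by linarith, hr1, ?_, ?_, lt_min hc0 one_pos,
    min_le_right _ _, ?_, Or.inr ?_⟩
  · have : (2 : ℝ) * Rr (1 / 2) n + 2 ≤ n := by
      rw [hsq] at hfl2
      nlinarith
    exact_mod_cast this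
  · simp
  · intro G _ _
    have hc1 : 0 < min c0 1 := lt_min hc0 one_pos
    have hm : Nat.card {x : Fin a0 → Alt n //
        ¬ St1 n (Rr (1 / 2) n) (Rr (1 / 2) n) (26 * Real.log G) (min c0 1) x} ≤
        Nat.card {x : Fin a0 → Alt n // ¬ Good1 n (Rr (1 / 2) n) (min c0 1) x} :=
      RC14.card_mono _ _ fun y hy hcon => hy (St1.of_good _ hc1 hcon)
    refine (Nat.cast_le.2 hm).trans ?_
    refine (ITERHx.card_anti (min_le_left _ _)).trans (hn1.trans (le_of_eq ?_))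
    simp
  · rw [pow_zero, one_mul]
    have hrR : (1 : ℝ) ≤ Rr (1 / 2) n := by exact_mod_cast hr1
    exact Real.log_le_log (by positivity) (div_le_self hn0.le hrR)

end ITERF

open ITERF in
/-- after `O(log log n)` rounds with `15` letters each -/
theorem ITERF : ∃ D1 : ℕ, 100 ≤ D1 ∧ ∃ l : ℝ, 192 ≤ l ∧ ∃ C : ℝ, 0 < C ∧ ∀ᶠ n : ℕ in atTop,
    ∃ (a r : ℕ) (c : ℝ), 1 ≤ a ∧ (a : ℝ) ≤ C * Real.log (Real.log n) ∧
      n ≤ D1 * r ∧ 2 * r + 2 ≤ n ∧ 0 < c ∧ c ≤ 1 ∧ (Real.log n) ^ (-C) ≤ c ∧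
      (Nat.card {x : Fin a → Alt n // ¬ St1 n (Rr (1 / 2) n) r l c x} : ℝ) ≤
        1 / (4 * Real.sqrt n) * (Fintype.card (Alt n) : ℝ) ^ a := by
  obtain ⟨G0, lam, hlam, hround⟩ := ROUNDF
  obtain ⟨a0, ha0, c0, hc0, B, hB, hev⟩ := TEMAIN' (1 / 2) (by norm_num)
  obtain ⟨G1, hG1⟩ : ∃ G1, G1 = max G0 (max 3 ⌈Real.exp 10⌉₊) := ⟨_, rfl⟩
  have hG13 : 3 ≤ G1 := by rw [hG1]; exact (le_max_left _ _).trans (le_max_right _ _)
  have hG10 : G0 ≤ G1 := by rw [hG1]; exact le_max_left _ _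
  have hG1e : Real.exp 10 ≤ G1 := by
    refine (Nat.le_ceil _).trans ?_
    rw [hG1]
    exact_mod_cast (le_max_right _ _).trans (le_max_right _ _)
  have hlG1 : 10 ≤ Real.log G1 := by
    rw [Real.le_log_iff_exp_le (lt_of_lt_of_le (Real.exp_pos _) hG1e)]
    exact hG1e
  obtain ⟨c1, hc1⟩ : ∃ c1, c1 = min c0 1 := ⟨_, rfl⟩
  have hc1p : 0 < c1 := by rw [hc1]; exact lt_min hc0 one_pos
  have hlam0 : (0 : ℝ) < lam := by linarith
  have hloglam : 0 ≤ Real.log lam := Real.log_nonneg hlam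
  refine ⟨max 100 (G1 ^ 256), le_max_left _ _, 26 * Real.log G1, by linarith,
    1000 + 65 * Real.log lam, by positivity, ?_⟩
  have hst := start a0 ha0 c0 hc0 B hev (max 100 (G1 ^ 256)) G1 lam
  have hll : Tendsto (fun n : ℕ => Real.log (Real.log (n : ℝ))) atTop atTop :=
    Real.tendsto_log_atTop.comp (Real.tendsto_log_atTop.comp tendsto_natCast_atTop_atTop)
  have e1 := hll.eventually_ge_atTop (max (max 10 (a0 : ℝ)) (max B (-Real.log c1)))
  have e2 : ∀ᶠ n : ℕ in atTop, 524 * Real.log (Real.log (n : ℝ)) ≤ Real.sqrt n := by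
    have f1 : ∀ᶠ x : ℝ in atTop, Real.log x * 524 ≤ x ^ (1 / 2 : ℝ) := by
      have g1 := isLittleO_log_rpow_atTop (show (0 : ℝ) < 1 / 2 by norm_num)
      have g2 := g1.bound (show (0 : ℝ) < 1 / 524 by norm_num)
      filter_upwards [g2, eventually_ge_atTop 1] with x h2 h4
      rw [Real.norm_of_nonneg (Real.log_nonneg h4), Real.norm_of_nonneg (by positivity)] at h2
      linarith
    have f2 := (tendsto_natCast_atTop_atTop (R := ℝ)).eventually f1
    have f3 : ∀ᶠ n : ℕ in atTop, (1 : ℝ) ≤ Real.log (n : ℝ) :=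
      (Real.tendsto_log_atTop.comp tendsto_natCast_atTop_atTop).eventually_ge_atTop 1
    filter_upwards [f2, f3] with n h2 h3
    rw [← Real.sqrt_eq_rpow] at h2
    have : Real.log (Real.log n) ≤ Real.log n :=
      (Real.log_le_sub_one_of_pos (by linarith)).trans (by linarith)
    linarith
  filter_upwards [hst, e1, e2, eventually_ge_atTop 16] with n hn1 hn2 hn3 hn4
  set y : ℝ := Real.log (Real.log n) with hy
  have hy10 : 10 ≤ y := (le_max_left _ _).trans ((le_max_left _ _).trans hn2)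
  have hya : (a0 : ℝ) ≤ y := (le_max_right _ _).trans ((le_max_left _ _).trans hn2)
  have hyB : B ≤ y := (le_max_left _ _).trans ((le_max_right _ _).trans hn2)
  have hyc : -Real.log c1 ≤ y := (le_max_right _ _).trans ((le_max_right _ _).trans hn2)
  have hn16 : (16 : ℝ) ≤ n := by exact_mod_cast hn4
  have hn0 : (0 : ℝ) < n := by linarith
  have hlog1 : 1 < Real.log n := by
    by_contra hcon
    have h1 : Real.log n ≤ 1 := not_lt.mp hcon
    have h2 : 0 ≤ Real.log n := Real.log_nonneg (by linarith)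
    have := Real.log_nonpos h2 h1
    linarith
  have hlog0 : 0 < Real.log n := by linarith
  have hexpy : Real.log n = Real.exp y := by rw [hy, Real.exp_log hlog0]
  -- the number of rounds
  obtain ⟨N, hN⟩ : ∃ N : ℕ, N = ⌈64 * y⌉₊ := ⟨_, rfl⟩
  have hN1 : 64 * y ≤ N := by rw [hN]; exact Nat.le_ceil _
  have hN2 : (N : ℝ) ≤ 65 * y := by
    have : (N : ℝ) < 64 * y + 1 := by rw [hN]; exact Nat.ceil_lt_add_one (by linarith)
    linarith
  have hround' := fun G (hG : G1 ≤ G) => hround G (hG10.trans hG)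
  obtain ⟨a, r, c, ha1, ha, -, hr1, hrn, hc, hc0', hcle, hcard, hor⟩ :=
    iter (K := 256) rfl hlam hG13 hround' (le_max_right 100 (G1 ^ 256)) hB hc1p
      (by rw [hc1]; exact hn1) N
  refine ⟨a, r, c, ha1, ?_, ?_, hrn, hc0', hcle, ?_, ?_⟩
  · have h1 : (a : ℝ) ≤ a0 + N * (1 + 7 * 2) := by exact_mod_cast ha
    have h3 : 0 ≤ Real.log lam * y := by positivity
    nlinarith
  · rcases hor with h | h
    · exact h
    · by_contra hcon
      have h1 : max 100 (G1 ^ 256) * r < n := not_le.mp hcon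
      have h2 : 100 * r ≤ n := (Nat.mul_le_mul_right _ (le_max_left _ _)).trans h1.le
      have hrp : (0 : ℝ) < r := by exact_mod_cast hr1
      have h3 : (100 : ℝ) ≤ n / r := by
        rw [le_div_iff₀ hrp]
        exact_mod_cast h2
      have h4 : 1 < Real.log (n / r) := by
        rw [Real.lt_log_iff_exp_lt (by positivity)]
        have := Real.exp_one_lt_d9
        linarith
      have h5 : ((63 : ℝ) / 64) ^ N * Real.log n ≤ 1 := by
        have g1 : ((63 : ℝ) / 64) ^ N = Real.exp (N * Real.log (63 / 64)) := by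
          rw [mul_comm, Real.exp_mul, Real.exp_log (by norm_num), Real.rpow_natCast]
        have g2 : Real.log (63 / 64) ≤ -(1 / 64) := by
          have := Real.log_le_sub_one_of_pos (show (0 : ℝ) < 63 / 64 by norm_num)
          linarith
        rw [g1, hexpy, ← Real.exp_add]
        apply Real.exp_le_one_iff.mpr
        have g3 : (N : ℝ) * Real.log (63 / 64) ≤ N * (-(1 / 64)) :=
          mul_le_mul_of_nonneg_left g2 (Nat.cast_nonneg _)
        linarith
      linarith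
  · refine le_trans ?_ hc
    have g1 : lam ^ N = Real.exp (N * Real.log lam) := by
      rw [mul_comm, Real.exp_mul, Real.exp_log hlam0, Real.rpow_natCast]
    rw [g1, hexpy, ← Real.exp_mul]
    have g0 : c1 = Real.exp (Real.log c1) := (Real.exp_log hc1p).symm
    rw [g0, ← Real.exp_sub]
    apply Real.exp_le_exp.mpr
    have g2 : (N : ℝ) * Real.log lam ≤ 65 * y * Real.log lam :=
      mul_le_mul_of_nonneg_right hN2 hloglam
    nlinarith
  · refine (hcard G1 le_rfl (Or.inr rfl)).trans (mul_le_mul_of_nonneg_right ?_ (by positivity))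
    have hs0 : 0 < Real.sqrt n := Real.sqrt_pos.mpr hn0
    have hss : Real.sqrt n * Real.sqrt n = n := Real.mul_self_sqrt hn0.le
    rw [div_le_div_iff₀ hn0 (by positivity)]
    have h1 : B + 2 * (N : ℝ) ≤ 131 * y := by linarith
    nlinarith

end LG45
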