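import Pool.Agent.H45.LLG.Iter

/-! The final amplification. -/

set_option autoImplicit false

namespace LG45
open RC14 RC852 TE852 LL14 Finset Equiv Filter
open scoped InnerProductSpace

section
variable {G : Type*} [Group G] [Fintype G]
variable {V : Type*} [NormedAddCommGroup V] [InnerProductSpace ℂ V] [FiniteDimensional ℂ V]

/-- one irreducible component -/
lemma killW (ρ : G →* (V ≃ₗᵢ[ℂ] V)) (W : Submodule ℂ V) (hW : Irr ρ W) {a : ℕ} (ha : 1 ≤ a)
    {c : ℝ} (hc : 0 < c) (hc1 : c ≤ 1) (x : Fin a → G) (Λ : ℝ) (hΛ : 32 ≤ Λ)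
    (hx : LRk W (fun v => 2 / c * En ρ x v) Λ) (R : ℕ)
    (hd : (Module.finrank ℂ W : ℝ) < Real.exp (Λ * 2 ^ R / 2)) :
    (Nat.card {z : Fin R → Fin 2 → G // ¬ ∀ v ∈ W, 1 * ‖v‖ ^ 2 ≤
      16 / c * (En ρ x v + ∑ i, En ρ (z i) v)} : ℝ) ≤
      R * Real.exp (-(Λ * 2 / 64)) * (Fintype.card G : ℝ) ^ (R * 2) := by
  have ha0 : (0 : ℝ) < a := by exact_mod_cast ha
  have ha1 : (1 : ℝ) ≤ a := by exact_mod_cast ha
  set ρ' := res ρ W hW.2.1 with hρ'
  have hEn : ∀ {ι : Type} [Fintype ι] (y : ι → G) (w : W), En ρ' y w = En ρ y (w : V) := by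
    intro ι _ y w
    unfold En
    apply Finset.sum_congr rfl
    intro i _
    rw [Submodule.coe_norm, Submodule.coe_sub, hρ', res_apply]
  set T := Tq ρ' (lz x) with hTdef
  have hT : T.IsSymmetric := OPS.Tq_symm _ _
  have hE := fun v => LZEN' ha ρ' x v
  obtain ⟨θ, hθ⟩ : ∃ θ, θ = 1 - c / (8 * a) := ⟨_, rfl⟩
  have hca : c / (8 * a) ≤ 1 := by
    rw [div_le_one (by positivity)]; linarith
  have hca0 : 0 < c / (8 * a) := by positivity
  have hθ0 : 0 ≤ θ := by rw [hθ]; linarith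
  have hθ1 : θ ≤ 1 := by rw [hθ]; linarith
  obtain ⟨E, hEs, hE1, hE2, -⟩ := SPECU T hT (fun v => (hE v).1) (fun v => by
    rw [(hE v).2]
    have := RC14.En_nonneg ρ' x v
    have : 0 ≤ En ρ' x v / (4 * a) := by positivity
    linarith) θ hθ0 hθ1
  have hr : rtr E ≤ Real.exp (-Λ) * Module.finrank ℂ W := by
    rw [rtr_proj E hEs]
    have h1 := hx ((LinearMap.range E).map W.subtype) (by
      rintro _ ⟨u, _, rfl⟩
      exact u.2) (by
      rintro _ ⟨_, ⟨v, rfl⟩, rfl⟩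
      have h2 := hE1 v
      rw [(hE (E v)).2] at h2
      have h3 : En ρ' x (E v) / (4 * a) ≤ c / (8 * a) * ‖E v‖ ^ 2 := by
        rw [hθ] at h2; linarith
      rw [div_le_iff₀ (by positivity)] at h3
      have h4 : c / (8 * a) * ‖E v‖ ^ 2 * (4 * a) = c / 2 * ‖E v‖ ^ 2 := by
        field_simp; ring
      rw [h4, hEn] at h3
      have h5 : 2 / c * En ρ x (E v : V) ≤ 2 / c * (c / 2 * ‖E v‖ ^ 2) :=
        mul_le_mul_of_nonneg_left h3 (by positivity)
      have h6 : 2 / c * (c / 2 * ‖E v‖ ^ 2) = ‖E v‖ ^ 2 := by field_simp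
      rw [h6, Submodule.coe_norm] at h5
      exact h5)
    rwa [Submodule.finrank_map_subtype_eq] at h1
  have hgap : ∀ w : W, ‖w - E w‖ ^ 2 ≤ 2 / c * En ρ x (w : V) := by
    intro w
    have h1 := hE2 w
    rw [(hE w).2, hEn] at h1
    have h2 : c / (8 * a) * ‖w - E w‖ ^ 2 ≤ En ρ x (w : V) / (4 * a) := by
      rw [hθ] at h1; linarith
    rw [le_div_iff₀ (by positivity)] at h2
    have h4 : c / (8 * a) * ‖w - E w‖ ^ 2 * (4 * a) = c / 2 * ‖w - E w‖ ^ 2 := by
      field_simp; ring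
    rw [h4] at h2
    have h5 : 2 / c * (c / 2 * ‖w - E w‖ ^ 2) ≤ 2 / c * En ρ x (w : V) :=
      mul_le_mul_of_nonneg_left h2 (by positivity)
    have h6 : 2 / c * (c / 2 * ‖w - E w‖ ^ 2) = ‖w - E w‖ ^ 2 := by field_simp
    linarith
  have h := AMPLR (V := W) ρ' (RC14.AMP1.irr_res ρ W hW) E hEs 2 R (le_refl 2) Λ hΛ hr
  have hm := RC14.card_mono (Z := Fin R → Fin 2 → G)
    (fun z => ¬ ∀ v ∈ W, 1 * ‖v‖ ^ 2 ≤ 16 / c * (En ρ x v + ∑ i, En ρ (z i) v))
    (fun z => ¬ LRk (⊤ : Submodule ℂ W)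
        (fun v => 8 * ‖v - E v‖ ^ 2 + 32 / ((2 : ℕ) : ℝ) * ∑ r, En ρ' (z r) v)
        (Λ * ((2 : ℕ) : ℝ) ^ R / 2)) (by
      intro z hz hcon
      apply hz
      intro v hv
      by_contra hlt
      push Not at hlt
      have hz0 : 0 ≤ ∑ i, En ρ (z i) v := Finset.sum_nonneg fun i _ => RC14.En_nonneg ρ _ v
      have hx0 := RC14.En_nonneg ρ x v
      have hv0 : v ≠ 0 := by
        rintro rfl
        have : 0 ≤ 16 / c * (En ρ x (0 : V) + ∑ i, En ρ (z i) (0 : V)) := by positivity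
        simp at hlt
        linarith
      obtain ⟨w, hw⟩ : ∃ w : W, w = ⟨v, hv⟩ := ⟨_, rfl⟩
      have hwv : (w : V) = v := by rw [hw]
      have hw0 : w ≠ 0 := fun h => hv0 (by rw [← hwv, h]; rfl)
      -- the energy of `w`
      have hΦ : 8 * ‖w - E w‖ ^ 2 + 32 / ((2 : ℕ) : ℝ) * ∑ r, En ρ' (z r) w ≤ ‖w‖ ^ 2 := by
        have e1 := hgap w
        have e3 : ∑ r, En ρ' (z r) w = ∑ r, En ρ (z r) v := by
          refine Finset.sum_congr rfl fun r _ => ?_
          rw [hEn, hwv]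
        rw [hwv] at e1
        have e2 : ‖w‖ = ‖v‖ := by rw [Submodule.coe_norm, hwv]
        rw [e3, e2]
        push_cast
        have e4 : (16 : ℝ) ≤ 16 / c := by
          rw [le_div_iff₀ hc]; linarith
        have e5 : 16 * ∑ i, En ρ (z i) v ≤ 16 / c * ∑ i, En ρ (z i) v :=
          mul_le_mul_of_nonneg_right e4 hz0
        have e6 : 8 * (2 / c * En ρ x v) = 16 / c * En ρ x v := by ring
        rw [mul_add] at hlt
        have e7 : (32 : ℝ) / 2 = 16 := by norm_num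
        rw [e7]
        linarith
      have h1 := hcon (Submodule.span ℂ {w}) le_top (by
        intro u hu
        obtain ⟨t, rfl⟩ := Submodule.mem_span_singleton.1 hu
        have e1 : ∀ {ι : Type} [Fintype ι] (y : ι → G), En ρ' y (t • w) = ‖t‖ ^ 2 * En ρ' y w := by
          intro ι _ y
          unfold En
          rw [Finset.mul_sum]
          refine Finset.sum_congr rfl fun i _ => ?_
          rw [map_smul, ← smul_sub, norm_smul, mul_pow]
        have e2 : t • w - E (t • w) = t • (w - E w) := by rw [map_smul, smul_sub]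
        simp only [e1, e2, norm_smul, mul_pow, ← Finset.mul_sum]
        have e3 : 0 ≤ ‖t‖ ^ 2 := sq_nonneg _
        calc _ = ‖t‖ ^ 2 * (8 * ‖w - E w‖ ^ 2 + 32 / ((2 : ℕ) : ℝ) * ∑ r, En ρ' (z r) w) := by ring
          _ ≤ _ := mul_le_mul_of_nonneg_left hΦ e3)
      rw [finrank_span_singleton hw0, finrank_top] at h1
      have h2 : Real.exp (-(Λ * ((2 : ℕ) : ℝ) ^ R / 2)) * (Module.finrank ℂ W : ℝ) < 1 := by
        push_cast
        calc _ < Real.exp (-(Λ * 2 ^ R / 2)) * Real.exp (Λ * 2 ^ R / 2) :=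
              mul_lt_mul_of_pos_left hd (Real.exp_pos _)
          _ = 1 := by rw [← Real.exp_add]; simp
      push_cast at h1 h2
      linarith)
  refine (Nat.cast_le.mpr hm).trans (h.trans (le_of_eq ?_))
  push_cast
  rfl

end

/-- one level -/
lemma killL (n j a R : ℕ) (hj : 2 * j + 2 ≤ n) (ha : 1 ≤ a) {c : ℝ} (hc : 0 < c) (hc1 : c ≤ 1)
    (x : Fin a → Alt n) (Λ : ℝ) (hΛ : 32 ≤ Λ)
    (hx : ∀ W : Submodule ℂ (RC14.V j n), Irr (repA j n) W → W ≤ Lvl j n →
      LRk W (fun v => 2 / c * En (repA j n) x v) Λ)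
    (hd : (n : ℝ) ^ j < Real.exp (Λ * 2 ^ R / 2)) :
    (Nat.card {z : Fin R → Fin 2 → Alt n // ¬ ∀ v ∈ Lvl j n, 1 * ‖v‖ ^ 2 ≤
      16 / c * (En (repA j n) x v + ∑ i, En (repA j n) (z i) v)} : ℝ) ≤
      Real.exp (3 * Real.sqrt j) * (R * Real.exp (-(Λ * 2 / 64))) *
        (Fintype.card (Alt n) : ℝ) ^ (R * 2) := by
  have h := UBG (repA j n) (Lvl j n) _ (TYPESLVL j n hj)
    (Z := Fin R → Fin 2 → Alt n) (fun z v => 16 / c * (En (repA j n) x v +
      ∑ i, En (repA j n) (z i) v))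
    (fun z => ((IsEn.en (repA j n) x).add (IsEn.sum Finset.univ (fun i => En (repA j n) (z i))
      fun i => IsEn.en (repA j n) (z i))).smul (16 / c) (by positivity)) 1
    (R * Real.exp (-(Λ * 2 / 64)) * (Fintype.card (Alt n) : ℝ) ^ (R * 2))
    (by positivity) ?_
  · refine h.trans ?_
    have := CONJS j
    have h0 : 0 ≤ R * Real.exp (-(Λ * 2 / 64)) *
      (Fintype.card (Alt n) : ℝ) ^ (R * 2) := by positivity
    calc _ ≤ Real.exp (3 * Real.sqrt j) * (R * Real.exp (-(Λ * 2 / 64)) *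
        (Fintype.card (Alt n) : ℝ) ^ (R * 2)) := mul_le_mul_of_nonneg_right this h0
      _ = _ := by ring
  · intro W hW hWL
    refine killW (repA j n) W hW ha hc hc1 x Λ hΛ (hx W hW hWL) R ?_
    refine lt_of_le_of_lt ?_ hd
    exact_mod_cast finrank_le_pow W

/-- the final amplification on the levels `≤ r` -/
theorem KILLF (n r0 r a R : ℕ) (l c : ℝ) (hl : 192 ≤ l) (hn : 16 ≤ n) (ha : 1 ≤ a)
    (h0 : 4 * Real.log n ≤ r0) (hrn : 2 * r + 2 ≤ n) (hc : 0 < c) (hc1 : c ≤ 1)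
    (hR : Real.log n ≤ 2 ^ R) (hRn : R ≤ n) (x : Fin a → Alt n) (hx : St1 n r0 r l c x) :
    (Nat.card {z : Fin (R * 2) → Alt n // ¬ Good1 n r (c / 16) (Fin.append x z)} : ℝ) ≤
      1 / (n : ℝ) * (Fintype.card (Alt n) : ℝ) ^ (R * 2) := by
  set A : ℝ := (Fintype.card (Alt n) : ℝ) with hA
  have hn16 : (16 : ℝ) ≤ n := by exact_mod_cast hn
  have hn0 : (0 : ℝ) < n := by linarith
  have hlogn : 0 < Real.log n := Real.log_pos (by linarith)
  have hA0 : 0 < A := by rw [hA]; exact_mod_cast Fintype.card_pos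
  have hlev : ∀ j ∈ Finset.Ioc r0 r,
      (Nat.card {z : Fin R → Fin 2 → Alt n // ¬ ∀ v ∈ Lvl j n, 1 * ‖v‖ ^ 2 ≤
      16 / c * (En (repA j n) x v + ∑ i, En (repA j n) (z i) v)} : ℝ) ≤
      1 / (n : ℝ) ^ 2 * A ^ (R * 2) := by
    intro j hj
    rw [Finset.mem_Ioc] at hj
    have hj1 : 1 ≤ j := by omega
    have hjR : (1 : ℝ) ≤ j := by exact_mod_cast hj1
    have hjr : (r0 : ℝ) ≤ j := by exact_mod_cast hj.1.le
    have h1 := killL n j a R (by omega) ha hc hc1 x (l * j) (by nlinarith)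
      (hx.2 j hj1 hj.2) (by
        have e1 : (n : ℝ) ^ j = Real.exp (j * Real.log n) := by
          rw [Real.exp_nat_mul, Real.exp_log hn0]
        rw [e1]
        apply Real.exp_lt_exp.2
        have e2 : l * j * 2 ^ R / 2 = j * (l / 2 * 2 ^ R) := by ring
        rw [e2]
        apply mul_lt_mul_of_pos_left _ (by linarith)
        nlinarith)
    refine h1.trans ?_
    refine mul_le_mul_of_nonneg_right ?_ (by positivity)
    have hsq : Real.sqrt j ≤ j := by
      rw [Real.sqrt_le_left (by linarith)]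
      nlinarith
    have hRR : (R : ℝ) ≤ n := by exact_mod_cast hRn
    have e5 : Real.exp (3 * Real.sqrt j) * (R * Real.exp (-(l * j * 2 / 64))) ≤
        Real.exp (3 * j) * (n * Real.exp (-(6 * j))) := by
      refine mul_le_mul (Real.exp_le_exp.2 (by linarith)) ?_ (by positivity) (by positivity)
      refine mul_le_mul hRR (Real.exp_le_exp.2 ?_) (by positivity) (by positivity)
      nlinarith
    refine e5.trans ?_
    have e6 : Real.exp (3 * j) * (n * Real.exp (-(6 * j))) = n * Real.exp (-(3 * j)) := by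
      rw [mul_comm (n : ℝ), ← mul_assoc, ← Real.exp_add, mul_comm]
      congr 2
      ring
    rw [e6]
    have e7 : Real.exp (-(3 * j)) ≤ 1 / (n : ℝ) ^ 3 := by
      have e8 : 1 / (n : ℝ) ^ 3 = Real.exp (-(3 * Real.log n)) := by
        rw [Real.exp_neg, one_div, show (3 : ℝ) * Real.log n = ((3 : ℕ) : ℝ) * Real.log n by
          norm_num, Real.exp_nat_mul, Real.exp_log hn0]
      rw [e8]
      apply Real.exp_le_exp.2
      linarith
    calc (n : ℝ) * Real.exp (-(3 * j)) ≤ n * (1 / (n : ℝ) ^ 3) := by gcongr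
      _ = 1 / (n : ℝ) ^ 2 := by field_simp
  rw [card_equiv (ROUNDHx.unflE n R) (fun z => ¬ Good1 n r (c / 16) (Fin.append x z))
    (fun z => ¬ Good1 n r (c / 16) (Fin.append x ((ROUNDHx.unflE n R).symm z)))
    (fun z => by rw [Equiv.symm_apply_apply])]
  have step : Nat.card {z : Fin R → Fin 2 → Alt n //
      ¬ Good1 n r (c / 16) (Fin.append x ((ROUNDHx.unflE n R).symm z))} ≤
      ∑ j ∈ Finset.Ioc r0 r, Nat.card {z : Fin R → Fin 2 → Alt n // ¬ ∀ v ∈ Lvl j n,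
        1 * ‖v‖ ^ 2 ≤ 16 / c * (En (repA j n) x v + ∑ i, En (repA j n) (z i) v)} := by
    apply RC14.card_union_fin
    intro z hz
    by_contra hcon
    push Not at hcon
    apply hz
    intro j hj1 hj2 v hv
    rw [En_append]
    have hx0 := RC14.En_nonneg (repA j n) x v
    have hz0 := RC14.En_nonneg (repA j n) ((ROUNDHx.unflE n R).symm z) v
    rcases le_or_gt j r0 with h | h
    · have h1 := hx.1 j hj1 h v hv
      have h2 : c / 16 * ‖v‖ ^ 2 ≤ c * ‖v‖ ^ 2 := by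
        apply mul_le_mul_of_nonneg_right _ (sq_nonneg _)
        linarith
      linarith
    · have h1 := hcon j (Finset.mem_Ioc.mpr ⟨h, hj2⟩) v hv
      have h2 : ∑ i, En (repA j n) (z i) v = En (repA j n) ((ROUNDHx.unflE n R).symm z) v := by
        rw [← ROUNDHx.En_unfl]
        have h3 : ROUNDHx.unfl ((ROUNDHx.unflE n R).symm z) = z :=
          (ROUNDHx.unflE n R).apply_symm_apply z
        rw [h3]
      rw [h2] at h1
      have h4 : c / 16 * (1 * ‖v‖ ^ 2) ≤ c / 16 * (16 / c * (En (repA j n) x v +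
          En (repA j n) ((ROUNDHx.unflE n R).symm z) v)) :=
        mul_le_mul_of_nonneg_left h1 (by positivity)
      have h5 : c / 16 * (16 / c * (En (repA j n) x v +
          En (repA j n) ((ROUNDHx.unflE n R).symm z) v)) = En (repA j n) x v +
          En (repA j n) ((ROUNDHx.unflE n R).symm z) v := by field_simp
      linarith
  have hcard : ((Finset.Ioc r0 r).card : ℝ) ≤ n := by
    rw [Nat.card_Ioc]
    exact_mod_cast (show r - r0 ≤ n by omega)
  calc _ ≤ ∑ j ∈ Finset.Ioc r0 r, (Nat.card {z : Fin R → Fin 2 → Alt n // ¬ ∀ v ∈ Lvl j n,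
        1 * ‖v‖ ^ 2 ≤ 16 / c * (En (repA j n) x v + ∑ i, En (repA j n) (z i) v)} : ℝ) := by
        exact_mod_cast step
    _ ≤ ∑ _j ∈ Finset.Ioc r0 r, 1 / (n : ℝ) ^ 2 * A ^ (R * 2) := Finset.sum_le_sum hlev
    _ = ((Finset.Ioc r0 r).card : ℝ) * (1 / (n : ℝ) ^ 2 * A ^ (R * 2)) := by
        rw [Finset.sum_const, nsmul_eq_mul]
    _ ≤ (n : ℝ) * (1 / (n : ℝ) ^ 2 * A ^ (R * 2)) := by gcongr
    _ = 1 / (n : ℝ) * A ^ (R * 2) := by field_simp

/-- combining the rounds and the final amplification -/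
theorem combK (n r0 r a R : ℕ) (l c p : ℝ) (hp : 0 ≤ p) (hl : 192 ≤ l) (hn : 16 ≤ n) (ha : 1 ≤ a)
    (h0 : 4 * Real.log n ≤ r0) (hrn : 2 * r + 2 ≤ n) (hc : 0 < c) (hc1 : c ≤ 1)
    (hR : Real.log n ≤ 2 ^ R) (hRn : R ≤ n)
    (hx : (Nat.card {x : Fin a → Alt n // ¬ St1 n r0 r l c x} : ℝ) ≤
      p * (Fintype.card (Alt n) : ℝ) ^ a) :
    (Nat.card {y : Fin (a + R * 2) → Alt n // ¬ Good1 n r (c / 16) y} : ℝ) ≤
      (p + 1 / (n : ℝ)) * (Fintype.card (Alt n) : ℝ) ^ (a + R * 2) := by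
  set A : ℝ := (Fintype.card (Alt n) : ℝ) with hA
  have hA0 : 0 ≤ A := by rw [hA]; positivity
  rw [ROUNDHx.card_append]
  refine (card_prod_bound (fun x : Fin a → Alt n => St1 n r0 r l c x)
    (fun x w => ¬ Good1 n r (c / 16) (Fin.append x w)) (1 / (n : ℝ))
    (by positivity) (fun x hx => ?_)).trans ?_
  · rw [Fintype.card_fun, Fintype.card_fin]
    push_cast
    exact KILLF n r0 r a R l c hl hn ha h0 hrn hc hc1 hR hRn x hx
  · rw [Fintype.card_fun, Fintype.card_fun, Fintype.card_fin, Fintype.card_fin]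
    push_cast
    rw [← hA]
    calc _ ≤ (p * A ^ a) * A ^ (R * 2) + 1 / (n : ℝ) * A ^ a * A ^ (R * 2) := by
          gcongr
      _ = (p + 1 / (n : ℝ)) * A ^ (a + R * 2) := by rw [pow_add A a]; ring

end LG45
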