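import Pool.Agent.H45.LLG.Tr

/-! The trace on all functions on `r`-tuples is bounded by the traces on the levels. -/

namespace LG45
open RC14 RC852 TE852 LL14 Finset
open scoped InnerProductSpace

variable {j n : ℕ}

theorem ext0_add (f g : RC14.V j n) (φ : Fin j → Fin n) : ext0 (f + g) φ = ext0 f φ + ext0 g φ := by
  by_cases h : Function.Injective φ <;> simp [ext0, h]

theorem ext0_smul (c : ℂ) (f : RC14.V j n) (φ : Fin j → Fin n) : ext0 (c • f) φ = c * ext0 f φ := by
  by_cases h : Function.Injective φ <;> simp [ext0, h]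

theorem ext0_zero (φ : Fin j → Fin n) : ext0 (0 : RC14.V j n) φ = 0 := by
  by_cases h : Function.Injective φ <;> simp [ext0, h]

/-- functions whose marginals over the coordinates in `S` vanish -/
def LvS (j n : ℕ) (S : Finset (Fin j)) : Submodule ℂ (RC14.V j n) where
  carrier := {f | ∀ l ∈ S, ∀ φ : Fin j → Fin n, ∑ y, ext0 f (Function.update φ l y) = 0}
  zero_mem' := by
    intro l _ φ
    exact Finset.sum_eq_zero fun y _ => ext0_zero _
  add_mem' := by
    intro f g hf hg l hl φ
    simp only [ext0_add, Finset.sum_add_distrib, hf l hl φ, hg l hl φ, add_zero]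
  smul_mem' := by
    intro c f hf l hl φ
    simp only [ext0_smul, ← Finset.mul_sum, hf l hl φ, mul_zero]

theorem mem_LvS {S : Finset (Fin j)} {f : RC14.V j n} : f ∈ LvS j n S ↔
    ∀ l ∈ S, ∀ φ : Fin j → Fin n, ∑ y, ext0 f (Function.update φ l y) = 0 := Iff.rfl

theorem LvS_univ : LvS j n Finset.univ = Lvl j n := by
  ext f
  rw [mem_LvS, mem_Lvl]
  exact ⟨fun h φ l => h l (Finset.mem_univ _) φ, fun h l _ φ => h φ l⟩

theorem LvS_empty : LvS j n ∅ = ⊤ := by
  rw [eq_top_iff]
  intro f _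
  rw [mem_LvS]
  intro l hl
  exact absurd hl (Finset.notMem_empty l)

theorem LvS_inv (S : Finset (Fin j)) : Inv (repA j n) (LvS j n S) := by
  intro g f hf
  rw [mem_LvS] at hf ⊢
  intro l hl φ
  rw [← hf l hl (fun t => (g : Equiv.Perm (Fin n))⁻¹ (φ t))]
  refine Fintype.sum_equiv (g : Equiv.Perm (Fin n))⁻¹ _ _ fun y => ?_
  have : repA j n g f = rep j n (g : Equiv.Perm (Fin n)) f := rfl
  rw [this, ext0_rep]
  congr 1
  ext t
  by_cases h : t = l
  · subst h; simp
  · simp [Function.update_of_ne h]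

/-- the marginal over the coordinate `l` -/
noncomputable def mgl (l : Fin (j + 1)) : RC14.V (j + 1) n →ₗ[ℂ] RC14.V j n where
  toFun f := WithLp.toLp 2 fun a => ∑ y, ext0 f (Fin.insertNth (α := fun _ => Fin n) l y a)
  map_add' f g := by
    ext a
    simp only [ext0_add, Finset.sum_add_distrib]
    rfl
  map_smul' c f := by
    ext a
    simp only [ext0_smul, ← Finset.mul_sum]
    rfl

theorem mgl_apply (l : Fin (j + 1)) (f : RC14.V (j + 1) n) (a : Tup j n) :
    mgl l f a = ∑ y, ext0 f (Fin.insertNth (α := fun _ => Fin n) l y a) := rfl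

theorem ext0_mgl (l : Fin (j + 1)) (f : RC14.V (j + 1) n) (ψ : Fin j → Fin n) :
    ext0 (mgl l f) ψ = ∑ y, ext0 f (Fin.insertNth (α := fun _ => Fin n) l y ψ) := by
  by_cases h : Function.Injective ψ
  · have e : ext0 (mgl l f) ψ = mgl l f ⟨ψ, h⟩ := ext0_inj _ ⟨ψ, h⟩
    rw [e, mgl_apply]
    rfl
  · rw [ext0_not _ h]
    symm
    apply Finset.sum_eq_zero
    intro y _
    apply ext0_not
    intro h2
    apply h
    have h3 := h2.comp (Fin.succAbove_right_injective (p := l))
    have h4 : (Fin.insertNth (α := fun _ => Fin n) l y ψ) ∘ l.succAbove = ψ := by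
      funext t
      simp
    rwa [h4] at h3

theorem mgl_rep (l : Fin (j + 1)) (g : Alt n) (f : RC14.V (j + 1) n) :
    mgl l (repA (j + 1) n g f) = repA j n g (mgl l f) := by
  ext a
  rw [mgl_apply, repA_apply, mgl_apply]
  have h0 : repA (j + 1) n g f = rep (j + 1) n (g : Equiv.Perm (Fin n)) f := rfl
  rw [h0]
  refine Fintype.sum_equiv (g : Equiv.Perm (Fin n))⁻¹ _ _ fun y => ?_
  rw [ext0_rep]
  congr 1
  funext t
  refine Fin.succAboveCases l ?_ (fun t => ?_) t
  · simp
  · simp

theorem mgl_Tq {q : ℕ} (l : Fin (j + 1)) (y : Fin q → Alt n) (k : ℕ) (f : RC14.V (j + 1) n) :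
    mgl l ((Tq (repA (j + 1) n) y ^ k) f) = (Tq (repA j n) y ^ k) (mgl l f) := by
  have h1 : ∀ f, mgl l (Tq (repA (j + 1) n) y f) = Tq (repA j n) y (mgl l f) := by
    intro f
    rw [OPS.Tq_apply, OPS.Tq_apply, map_smul, map_sum]
    simp only [mgl_rep]
  induction k generalizing f with
  | zero => simp
  | succ k ih => rw [pow_succ, pow_succ, Module.End.mul_apply, Module.End.mul_apply, ih, h1]

theorem ins_update (l : Fin (j + 1)) (i : Fin j) (y z : Fin n) (ψ : Fin j → Fin n) :
    Fin.insertNth (α := fun _ => Fin n) l y (Function.update ψ i z) =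
      Function.update (Fin.insertNth (α := fun _ => Fin n) l y ψ) (l.succAbove i) z := by
  funext t
  refine Fin.succAboveCases l ?_ (fun t => ?_) t
  · rw [Fin.insertNth_apply_same, Function.update_of_ne (Fin.ne_succAbove l i),
      Fin.insertNth_apply_same]
  · rw [Fin.insertNth_apply_succAbove]
    by_cases h : t = i
    · subst h; simp
    · rw [Function.update_of_ne h, Function.update_of_ne (fun h2 => h (Fin.succAbove_right_injective h2)),
        Fin.insertNth_apply_succAbove]

theorem mgl_mem (l : Fin (j + 1)) (S : Finset (Fin (j + 1))) (f : RC14.V (j + 1) n)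
    (hf : f ∈ LvS (j + 1) n S) :
    mgl l f ∈ LvS j n (Finset.univ.filter fun i => l.succAbove i ∈ S) := by
  rw [mem_LvS] at hf ⊢
  intro i hi ψ
  rw [Finset.mem_filter] at hi
  simp only [ext0_mgl]
  rw [Finset.sum_comm]
  apply Finset.sum_eq_zero
  intro y _
  simp only [ins_update]
  exact hf _ hi.2 _

theorem mgl_ker (l : Fin (j + 1)) (S : Finset (Fin (j + 1))) (f : RC14.V (j + 1) n)
    (hf : f ∈ LvS (j + 1) n S) (h0 : mgl l f = 0) : f ∈ LvS (j + 1) n (insert l S) := by
  rw [mem_LvS] at hf ⊢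
  intro i hi φ
  rw [Finset.mem_insert] at hi
  rcases hi with rfl | hi
  · have h1 := ext0_mgl i f (fun t => φ (i.succAbove t))
    rw [h0, ext0_zero] at h1
    rw [h1]
    refine Finset.sum_congr rfl fun y _ => ?_
    congr 1
    funext t
    refine Fin.succAboveCases i ?_ (fun t => ?_) t
    · simp
    · rw [Function.update_of_ne (Fin.succAbove_ne i t), Fin.insertNth_apply_succAbove]
  · exact hf i hi φ

theorem card_filter_succAbove (l : Fin (j + 1)) (S : Finset (Fin (j + 1))) (hl : l ∉ S) :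
    (Finset.univ.filter fun i => l.succAbove i ∈ S).card = S.card := by
  classical
  have h : (Finset.univ.filter fun i => l.succAbove i ∈ S).map (l.succAboveEmb) = S := by
    ext t
    rw [Finset.mem_map]
    constructor
    · rintro ⟨i, hi, rfl⟩
      exact (Finset.mem_filter.1 hi).2
    · intro ht
      obtain ⟨i, hi⟩ := Fin.exists_succAbove_eq (x := t) (y := l) (fun h => hl (h ▸ ht))
      exact ⟨i, Finset.mem_filter.2 ⟨Finset.mem_univ _, by rw [hi]; exact ht⟩, hi⟩
  conv_rhs => rw [← h]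
  rw [Finset.card_map]

theorem Tq_pow_symm {G : Type*} [Group G] {V : Type*} [NormedAddCommGroup V]
    [InnerProductSpace ℂ V] {q : ℕ} (ρ : G →* (V ≃ₗᵢ[ℂ] V)) (y : Fin q → G) (k : ℕ) :
    (Tq ρ y ^ k).IsSymmetric := by
  intro v w
  exact POWXx.inner_pow (OPS.Tq_symm ρ y) k v w

theorem Tq_pow_pos {G : Type*} [Group G] {V : Type*} [NormedAddCommGroup V]
    [InnerProductSpace ℂ V] {q : ℕ} (ρ : G →* (V ≃ₗᵢ[ℂ] V)) (y : Fin q → G) (M : ℕ) (v : V) :
    0 ≤ (⟪(Tq ρ y ^ (2 * M)) v, v⟫_ℂ).re := by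
  rw [POWXx.inner_pow_two (OPS.Tq_symm ρ y)]
  positivity

theorem pascal (f : ℕ → ℝ) (a b : ℕ) :
    ∑ i ∈ range (b + 1), (b.choose i : ℝ) * f (a + 1 + i) +
      ∑ i ∈ range (b + 1), (b.choose i : ℝ) * f (a + i) =
      ∑ i ∈ range (b + 1 + 1), ((b + 1).choose i : ℝ) * f (a + i) := by
  rw [Finset.sum_range_succ' _ (b + 1)]
  have h1 : ∑ i ∈ range (b + 1), ((b + 1).choose (i + 1) : ℝ) * f (a + (i + 1)) =
      ∑ i ∈ range (b + 1), (b.choose i : ℝ) * f (a + 1 + i) +
      ∑ i ∈ range (b + 1), (b.choose (i + 1) : ℝ) * f (a + (i + 1)) := by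
    rw [← Finset.sum_add_distrib]
    refine Finset.sum_congr rfl fun i _ => ?_
    rw [Nat.choose_succ_succ]
    push_cast
    have : a + (i + 1) = a + 1 + i := by ring
    rw [this]
    ring
  rw [h1]
  have h2 : ∑ i ∈ range (b + 1), (b.choose (i + 1) : ℝ) * f (a + (i + 1)) =
      ∑ i ∈ range b, (b.choose (i + 1) : ℝ) * f (a + (i + 1)) := by
    rw [Finset.sum_range_succ]
    simp
  have h3 : ∑ i ∈ range (b + 1), (b.choose i : ℝ) * f (a + i) =
      ∑ i ∈ range b, (b.choose (i + 1) : ℝ) * f (a + (i + 1)) + (b.choose 0 : ℝ) * f (a + 0) := by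
    rw [Finset.sum_range_succ']
  rw [h2, h3]
  simp
  ring

/-- recursion over the coordinates -/
theorem lev_rec {q : ℕ} (y : Fin q → Alt n) (M : ℕ) (b : ℕ) : ∀ (j : ℕ) (S : Finset (Fin j)),
    S.card + b = j → tre (Tq (repA j n) y ^ (2 * M)) (LvS j n S) ≤
      ∑ i ∈ range (b + 1), (b.choose i : ℝ) *
        tre (Tq (repA (S.card + i) n) y ^ (2 * M)) (Lvl (S.card + i) n) := by
  classical
  obtain ⟨f, hf⟩ : ∃ f : ℕ → ℝ, f = fun i => tre (Tq (repA i n) y ^ (2 * M)) (Lvl i n) := ⟨_, rfl⟩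
  have hf' : ∀ i, tre (Tq (repA i n) y ^ (2 * M)) (Lvl i n) = f i := fun i => by rw [hf]
  simp only [hf']
  induction b with
  | zero =>
    intro j S hS
    have hS2 : S.card = j := by omega
    have hS' : S = Finset.univ := by
      apply Finset.eq_univ_of_card
      rw [hS2, Fintype.card_fin]
    simp only [zero_add, Finset.sum_range_one, Nat.choose_zero_right, Nat.cast_one, one_mul,
      add_zero]
    rw [hS2, ← hf', hS', LvS_univ]
  | succ b ih =>
    intro j S hS
    obtain ⟨j', rfl⟩ : ∃ j', j = j' + 1 := ⟨S.card + b, by omega⟩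
    have hex : ∃ l, l ∉ S := by
      by_contra hcon
      push Not at hcon
      have : S = Finset.univ := Finset.eq_univ_iff_forall.2 hcon
      rw [this, Finset.card_univ, Fintype.card_fin] at hS
      omega
    obtain ⟨l, hl⟩ := hex
    have h1 := ih (j' + 1) (insert l S) (by rw [Finset.card_insert_of_notMem hl]; omega)
    have h2 := ih j' (Finset.univ.filter fun i => l.succAbove i ∈ S)
      (by rw [card_filter_succAbove l S hl]; omega)
    rw [Finset.card_insert_of_notMem hl] at h1
    rw [card_filter_succAbove l S hl] at h2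
    have h3 := tre_map (Tq (repA (j' + 1) n) y ^ (2 * M)) (Tq_pow_symm _ y _)
      (Tq (repA j' n) y ^ (2 * M)) (Tq_pow_pos _ y M) (mgl l) (mgl_Tq l y (2 * M))
      (LvS (j' + 1) n S) (Tq_pow_inv _ y _ (LvS_inv S) _) (LvS (j' + 1) n (insert l S))
      (by
        intro f hf
        rw [mem_LvS] at hf ⊢
        exact fun i hi => hf i (Finset.mem_insert_of_mem hi))
      (mgl_ker l S) (Tq_pow_inv _ y _ (LvS_inv _) _)
      (LvS j' n (Finset.univ.filter fun i => l.succAbove i ∈ S)) (mgl_mem l S)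
    rw [← pascal]
    linarith

/-- the trace on all functions on `r`-tuples -/
theorem lev_top {q : ℕ} (y : Fin q → Alt n) (M r : ℕ) :
    rtr (Tq (repA r n) y ^ (2 * M)) ≤ ∑ i ∈ range (r + 1), (r.choose i : ℝ) *
        tre (Tq (repA i n) y ^ (2 * M)) (Lvl i n) := by
  have h := lev_rec y M r r ∅ (by simp)
  rw [LvS_empty, tre_top] at h
  refine h.trans (le_of_eq (Finset.sum_congr rfl fun i _ => ?_))
  have e : ∀ k, k = i → tre (Tq (repA k n) y ^ (2 * M)) (Lvl k n) =
      tre (Tq (repA i n) y ^ (2 * M)) (Lvl i n) := by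
    rintro k rfl; rfl
  rw [e _ (by simp)]

/-- the trace on all functions on `r`-tuples for the words in `x` -/
theorem lev_pw {a : ℕ} (ha : 1 ≤ a) {c : ℝ} (hc : 0 < c) (hc1 : c ≤ 1) (x : Fin a → Alt n)
    (r : ℕ) (l : ℝ) (h : GLR n r l c x) (M : ℕ) :
    rtr (Tq (repA r n) (lz (pw x c)) ^ (2 * M)) ≤
      (1 + n * Real.exp (-l)) ^ r + Real.exp (-(M / 2)) * (1 + n) ^ r := by
  refine (lev_top _ M r).trans ?_
  have hC := pc_pos ha c
  have key : ∀ i ≤ r, tre (Tq (repA i n) (lz (pw x c)) ^ (2 * M)) (Lvl i n) ≤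
      (Real.exp (-l) ^ i + Real.exp (-(M / 2))) * (n : ℝ) ^ i := by
    intro i hi
    have hfr : (Module.finrank ℂ (Lvl i n) : ℝ) ≤ (n : ℝ) ^ i := by
      exact_mod_cast finrank_le_pow (Lvl i n)
    have hnn : 0 ≤ Real.exp (-l) ^ i + Real.exp (-(M / 2)) := by positivity
    refine le_trans ?_ (mul_le_mul_of_nonneg_left hfr hnn)
    rcases Nat.eq_zero_or_pos i with h0 | h0
    · subst h0
      have h1 := tre_le (Tq (repA 0 n) (lz (pw x c)) ^ (2 * M)) (fun v => by
        rw [POWXx.inner_pow_two (OPS.Tq_symm _ _)]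
        have h2 := OPS.pow_norm (T := Tq (repA 0 n) (lz (pw x c)))
          (fun u => OPS.Tq_norm (by omega) (repA 0 n) (lz (pw x c)) u) M v
        exact pow_le_pow_left₀ (norm_nonneg _) h2 2) (Lvl 0 n)
      refine h1.trans ?_
      have h3 : 0 ≤ Real.exp (-(M / 2 : ℝ)) := (Real.exp_pos _).le
      have h4 : (0 : ℝ) ≤ Module.finrank ℂ (Lvl 0 n) := by positivity
      rw [pow_zero]
      nlinarith
    · refine tre_irr (repA i n) _ _ _ (Lvl i n) (Lvl_inv i n) le_rfl ?_
      intro W hW hWL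
      rw [tre_res (repA i n) _ W hW.2.1]
      have h1 := h i h0 hi W hW hWL
      have h2 : LRk (⊤ : Submodule ℂ W) (fun v => 2 / c * En (res (repA i n) W hW.2.1) x v)
          (l * i) := by
        intro U _ hU
        have h3 := h1 (U.map W.subtype) (by
          rintro _ ⟨u, _, rfl⟩
          exact u.2) (by
          rintro _ ⟨u, hu, rfl⟩
          have h4 := hU u hu
          have h5 : En (res (repA i n) W hW.2.1) x u = En (repA i n) x (u : RC14.V i n) := by
            unfold En
            apply Finset.sum_congr rfl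
            intro t _
            rw [Submodule.coe_norm, Submodule.coe_sub, res_apply]
          simp only [h5, Submodule.coe_norm] at h4
          exact h4)
        have h6 : Module.finrank ℂ (U.map W.subtype) = Module.finrank ℂ U :=
          Submodule.finrank_map_subtype_eq W U
        rw [h6] at h3
        rw [finrank_top]
        exact h3
      have h7 := rtr_pw ha hc hc1 (res (repA i n) W hW.2.1) x (l * i) h2 M
      refine h7.trans (le_of_eq ?_)
      congr 2
      rw [← Real.exp_nat_mul]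
      congr 1
      ring
  calc ∑ i ∈ range (r + 1), (r.choose i : ℝ) *
        tre (Tq (repA i n) (lz (pw x c)) ^ (2 * M)) (Lvl i n)
      ≤ ∑ i ∈ range (r + 1), (r.choose i : ℝ) *
        ((Real.exp (-l) ^ i + Real.exp (-(M / 2))) * (n : ℝ) ^ i) := by
        refine Finset.sum_le_sum fun i hi => ?_
        exact mul_le_mul_of_nonneg_left (key i (by have := Finset.mem_range.1 hi; omega))
          (Nat.cast_nonneg _)
    _ = ∑ i ∈ range (r + 1), (n * Real.exp (-l)) ^ i * 1 ^ (r - i) * (r.choose i : ℝ) +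
        Real.exp (-(M / 2)) * ∑ i ∈ range (r + 1), (n : ℝ) ^ i * 1 ^ (r - i) * (r.choose i : ℝ) := by
        rw [Finset.mul_sum, ← Finset.sum_add_distrib]
        refine Finset.sum_congr rfl fun i _ => ?_
        rw [mul_pow]
        ring
    _ = _ := by
        rw [← add_pow, ← add_pow, add_comm (n * Real.exp (-l) : ℝ) 1, add_comm (n : ℝ) 1]

end LG45
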