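import Pool.Agent.H45.LLG.Kill
import Pool.Graph.R_seed8.H14R2.LL.MAINH

/-! The main theorem: `C log log n` random elements of `A_n` have gap at least `(log n)^{-C}`. -/

set_option autoImplicit false

namespace LG45
open RC14 RC852 TE852 LL14 Finset Equiv Filter

/-- main theorem: `C log log n` random elements of `A_n` have gap at least `(log n)^{-C}` -/
theorem MAINF : ∃ C : ℝ, 0 < C ∧ ∀ᶠ n : ℕ in atTop, ∀ k : ℕ,
    C * Real.log (Real.log n) ≤ k →
    (Nat.card {x : Fin k → Alt n // ¬ Expanding ((Real.log n) ^ (-C)) x} : ℝ) ≤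
      2 / Real.sqrt n * (Fintype.card (Alt n) : ℝ) ^ k := by
  obtain ⟨D1, hD, l, hl, C0, hC0, hit⟩ := ITERF
  obtain ⟨A, hA, hfin⟩ := FINH D1 hD
  have hlA : 0 ≤ Real.log A := Real.log_nonneg hA
  set C : ℝ := C0 + 8 * Real.log A + 12 with hC
  have hCpos : 0 < C := by positivity
  refine ⟨C, hCpos, ?_⟩
  have t2 : Tendsto (fun n : ℕ => (n : ℝ)) atTop atTop := tendsto_natCast_atTop_atTop
  have t1 : Tendsto (fun n : ℕ => Real.log (n : ℝ)) atTop atTop :=
    Real.tendsto_log_atTop.comp t2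
  have t3 : Tendsto (fun n : ℕ => Real.log (Real.log (n : ℝ))) atTop atTop :=
    Real.tendsto_log_atTop.comp t1
  have p1 : ∀ᶠ y : ℝ in atTop, (Real.log y) ^ 2 ≤ y := by
    have h := (isLittleO_log_rpow_atTop (show (0 : ℝ) < 1 / 2 by norm_num)).bound
      (show (0 : ℝ) < 1 by norm_num)
    filter_upwards [h, eventually_ge_atTop 1] with y hy hy1
    have h0 : 0 ≤ Real.log y := Real.log_nonneg hy1
    rw [Real.norm_of_nonneg h0, Real.norm_of_nonneg (by positivity), one_mul] at hy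
    calc (Real.log y) ^ 2 ≤ (y ^ (1 / 2 : ℝ)) ^ 2 := pow_le_pow_left₀ h0 hy 2
      _ = y := by
          rw [← Real.sqrt_eq_rpow, Real.sq_sqrt (by linarith)]
  have p2 : ∀ᶠ n : ℕ in atTop, 4 * Real.log n ≤ Rr (1 / 2) n := by
    have h : ∀ᶠ y : ℝ in atTop, 8 * Real.log y ≤ y ^ (1 / 2 : ℝ) := by
      have h := (isLittleO_log_rpow_atTop (show (0 : ℝ) < 1 / 2 by norm_num)).bound
        (show (0 : ℝ) < 1 / 8 by norm_num)
      filter_upwards [h, eventually_ge_atTop 1] with y hy hy1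
      have h0 : 0 ≤ Real.log y := Real.log_nonneg hy1
      rw [Real.norm_of_nonneg h0, Real.norm_of_nonneg (by positivity)] at hy
      linarith
    filter_upwards [t2.eventually h, t2.eventually_ge_atTop 4] with n h1 h2
    have h3 : (2 : ℝ) ≤ (n : ℝ) ^ (1 / 2 : ℝ) := by
      rw [← Real.sqrt_eq_rpow]
      exact Real.le_sqrt_of_sq_le (by linarith)
    have h4 := Nat.lt_floor_add_one ((n : ℝ) ^ (1 / 2 : ℝ))
    unfold Rr
    linarith
  filter_upwards [hit, hfin, t3.eventually_ge_atTop 1, t1.eventually p1, t2.eventually p1,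
    t1.eventually_ge_atTop (9600 * C), t2.eventually_ge_atTop 64, p2] with
    n hit hfin hLL hq1 hq2 hl' hn4 hr0
  intro k hk
  obtain ⟨a, r, c, ha, haC, hDr, h2r, hc, hc1, hcC, hbad⟩ := hit
  set ℓ := Real.log (n : ℝ) with hℓ
  set lam := Real.log ℓ with hlam
  have hn0 : (0 : ℝ) < n := by linarith
  have hC6 : 12 ≤ C := by rw [hC]; linarith
  have hℓ1 : 3600 ≤ ℓ := by linarith
  have hAl : 1 ≤ A * ℓ := by nlinarith
  have hlog2 : 1 / 2 ≤ Real.log 2 := by linarith [Real.log_two_gt_d9]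
  set R : ℕ := ⌈Real.logb 2 (A * ℓ)⌉₊ with hR
  have hR1 : A * ℓ ≤ 2 ^ R := by
    have h := Nat.le_ceil (Real.logb 2 (A * ℓ))
    rw [← hR] at h
    rw [Real.logb_le_iff_le_rpow (by norm_num) (by linarith)] at h
    rwa [Real.rpow_natCast] at h
  have hR1' : ℓ ≤ 2 ^ R := by
    refine le_trans ?_ hR1
    nlinarith
  have hR2 : (R : ℝ) ≤ 2 * (Real.log A + lam) + 1 := by
    have h := Nat.ceil_lt_add_one (Real.logb_nonneg (show (1 : ℝ) < 2 by norm_num) hAl)
    rw [← hR] at h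
    have h2 : Real.logb 2 (A * ℓ) ≤ 2 * (Real.log A + lam) := by
      rw [Real.logb, Real.log_mul (by linarith) (by linarith), div_le_iff₀ (by linarith)]
      have : 0 ≤ Real.log A + lam := by linarith
      nlinarith
    linarith
  set kn : ℕ := a + R * 2 + R * 2 with hkn
  have hkn1 : (kn : ℝ) ≤ C * lam := by
    rw [hkn]
    push_cast
    have h7 : Real.log A * 1 ≤ Real.log A * lam := by gcongr
    rw [hC]
    nlinarith
  have hknk : kn ≤ k := by
    have : (kn : ℝ) ≤ k := hkn1.trans hk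
    exact_mod_cast this
  have hlamℓ : lam ≤ ℓ := by
    have h1 : lam ≤ lam ^ 2 := by nlinarith
    exact h1.trans hq1
  have hkn2 : (kn : ℝ) ≤ C * ℓ := hkn1.trans (by gcongr)
  have hRn : R ≤ n := by
    have h5 : (R : ℝ) ≤ n := by
      calc (R : ℝ) ≤ kn := by rw [hkn]; push_cast; nlinarith
        _ ≤ C * ℓ := hkn2
        _ ≤ ℓ * ℓ := by
            have : C ≤ ℓ := by linarith
            gcongr
        _ = ℓ ^ 2 := by ring
        _ ≤ n := hq2
    exact_mod_cast h5
  have hs0 : 0 < Real.sqrt n := Real.sqrt_pos.mpr hn0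
  have hs2 : 8 ≤ Real.sqrt n := Real.le_sqrt_of_sq_le (by linarith)
  have key0 := combK n (Rr (1 / 2) n) r a R l c (1 / (4 * Real.sqrt n)) (by positivity) hl
    (by have : (16 : ℝ) ≤ n := by linarith
        exact_mod_cast this) ha hr0 h2r hc hc1 hR1' hRn hbad
  have hc16 : 0 < c / 16 := by positivity
  have hc161 : c / 16 ≤ 1 := by linarith
  have key := MAINHx.comb2 n r R (a + R * 2) (c / 16) hc16 hc161 (by omega)
    (1 / (4 * Real.sqrt n) + 1 / n) (1 / n) (by positivity)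
    key0 (fun x hx => hfin r R hDr h2r hR1 hRn (a + R * 2) (by omega) (c / 16) hc16 hc161 x hx)
  rw [← hkn] at key
  have hkn0 : 1 ≤ kn := by omega
  have hkn0' : (1 : ℝ) ≤ kn := by exact_mod_cast hkn0
  have hp : 1 / (4 * Real.sqrt n) + 1 / n + 1 / n ≤ 1 / Real.sqrt n := by
    have h5 : 1 / (n : ℝ) ≤ 1 / (4 * Real.sqrt n) := by
      apply one_div_le_one_div_of_le (by positivity)
      calc 4 * Real.sqrt n ≤ Real.sqrt n * Real.sqrt n := by
            apply mul_le_mul_of_nonneg_right _ hs0.le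
            linarith
        _ = n := Real.mul_self_sqrt hn0.le
    calc 1 / (4 * Real.sqrt n) + 1 / n + 1 / n ≤
        1 / (4 * Real.sqrt n) + 1 / (4 * Real.sqrt n) + 1 / (4 * Real.sqrt n) := by
          linarith
      _ ≤ 1 / Real.sqrt n := by
          have : 1 / (4 * Real.sqrt n) = (1 / 4) * (1 / Real.sqrt n) := by
            field_simp
          rw [this]
          have : 0 < 1 / Real.sqrt n := by positivity
          linarith
  have h6 := BLOCKS kn k hkn0 hknk (c / 16 / 75 / (2 * (kn : ℕ))) (1 / Real.sqrt n) (by positivity)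
    (by positivity) (key.trans (by gcongr))
  have h7 : (Nat.card {x : Fin k → Alt n // ¬ Expanding (ℓ ^ (-C)) x} : ℝ) ≤
      2 * (1 / Real.sqrt n) * (Fintype.card (Alt n) : ℝ) ^ k := by
    refine le_trans ?_ h6
    refine Nat.cast_le.mpr (card_mono _ _ fun x hx hcon => hx (hcon.mono ?_))
    have hℓ0 : 0 < ℓ := by linarith
    have e1 : ℓ ^ (-C) ≤ ℓ ^ (-C0) * ℓ ^ (-2 : ℝ) := by
      rw [← Real.rpow_add hℓ0]
      apply Real.rpow_le_rpow_of_exponent_le (by linarith)
      rw [hC]; linarith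
    have e2 : ℓ ^ (-2 : ℝ) = 1 / (ℓ * ℓ) := by
      rw [Real.rpow_neg hℓ0.le, Real.rpow_two, one_div, sq]
    have e3 : 9600 * (kn : ℝ) ≤ ℓ * ℓ := by
      calc 9600 * (kn : ℝ) ≤ 9600 * (C * ℓ) := by gcongr
        _ = (9600 * C) * ℓ := by ring
        _ ≤ ℓ * ℓ := by gcongr
    calc ℓ ^ (-C) ≤ ℓ ^ (-C0) * ℓ ^ (-2 : ℝ) := e1
      _ = ℓ ^ (-C0) * (1 / (ℓ * ℓ)) := by rw [e2]
      _ ≤ c * (1 / (9600 * kn)) := by
          gcongr
      _ = c / 16 / 75 / (2 * (kn : ℕ)) / 4 := by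
          field_simp
          norm_num
  have e : (2 : ℝ) / Real.sqrt n = 2 * (1 / Real.sqrt n) := by ring
  rw [e]
  exact h7

end LG45
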