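import Pool.Agent.H45.LLG.Lev

/-! Few words have many fixed points. -/

namespace LG45
open RC14 RC852 TE852 LL14 Finset Equiv
open scoped InnerProductSpace

/-- number of fixed tuples -/
theorem card_fixed {r n : ℕ} (g : Perm (Fin n)) :
    #{a : Tup r n | mv g a = a} = (nfix g).descFactorial r := by
  classical
  have h1 : Fintype.card (Fin r ↪ {p : Fin n // g p = p}) = (nfix g).descFactorial r := by
    rw [Fintype.card_embedding_eq, Fintype.card_fin, Fintype.card_subtype]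
    rfl
  rw [← h1, ← Fintype.card_subtype]
  refine Fintype.card_congr ⟨fun a => ⟨fun i => ⟨a.1 i, DFunLike.congr_fun a.2 i⟩, fun i k h =>
      a.1.injective (congrArg Subtype.val h)⟩,
    fun b => ⟨⟨fun i => (b i : Fin n), fun i k h => b.injective (Subtype.ext h)⟩, ?_⟩,
    fun a => ?_, fun b => ?_⟩
  · ext i
    exact congrArg Fin.val (b i).2
  · rfl
  · rfl

/-- powers of the walk operator -/
theorem Tq_pow_words {G : Type*} [Group G] {V : Type*} [NormedAddCommGroup V]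
    [InnerProductSpace ℂ V] {q : ℕ} (hq : 1 ≤ q) (ρ : G →* (V ≃ₗᵢ[ℂ] V)) (y : Fin q → G) (m : ℕ) :
    ∑ w : Fin m → Fin q × Bool, op ρ (wrd y w) =
      (Fintype.card (Fin m → Fin q × Bool) : ℂ) • (Tq ρ y ^ m) := by
  classical
  have hq0 : (0 : ℝ) < q := by exact_mod_cast hq
  set κ : ℝ := 1 / (2 * q) with hκ
  have hT : Tq ρ y = ∑ p : Fin q × Bool, (κ : ℂ) • op ρ (sl y p) := by
    unfold Tq
    rw [Finset.smul_sum]
    refine Finset.sum_congr rfl fun p _ => ?_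
    rw [hκ]
    push_cast
    rfl
  have hP : Tq ρ y ^ m = ∑ w : Fin m → Fin q × Bool,
      ((κ ^ m : ℝ) : ℂ) • op ρ (wrd y w) := by
    rw [hT, SFTRH.sum_pow_op ρ (fun p => sl y p) (fun _ => κ) m]
    refine Finset.sum_congr rfl fun w _ => ?_
    rw [Finset.prod_const, Finset.card_univ, Fintype.card_fin]
    rfl
  have hcard : (Fintype.card (Fin m → Fin q × Bool) : ℝ) * κ ^ m = 1 := by
    rw [Fintype.card_fun, Fintype.card_prod, Fintype.card_fin, Fintype.card_bool,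
      Fintype.card_fin]
    push_cast
    rw [← mul_pow, hκ]
    have : (q : ℝ) * 2 * (1 / (2 * q)) = 1 := by field_simp
    rw [this, one_pow]
  rw [hP, ← Finset.smul_sum, smul_smul]
  have h1 : (Fintype.card (Fin m → Fin q × Bool) : ℂ) * ((κ ^ m : ℝ) : ℂ) = 1 := by
    have := congrArg (fun t : ℝ => (t : ℂ)) hcard
    simpa using this
  rw [h1, one_smul]

/-- the average number of words which fix a tuple, after multiplication by `u` -/
theorem sum_fixed_le {n q : ℕ} (hq : 1 ≤ q) (y : Fin q → Alt n) (M r : ℕ) (u : Perm (Fin n)) :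
    ∑ k, ((nfix (gx y M k * u)).descFactorial r : ℝ) ≤
      Fintype.card (Fin (2 * M) → Fin q × Bool) * rtr (Tq (repA r n) y ^ (2 * M)) := by
  classical
  set T := Tq (repA r n) y with hT
  have hTs : T.IsSymmetric := OPS.Tq_symm _ _
  have hdl : ∀ a b : Tup r n, (⟪CHAR.dl a, CHAR.dl b⟫_ℂ).re = if a = b then (1 : ℝ) else 0 := by
    intro a b
    unfold CHAR.dl
    rw [EuclideanSpace.inner_single_left]
    simp only [PiLp.single_apply, map_one, one_mul]
    split_ifs with h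
    · simp
    · simp
  have h1 : ∀ k, ((nfix (gx y M k * u)).descFactorial r : ℝ) =
      ∑ a : Tup r n, (⟪op (repA r n) (wrd y k) (CHAR.dl (mv u a)), CHAR.dl a⟫_ℂ).re := by
    intro k
    rw [← card_fixed, Finset.card_filter]
    push_cast
    refine Finset.sum_congr rfl fun a _ => ?_
    rw [op_apply, CHAR.rep_dl, hdl, ← mv_mul]
    rfl
  simp only [h1]
  rw [Finset.sum_comm]
  have h2 : ∀ a : Tup r n, ∑ k : Fin (2 * M) → Fin q × Bool,
      (⟪op (repA r n) (wrd y k) (CHAR.dl (mv u a)), CHAR.dl a⟫_ℂ).re =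
      Fintype.card (Fin (2 * M) → Fin q × Bool) *
        (⟪(T ^ (2 * M)) (CHAR.dl (mv u a)), CHAR.dl a⟫_ℂ).re := by
    intro a
    rw [← Complex.re_sum, ← sum_inner, ← LinearMap.sum_apply, Tq_pow_words hq, LinearMap.smul_apply,
      inner_smul_left]
    rw [Complex.conj_natCast, ← Complex.ofReal_natCast, Complex.re_ofReal_mul]
  simp only [h2]
  rw [← Finset.mul_sum]
  apply mul_le_mul_of_nonneg_left _ (Nat.cast_nonneg _)
  have h3 : ∀ a : Tup r n, (⟪(T ^ (2 * M)) (CHAR.dl (mv u a)), CHAR.dl a⟫_ℂ).re ≤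
      (‖(T ^ M) (CHAR.dl (mv u a))‖ ^ 2 + ‖(T ^ M) (CHAR.dl a)‖ ^ 2) / 2 := by
    intro a
    have e1 : ⟪(T ^ (2 * M)) (CHAR.dl (mv u a)), CHAR.dl a⟫_ℂ =
        ⟪(T ^ M) (CHAR.dl (mv u a)), (T ^ M) (CHAR.dl a)⟫_ℂ := by
      rw [two_mul, pow_add, Module.End.mul_apply, POWXx.inner_pow hTs]
    rw [e1]
    have e2 := (Complex.re_le_norm _).trans
      (norm_inner_le_norm (𝕜 := ℂ) ((T ^ M) (CHAR.dl (mv u a))) ((T ^ M) (CHAR.dl a)))
    nlinarith [sq_nonneg (‖(T ^ M) (CHAR.dl (mv u a))‖ - ‖(T ^ M) (CHAR.dl a)‖)]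
  have h4 : ∑ a : Tup r n, ‖(T ^ M) (CHAR.dl (mv u a))‖ ^ 2 =
      ∑ a : Tup r n, ‖(T ^ M) (CHAR.dl a)‖ ^ 2 :=
    Equiv.sum_comp (mvE u) (fun a => ‖(T ^ M) (CHAR.dl a)‖ ^ 2)
  have h5 : rtr (T ^ (2 * M)) = ∑ a : Tup r n, ‖(T ^ M) (CHAR.dl a)‖ ^ 2 := by
    unfold rtr
    rw [LinearMap.trace_eq_sum_inner _ (EuclideanSpace.basisFun (Tup r n) ℂ), Complex.re_sum]
    refine Finset.sum_congr rfl fun a _ => ?_
    have h3 : EuclideanSpace.basisFun (Tup r n) ℂ a = CHAR.dl a := by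
      simp [CHAR.dl]
    rw [h3, ← inner_conj_symm, Complex.conj_re, POWXx.inner_pow_two hTs]
  rw [h5]
  calc ∑ a : Tup r n, (⟪(T ^ (2 * M)) (CHAR.dl (mv u a)), CHAR.dl a⟫_ℂ).re
      ≤ ∑ a : Tup r n, (‖(T ^ M) (CHAR.dl (mv u a))‖ ^ 2 + ‖(T ^ M) (CHAR.dl a)‖ ^ 2) / 2 :=
        Finset.sum_le_sum fun a _ => h3 a
    _ = ∑ a : Tup r n, ‖(T ^ M) (CHAR.dl a)‖ ^ 2 := by
        rw [← Finset.sum_div, Finset.sum_add_distrib, h4]
        ring

/-- few words have many fixed points -/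
theorem fmix_of_trace {n q : ℕ} (hq : 1 ≤ q) (y : Fin q → Alt n) (M r D : ℕ) (u : Perm (Fin n)) :
    (#{k | D ≤ nfix (gx y M k * u)} : ℝ) * D.descFactorial r ≤
      Fintype.card (Fin (2 * M) → Fin q × Bool) * rtr (Tq (repA r n) y ^ (2 * M)) := by
  classical
  refine le_trans ?_ (sum_fixed_le hq y M r u)
  rw [← nsmul_eq_mul, ← Finset.sum_const]
  refine le_trans (b := ∑ k ∈ univ.filter (fun k => D ≤ nfix (gx y M k * u)),
    ((nfix (gx y M k * u)).descFactorial r : ℝ)) ?_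
    (Finset.sum_le_sum_of_subset_of_nonneg (Finset.subset_univ _) fun _ _ _ => Nat.cast_nonneg _)
  refine Finset.sum_le_sum fun k hk => ?_
  have h1 := (Finset.mem_filter.1 hk).2
  exact_mod_cast Nat.descFactorial_le r h1

end LG45
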