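import Pool.Agent.H45.LLG.Iso

/-! Words of a suitable length: constant normalised gap outside a space of low relative dimension. -/

namespace LG45
open RC14 RC852 TE852 LL14 Finset
open scoped InnerProductSpace

/-- half of the length of the words -/
noncomputable def pm (a : ℕ) (c : ℝ) : ℕ := ⌈4 * (a : ℝ) / c⌉₊

/-- the number of the words -/
noncomputable def pc (a : ℕ) (c : ℝ) : ℕ :=
  Fintype.card (Fin (2 * pm a c) → Fin (a + a) × Bool)

/-- the family of the words -/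
noncomputable def pw {G : Type*} [Group G] {a : ℕ} (x : Fin a → G) (c : ℝ) : Fin (pc a c) → G :=
  fun i => wrd (lz x) ((Fintype.equivFin (Fin (2 * pm a c) → Fin (a + a) × Bool)).symm i)

theorem pc_pos {a : ℕ} (ha : 1 ≤ a) (c : ℝ) : 1 ≤ pc a c := by
  have : Nonempty (Fin (2 * pm a c) → Fin (a + a) × Bool) := ⟨fun _ => (⟨0, by omega⟩, true)⟩
  exact Fintype.card_pos

variable {G : Type*} [Group G]
variable {V : Type*} [NormedAddCommGroup V] [InnerProductSpace ℂ V]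

open POWXx in
/-- the energy of the family of words -/
theorem En_pw {a : ℕ} (ha : 1 ≤ a) {c : ℝ} (hc : 0 < c) (hc1 : c ≤ 1)
    (ρ : G →* (V ≃ₗᵢ[ℂ] V)) (x : Fin a → G) (v : V) :
    1 / (pc a c : ℝ) * En ρ (pw x c) v ≤ 8 / c * En ρ x v := by
  have ha0 : (0 : ℝ) < a := by exact_mod_cast ha
  have ha1 : (1 : ℝ) ≤ a := by exact_mod_cast ha
  have hC0 : (0 : ℝ) < (pc a c : ℝ) := by exact_mod_cast pc_pos ha c
  have h2 : 1 ≤ 4 * (a : ℝ) / c := by
    rw [le_div_iff₀ hc]; linarith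
  have hm2 : (pm a c : ℝ) ≤ 8 * a / c := by
    have e1 := (Nat.ceil_lt_add_one (by positivity : 0 ≤ 4 * (a : ℝ) / c)).le
    have e2 : 8 * (a : ℝ) / c = 4 * a / c + 4 * a / c := by ring
    rw [e2]
    unfold pm
    linarith
  set m := pm a c with hm
  set e := (Fintype.equivFin (Fin (2 * m) → Fin (a + a) × Bool)).symm with he
  have hE : En ρ (pw x c) v = En ρ (fun w : Fin (2 * m) → Fin (a + a) × Bool => wrd (lz x) w) v := by
    unfold En pw
    exact e.sum_comp fun w => ‖ρ (wrd (lz x) w) v - v‖ ^ 2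
  rw [hE, En_words (by omega) ρ (lz x) m v]
  have hT : (Tq ρ (lz x)).IsSymmetric := OPS.Tq_symm _ _
  have h3 := OPS.sq_pow hT (fun u => OPS.Tq_norm (by omega) ρ (lz x) u) m v
  rw [(LZEN' ha ρ x v).2] at h3
  have hCC : (Fintype.card (Fin (2 * m) → Fin (a + a) × Bool) : ℝ) = (pc a c : ℝ) := rfl
  rw [hCC]
  have h4 : 1 / (pc a c : ℝ) * (2 * (pc a c : ℝ) * (‖v‖ ^ 2 - ‖(Tq ρ (lz x) ^ m) v‖ ^ 2)) =
      2 * (‖v‖ ^ 2 - ‖(Tq ρ (lz x) ^ m) v‖ ^ 2) := by
    field_simp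
  rw [h4]
  have h5 := RC14.En_nonneg ρ x v
  have h6 : 2 * (2 * (m : ℝ) * (‖v‖ ^ 2 - (‖v‖ ^ 2 - En ρ x v / (4 * a)))) =
      m / a * En ρ x v := by
    field_simp
    ring
  have h7 : (m : ℝ) / a ≤ 8 / c := by
    rw [div_le_iff₀ ha0]
    have : 8 / c * (a : ℝ) = 8 * a / c := by ring
    rw [this]
    exact hm2
  calc 2 * (‖v‖ ^ 2 - ‖(Tq ρ (lz x) ^ m) v‖ ^ 2) ≤
      2 * (2 * (m : ℝ) * (‖v‖ ^ 2 - (‖v‖ ^ 2 - En ρ x v / (4 * a)))) := by linarith
    _ = m / a * En ρ x v := h6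
    _ ≤ 8 / c * En ρ x v := mul_le_mul_of_nonneg_right h7 h5

/-- the average of the words -/
theorem sum_pw {a : ℕ} (ha : 1 ≤ a) (c : ℝ) (ρ : G →* (V ≃ₗᵢ[ℂ] V)) (x : Fin a → G) :
    ∑ i, op ρ (pw x c i) = (pc a c : ℂ) • (Tq ρ (lz x) ^ (2 * pm a c)) := by
  classical
  have ha0 : (0 : ℝ) < a := by exact_mod_cast ha
  set q := a + a with hq
  have hq0 : (0 : ℝ) < q := by
    rw [hq]; push_cast; linarith
  set κ : ℝ := 1 / (2 * q) with hκ
  have hT : Tq ρ (lz x) = ∑ p : Fin q × Bool, (κ : ℂ) • op ρ (sl (lz x) p) := by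
    unfold Tq
    rw [Finset.smul_sum]
    refine Finset.sum_congr rfl fun p _ => ?_
    rw [hκ, hq]
    push_cast
    rfl
  set m := pm a c with hm
  have hP : Tq ρ (lz x) ^ (2 * m) = ∑ w : Fin (2 * m) → Fin q × Bool,
      ((κ ^ (2 * m) : ℝ) : ℂ) • op ρ (wrd (lz x) w) := by
    rw [hT, SFTRH.sum_pow_op ρ (fun p => sl (lz x) p) (fun _ => κ) (2 * m)]
    refine Finset.sum_congr rfl fun w _ => ?_
    rw [Finset.prod_const, Finset.card_univ, Fintype.card_fin]
    rfl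
  have hcard : (pc a c : ℝ) * κ ^ (2 * m) = 1 := by
    unfold pc
    rw [Fintype.card_fun, Fintype.card_prod, Fintype.card_fin, Fintype.card_bool,
      Fintype.card_fin, ← hm, ← hq]
    push_cast
    rw [← mul_pow, hκ]
    have : (q : ℝ) * 2 * (1 / (2 * q)) = 1 := by field_simp
    rw [this, one_pow]
  rw [hP, ← Finset.smul_sum, smul_smul]
  have h1 : (pc a c : ℂ) * ((κ ^ (2 * m) : ℝ) : ℂ) = 1 := by
    have := congrArg (fun t : ℝ => (t : ℂ)) hcard
    simpa using this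
  rw [h1, one_smul]
  unfold pw
  exact (Fintype.equivFin (Fin (2 * m) → Fin (a + a) × Bool)).symm.sum_comp
    fun w => op ρ (wrd (lz x) w)

theorem sum_pw_inv {a : ℕ} (ha : 1 ≤ a) (c : ℝ) (ρ : G →* (V ≃ₗᵢ[ℂ] V)) (x : Fin a → G) :
    ∑ i, op ρ (pw x c i)⁻¹ = (pc a c : ℂ) • (Tq ρ (lz x) ^ (2 * pm a c)) := by
  have hT : (Tq ρ (lz x)).IsSymmetric := OPS.Tq_symm _ _
  ext v
  refine ext_inner_right ℂ fun w => ?_
  have h1 : ⟪(∑ i, op ρ (pw x c i)⁻¹) v, w⟫_ℂ = ⟪v, (∑ i, op ρ (pw x c i)) w⟫_ℂ := by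
    rw [LinearMap.sum_apply, LinearMap.sum_apply, sum_inner, inner_sum]
    refine Finset.sum_congr rfl fun i _ => ?_
    rw [op_apply, op_apply]
    have h2 : w = ρ (pw x c i)⁻¹ (ρ (pw x c i) w) := by
      rw [map_inv]
      exact ((ρ (pw x c i)).symm_apply_apply w).symm
    conv_lhs => rw [h2]
    exact (ρ (pw x c i)⁻¹).inner_map_map v _
  rw [h1, sum_pw ha, LinearMap.smul_apply, LinearMap.smul_apply, inner_smul_left, inner_smul_right,
    POWXx.inner_pow hT]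
  congr 1
  simp

/-- the lazy walk operator of the words -/
theorem Tq_pw {a : ℕ} (ha : 1 ≤ a) (c : ℝ) (ρ : G →* (V ≃ₗᵢ[ℂ] V)) (x : Fin a → G) :
    Tq ρ (lz (pw x c)) = (1 / 2 : ℂ) • (1 + Tq ρ (lz x) ^ (2 * pm a c)) := by
  classical
  have hC0 : (pc a c : ℂ) ≠ 0 := by
    have := pc_pos ha c
    exact_mod_cast (by omega : pc a c ≠ 0)
  set C := pc a c with hC
  set P := Tq ρ (lz x) ^ (2 * pm a c) with hP
  have e1 : ∑ p : Fin (C + C) × Bool, op ρ (sl (lz (pw x c)) p) =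
      (∑ i, op ρ (pw x c i) + ∑ i, op ρ (pw x c i)⁻¹) + (2 * (C : ℂ)) • 1 := by
    rw [Fintype.sum_prod_type]
    simp only [Fintype.sum_bool, sl]
    rw [Fin.sum_univ_add]
    simp only [lz, Fin.append_left, Fin.append_right, if_true, inv_one, op_one, Finset.sum_const,
      Finset.card_univ, Fintype.card_fin]
    simp only [Bool.false_eq_true, if_false]
    rw [Finset.sum_add_distrib]
    congr 1
    · congr 1
      · exact Finset.sum_congr rfl fun i _ => by rw [Fin.append_left]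
      · exact Finset.sum_congr rfl fun i _ => by rw [Fin.append_left]
    · have e0 : ∀ i : Fin C, op ρ (Fin.append (pw x c) (fun _ => (1 : G)) (Fin.natAdd C i)) +
          op ρ (Fin.append (pw x c) (fun _ => (1 : G)) (Fin.natAdd C i))⁻¹ =
          (2 : ℂ) • (1 : Module.End ℂ V) := by
        intro i
        rw [Fin.append_right, inv_one, op_one, two_smul]
      rw [Finset.sum_congr rfl fun i _ => e0 i, Finset.sum_const, Finset.card_univ,
        Fintype.card_fin, ← Nat.cast_smul_eq_nsmul ℂ, smul_smul, mul_comm]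
  have e2 : (1 / (2 * ((C + C : ℕ) : ℂ))) * (2 * (C : ℂ)) = 1 / 2 := by
    push_cast
    field_simp
    norm_num
  have e3 : Tq ρ (lz (pw x c)) = (1 / (2 * ((C + C : ℕ) : ℂ))) •
      ∑ p : Fin (C + C) × Bool, op ρ (sl (lz (pw x c)) p) := rfl
  have e4 : (C : ℂ) • P + (C : ℂ) • P + (2 * (C : ℂ)) • (1 : Module.End ℂ V) =
      (2 * (C : ℂ)) • (1 + P) := by
    rw [← add_smul, smul_add, add_comm]
    congr 1
    ring_nf
  rw [e3, e1, sum_pw ha, sum_pw_inv ha, ← hP, ← hC, e4, smul_smul, e2]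

variable [FiniteDimensional ℂ V]

/-- trace bound for the powers of the lazy walk of the words -/
theorem rtr_pw {a : ℕ} (ha : 1 ≤ a) {c : ℝ} (hc : 0 < c) (hc1 : c ≤ 1)
    (ρ : G →* (V ≃ₗᵢ[ℂ] V)) (x : Fin a → G) (Λ : ℝ)
    (h : LRk (⊤ : Submodule ℂ V) (fun v => 2 / c * En ρ x v) Λ) (M : ℕ) :
    rtr (Tq ρ (lz (pw x c)) ^ (2 * M)) ≤
      (Real.exp (-Λ) + Real.exp (-(M / 2))) * Module.finrank ℂ V := by
  have ha0 : (0 : ℝ) < a := by exact_mod_cast ha
  have ha1 : (1 : ℝ) ≤ a := by exact_mod_cast ha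
  set T := Tq ρ (lz x) with hTdef
  have hT : T.IsSymmetric := OPS.Tq_symm _ _
  have hE := fun v => LZEN' ha ρ x v
  obtain ⟨θ, hθ⟩ : ∃ θ, θ = 1 - c / (8 * a) := ⟨_, rfl⟩
  have hca : c / (8 * a) ≤ 1 := by
    rw [div_le_one (by positivity)]; linarith
  have hca0 : 0 < c / (8 * a) := by positivity
  have hθ0 : 0 ≤ θ := by rw [hθ]; linarith
  have hθ1 : θ ≤ 1 := by rw [hθ]; linarith
  obtain ⟨E, hEs, hE1, -, hE3⟩ := SPECU T hT (fun v => (hE v).1) (fun v => by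
    rw [(hE v).2]
    have := RC14.En_nonneg ρ x v
    have : 0 ≤ En ρ x v / (4 * a) := by positivity
    linarith) θ hθ0 hθ1
  have hr : rtr E ≤ Real.exp (-Λ) * Module.finrank ℂ V := by
    rw [rtr_proj E hEs]
    have h1 := h (LinearMap.range E) le_top (by
      rintro _ ⟨v, rfl⟩
      have h2 := hE1 v
      rw [(hE (E v)).2] at h2
      have h3 : En ρ x (E v) / (4 * a) ≤ c / (8 * a) * ‖E v‖ ^ 2 := by
        rw [hθ] at h2; linarith
      rw [div_le_iff₀ (by positivity)] at h3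
      have h4 : c / (8 * a) * ‖E v‖ ^ 2 * (4 * a) = c / 2 * ‖E v‖ ^ 2 := by
        field_simp; ring
      rw [h4] at h3
      have h5 : 2 / c * En ρ x (E v) ≤ 2 / c * (c / 2 * ‖E v‖ ^ 2) :=
        mul_le_mul_of_nonneg_left h3 (by positivity)
      have h6 : 2 / c * (c / 2 * ‖E v‖ ^ 2) = ‖E v‖ ^ 2 := by field_simp
      linarith)
    rwa [finrank_top] at h1
  have hkey := hE3 (2 * pm a c) (2 * M)
  rw [← Tq_pw ha c ρ x] at hkey
  refine hkey.trans ?_
  rw [add_mul]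
  refine add_le_add hr (mul_le_mul_of_nonneg_right ?_ (Nat.cast_nonneg _))
  have hm1 : 4 * (a : ℝ) / c ≤ pm a c := Nat.le_ceil _
  have h3 : θ ^ (2 * pm a c) ≤ Real.exp (-1) := by
    have e0 : θ ≤ Real.exp (-(c / (8 * a))) := by
      have := Real.add_one_le_exp (-(c / (8 * a)))
      rw [hθ]; linarith
    refine (pow_le_pow_left₀ hθ0 e0 _).trans ?_
    rw [← Real.exp_nat_mul]
    apply Real.exp_le_exp.2
    push_cast
    rw [div_le_iff₀ hc] at hm1
    have e2 : 2 * (pm a c : ℝ) * -(c / (8 * a)) = -((pm a c * c) / (4 * a)) := by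
      field_simp; ring
    rw [e2, neg_le_neg_iff, le_div_iff₀ (by positivity)]
    linarith
  have h4 : (1 + θ ^ (2 * pm a c)) / 2 ≤ Real.exp (-(1 / 4)) := by
    have e1 : Real.exp (-1) ≤ 0.368 := by
      rw [Real.exp_neg]
      have := Real.exp_one_gt_d9
      rw [inv_le_comm₀ (Real.exp_pos _) (by norm_num)]
      refine le_trans ?_ this.le
      norm_num
    have e2 := Real.add_one_le_exp (-(1 / 4) : ℝ)
    linarith
  calc ((1 + θ ^ (2 * pm a c)) / 2) ^ (2 * M) ≤ Real.exp (-(1 / 4)) ^ (2 * M) :=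
        pow_le_pow_left₀ (by positivity) h4 _
    _ = Real.exp (-(M / 2)) := by
        rw [← Real.exp_nat_mul]
        congr 1
        push_cast
        ring

end LG45
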