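import Pool.Agent.H45.LLG.FMixG

/-! One round. -/

set_option autoImplicit false

namespace LG45
open RC14 RC852 TE852 LL14 Finset Equiv
open scoped InnerProductSpace

section
variable {G : Type*} [Group G] [Fintype G]
variable {V : Type*} [NormedAddCommGroup V] [InnerProductSpace ℂ V] [FiniteDimensional ℂ V]

/-- the energy -/
noncomputable def EF (ρ : G →* (V ≃ₗᵢ[ℂ] V)) {a R : ℕ} (x : Fin a → G) (b : Fin 1 → G) (M d : ℕ)
    (z : Fin R → Fin 2 → G) (v : V) : ℝ :=
  64 * (En ρ b v + 3 / 2 * ((M : ℝ) / (d + 1)) / a * En ρ x v) + 16 * ∑ i, En ρ (z i) v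

omit [Fintype G] [FiniteDimensional ℂ V] in
lemma isEn_EF (ρ : G →* (V ≃ₗᵢ[ℂ] V)) {a R : ℕ} (x : Fin a → G) (b : Fin 1 → G) (M d : ℕ)
    (z : Fin R → Fin 2 → G) : IsEn ρ (EF ρ x b M d z) :=
  (((IsEn.en ρ b).add ((IsEn.en ρ x).smul (3 / 2 * ((M : ℝ) / (d + 1)) / a)
    (by positivity))).smul 64 (by norm_num)).add
    ((IsEn.sum Finset.univ (fun i => En ρ (z i)) fun i => IsEn.en ρ (z i)).smul 16 (by norm_num))

omit [Fintype G] in
/-- from the restricted representation to the subspace -/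
lemma LRk_of_res (W : Submodule ℂ V) (Φ : V → ℝ) (Ψ : W → ℝ) (Λ : ℝ)
    (h : ∀ w : W, Ψ w ≤ Φ (w : V)) (hL : LRk (⊤ : Submodule ℂ W) Ψ Λ) : LRk W Φ Λ := by
  intro U hU hΦ
  have h1 := hL (U.comap W.subtype) le_top (by
    intro u hu
    have h2 := hΦ (u : V) hu
    refine (h u).trans (h2.trans (le_of_eq ?_))
    rw [Submodule.coe_norm])
  have h3 : Module.finrank ℂ (U.comap W.subtype) = Module.finrank ℂ U := by
    have h4 := Submodule.finrank_map_subtype_eq W (U.comap W.subtype)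
    rw [← h4, Submodule.map_comap_subtype, inf_eq_right.2 hU]
  rw [h3, finrank_top] at h1
  exact h1

/-- one irreducible component -/
lemma oneF (ρ : G →* (V ≃ₗᵢ[ℂ] V)) (W : Submodule ℂ V) (hW : Irr ρ W) (a M d : ℕ) (ha : 1 ≤ a)
    (hd : d ≤ M) (x : Fin a → G) (b : Fin 1 → G) (L : ℕ) (Λ : ℝ) (hΛ : 32 ≤ Λ)
    (hη : (8 / 7 : ℝ) ^ (2 * L) * rtr (SF (V := W) (res ρ W hW.2.1) x b M d ^ (2 * L)) ≤
      Real.exp (-Λ) * Module.finrank ℂ W) (R : ℕ) :
    (Nat.card {z : Fin R → Fin 2 → G // ¬ LRk W (EF ρ x b M d z) (Λ * 2 ^ R / 2)} : ℝ) ≤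
      R * Real.exp (-(Λ * 2 / 64)) * (Fintype.card G : ℝ) ^ (R * 2) := by
  obtain ⟨h1, h2, h3⟩ := SFEN (V := W) ha (le_refl 1) (res ρ W hW.2.1) x b M d hd
  obtain ⟨E, hE, htr, hgap⟩ := SPEC (V := W) (SF (V := W) (res ρ W hW.2.1) x b M d) h1 h2 (7 / 8)
    (by norm_num) (by norm_num)
  have hτ : rtr E ≤ Real.exp (-Λ) * Module.finrank ℂ W := by
    refine le_trans ?_ hη
    have h4 : rtr E = (8 / 7 : ℝ) ^ (2 * L) * ((7 / 8 : ℝ) ^ (2 * L) * rtr E) := by
      rw [← mul_assoc, ← mul_pow]; norm_num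
    rw [h4]
    exact mul_le_mul_of_nonneg_left (htr L) (by positivity)
  have h := AMPLR (V := W) (res ρ W hW.2.1) (RC14.AMP1.irr_res ρ W hW) E hE 2 R (le_refl 2) Λ hΛ hτ
  have hEn : ∀ {ι : Type} [Fintype ι] (y : ι → G) (w : W),
      En (res ρ W hW.2.1) y w = En ρ y (w : V) := by
    intro ι _ y w
    unfold En
    apply Finset.sum_congr rfl
    intro i _
    rw [Submodule.coe_norm, Submodule.coe_sub, res_apply]
  have hm := RC14.card_mono (Z := Fin R → Fin 2 → G)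
    (fun z => ¬ LRk W (EF ρ x b M d z) (Λ * 2 ^ R / 2))
    (fun z => ¬ LRk (⊤ : Submodule ℂ W)
        (fun v => 8 * ‖v - E v‖ ^ 2 + 32 / ((2 : ℕ) : ℝ) * ∑ r, En (res ρ W hW.2.1) (z r) v)
        (Λ * ((2 : ℕ) : ℝ) ^ R / 2)) (by
      intro z hz hcon
      apply hz
      have e0 : Λ * ((2 : ℕ) : ℝ) ^ R / 2 = Λ * 2 ^ R / 2 := by push_cast; rfl
      rw [e0] at hcon
      refine LRk_of_res W _ _ _ (fun w => ?_) hcon
      have e1 := hgap w
      have e2 := h3 w
      simp only [hEn] at e2 ⊢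
      unfold EF
      norm_num at e1 e2 ⊢
      linarith)
  refine (Nat.cast_le.mpr hm).trans (h.trans (le_of_eq ?_))
  push_cast
  rfl

end

/-- one level -/
lemma levF (n j a M d R : ℕ) (hj : 2 * j + 2 ≤ n) (ha : 1 ≤ a) (hd : d ≤ M) (x : Fin a → Alt n)
    (b : Fin 1 → Alt n) (L : ℕ) (Λ : ℝ) (hΛ : 32 ≤ Λ)
    (hη : ∀ (W : Submodule ℂ (RC14.V j n)) (hW : Irr (repA j n) W), W ≤ Lvl j n →
      (8 / 7 : ℝ) ^ (2 * L) * rtr (SF (V := W) (res (repA j n) W hW.2.1) x b M d ^ (2 * L)) ≤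
        Real.exp (-Λ) * Module.finrank ℂ W) :
    (Nat.card {z : Fin R → Fin 2 → Alt n // ¬ ∀ W : Submodule ℂ (RC14.V j n),
        Irr (repA j n) W → W ≤ Lvl j n → LRk W (EF (repA j n) x b M d z) (Λ * 2 ^ R / 2)} : ℝ) ≤
      Real.exp (3 * Real.sqrt j) * (R * Real.exp (-(Λ * 2 / 64)) *
        (Fintype.card (Alt n) : ℝ) ^ (R * 2)) :=
  UBLR j n hj (Z := Fin R → Fin 2 → Alt n) (fun z v => EF (repA j n) x b M d z v)
    (fun z => isEn_EF (repA j n) x b M d z) _ _ (by positivity)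
    fun W hW hWL => oneF (repA j n) W hW a M d ha hd x b L Λ hΛ (hη W hW hWL) R

/-- the letters `z` are good with probability `1 - 1/n` -/
theorem ZEF : ∃ G0 : ℕ, ∀ G : ℕ, G0 ≤ G → ∀ n r R : ℕ, 1 ≤ r → (Real.log n) ^ 2 ≤ r →
    r * G ^ 256 ≤ n → R ≤ n →
    ∀ (a M d : ℕ) (x : Fin a → Alt n) (b : Fin 1 → Alt n), 1 ≤ a → d ≤ M →
    NF M d ≤ (G : ℝ) ^ ((1 / 1024 : ℝ) * r) → GoodH G r (gx (lz x) M) (cb b) →
    (Nat.card {z : Fin R → Fin 2 → Alt n // ¬ ∀ j, r ≤ j → j ≤ r * G ^ 8 →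
      ∀ W : Submodule ℂ (RC14.V j n), Irr (repA j n) W → W ≤ Lvl j n →
        LRk W (EF (repA j n) x b M d z) (j * Real.log G / 2 * 2 ^ R / 2)} : ℝ) ≤
      1 / (n : ℝ) * (Fintype.card (Alt n) : ℝ) ^ (R * 2) := by
  obtain ⟨G1, hG1⟩ := TREH
  refine ⟨max G1 (max 2 ⌈Real.exp 384⌉₊), ?_⟩
  intro G hG n r R hr hlog hrn hRn a M d x b ha hd hNF hgood
  have hGG1 : G1 ≤ G := (le_max_left _ _).trans hG
  have hG2 : 2 ≤ G := ((le_max_left _ _).trans (le_max_right _ _)).trans hG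
  have hG3 : ⌈Real.exp 384⌉₊ ≤ G := ((le_max_right _ _).trans (le_max_right _ _)).trans hG
  have hG0 : (0 : ℝ) < G := by exact_mod_cast (by omega : 0 < G)
  have hlG : 384 ≤ Real.log G := by
    rw [Real.le_log_iff_exp_le hG0]
    exact (Nat.le_ceil _).trans (by exact_mod_cast hG3)
  have hGp : ∀ k : ℕ, 1 ≤ G ^ k := fun k => Nat.one_le_pow _ _ (by omega)
  have hG256n : G ^ 256 ≤ n := (Nat.le_mul_of_pos_left _ hr).trans hrn
  have hn1 : 1 ≤ n := (hGp 256).trans hG256n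
  have hn0 : (0 : ℝ) < n := by exact_mod_cast hn1
  have hln : 256 * Real.log G ≤ Real.log n := by
    have h1 : ((G : ℝ)) ^ 256 ≤ n := by exact_mod_cast hG256n
    have h2 := Real.log_le_log (by positivity) h1
    rw [Real.log_pow] at h2
    push_cast at h2
    exact h2
  have hln1 : 1000 ≤ Real.log n := by linarith
  have hlr : Real.log n ≤ r := by nlinarith
  have hr1000 : 1000 ≤ r := by
    have : (1000 : ℝ) ≤ r := hln1.trans hlr
    exact_mod_cast this
  set A : ℝ := (Fintype.card (Alt n) : ℝ) with hA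
  have hA0 : 0 < A := by rw [hA]; exact_mod_cast Fintype.card_pos
  have hG8 : 4 * G ^ 8 ≤ G ^ 256 := by
    have e : G ^ 256 = G ^ 2 * (G ^ 246 * G ^ 8) := by
      rw [← pow_add, ← pow_add]
    rw [e]
    have h1 : 2 ^ 2 ≤ G ^ 2 := Nat.pow_le_pow_left hG2 2
    calc 4 * G ^ 8 = 2 ^ 2 * (1 * G ^ 8) := by ring
      _ ≤ G ^ 2 * (G ^ 246 * G ^ 8) := Nat.mul_le_mul h1 (Nat.mul_le_mul_right _ (hGp 246))
  have h4n : 4 * (r * G ^ 8) ≤ n := by
    calc 4 * (r * G ^ 8) = r * (4 * G ^ 8) := by ring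
      _ ≤ r * G ^ 256 := Nat.mul_le_mul_left r hG8
      _ ≤ n := hrn
  have hrG : 1 ≤ r * G ^ 8 := Nat.mul_le_mul hr (hGp 8)
  have hlev : ∀ j ∈ Finset.Icc r (r * G ^ 8),
      (Nat.card {z : Fin R → Fin 2 → Alt n // ¬ ∀ W : Submodule ℂ (RC14.V j n),
        Irr (repA j n) W → W ≤ Lvl j n →
        LRk W (EF (repA j n) x b M d z) (j * Real.log G / 2 * 2 ^ R / 2)} : ℝ) ≤
      1 / (n : ℝ) ^ 2 * A ^ (R * 2) := by
    intro j hj
    rw [Finset.mem_Icc] at hj
    have hj1 : 1 ≤ j := hr.trans hj.1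
    have hjR : (1 : ℝ) ≤ j := by exact_mod_cast hj1
    have hjr : (r : ℝ) ≤ j := by exact_mod_cast hj.1
    have h1 := levF n j a M d R (by omega) ha hd x b (LL r j) (j * Real.log G / 2)
      (by nlinarith) (fun W hW hWL => hG1 G hGG1 n r hr1000 hrn a M d x b ha hd hNF hgood j hj.1
        hj.2 W hW hWL)
    refine h1.trans ?_
    rw [← mul_assoc]
    refine mul_le_mul_of_nonneg_right ?_ (by positivity)
    have hsq : Real.sqrt j ≤ j := by
      rw [Real.sqrt_le_left (by linarith)]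
      nlinarith
    have hRR : (R : ℝ) ≤ n := by exact_mod_cast hRn
    have e5 : Real.exp (3 * Real.sqrt j) * (R * Real.exp (-(j * Real.log G / 2 * 2 / 64))) ≤
        Real.exp (3 * j) * (n * Real.exp (-(6 * j))) := by
      refine mul_le_mul (Real.exp_le_exp.2 (by linarith)) ?_ (by positivity) (by positivity)
      refine mul_le_mul hRR (Real.exp_le_exp.2 ?_) (by positivity) (by positivity)
      nlinarith
    refine e5.trans ?_
    have e6 : Real.exp (3 * j) * (n * Real.exp (-(6 * j))) = n * Real.exp (-(3 * j)) := by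
      rw [mul_comm (n : ℝ), ← mul_assoc, ← Real.exp_add, mul_comm]
      congr 2
      ring
    rw [e6]
    have e7 : Real.exp (-(3 * j)) ≤ 1 / (n : ℝ) ^ 3 := by
      have e8 : 1 / (n : ℝ) ^ 3 = Real.exp (-(3 * Real.log n)) := by
        rw [Real.exp_neg, one_div, show (3 : ℝ) * Real.log n = ((3 : ℕ) : ℝ) * Real.log n by
          norm_num, Real.exp_nat_mul, Real.exp_log hn0]
      rw [e8]
      apply Real.exp_le_exp.2
      linarith
    calc (n : ℝ) * Real.exp (-(3 * j)) ≤ n * (1 / (n : ℝ) ^ 3) := by gcongr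
      _ = 1 / (n : ℝ) ^ 2 := by field_simp
  -- all levels
  have step : Nat.card {z : Fin R → Fin 2 → Alt n // ¬ ∀ j, r ≤ j → j ≤ r * G ^ 8 →
      ∀ W : Submodule ℂ (RC14.V j n), Irr (repA j n) W → W ≤ Lvl j n →
        LRk W (EF (repA j n) x b M d z) (j * Real.log G / 2 * 2 ^ R / 2)} ≤
      ∑ j ∈ Finset.Icc r (r * G ^ 8), Nat.card {z : Fin R → Fin 2 → Alt n //
        ¬ ∀ W : Submodule ℂ (RC14.V j n), Irr (repA j n) W → W ≤ Lvl j n →
        LRk W (EF (repA j n) x b M d z) (j * Real.log G / 2 * 2 ^ R / 2)} := by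
    apply RC14.card_union_fin
    intro z hz
    by_contra hcon
    push Not at hcon
    exact hz fun j h1 h2 => hcon j (Finset.mem_Icc.mpr ⟨h1, h2⟩)
  have hcard : ((Finset.Icc r (r * G ^ 8)).card : ℝ) ≤ n := by
    rw [Nat.card_Icc]
    exact_mod_cast (show r * G ^ 8 + 1 - r ≤ n by omega)
  calc _ ≤ ∑ j ∈ Finset.Icc r (r * G ^ 8),
        (Nat.card {z : Fin R → Fin 2 → Alt n // ¬ ∀ W : Submodule ℂ (RC14.V j n),
          Irr (repA j n) W → W ≤ Lvl j n →
        LRk W (EF (repA j n) x b M d z) (j * Real.log G / 2 * 2 ^ R / 2)} : ℝ) := by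
        exact_mod_cast step
    _ ≤ ∑ _j ∈ Finset.Icc r (r * G ^ 8), 1 / (n : ℝ) ^ 2 * A ^ (R * 2) :=
        Finset.sum_le_sum hlev
    _ = ((Finset.Icc r (r * G ^ 8)).card : ℝ) * (1 / (n : ℝ) ^ 2 * A ^ (R * 2)) := by
        rw [Finset.sum_const, nsmul_eq_mul]
    _ ≤ (n : ℝ) * (1 / (n : ℝ) ^ 2 * A ^ (R * 2)) := by
        gcongr
    _ = 1 / (n : ℝ) * A ^ (R * 2) := by
        field_simp

/-- the state -/
def St1 (n r0 r : ℕ) (l c : ℝ) {a : ℕ} (x : Fin a → Alt n) : Prop :=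
  Good1 n r0 c x ∧ GLR n r l c x

lemma combF {n r0 r Q a : ℕ} {c κ lam lG : ℝ} (hc : 0 < c) (hc1 : c ≤ 1) (hκ : 0 < κ)
    (hlG : 0 ≤ lG)
    (hlam : lam = 384 * (1 / κ) + 32) {M d : ℕ} (hMd : (M : ℝ) / (d + 1) ≤ 1 / κ) (ha : 1 ≤ a)
    (x : Fin a → Alt n) (b : Fin 1 → Alt n) (z : Fin (7 * 2) → Alt n)
    (hx : St1 n r0 r (26 * lG) c x)
    (hz : ∀ j, r ≤ j → j ≤ Q → ∀ W : Submodule ℂ (RC14.V j n), Irr (repA j n) W → W ≤ Lvl j n →
        LRk W (EF (repA j n) (pw x c) b M d (ROUNDHx.unfl z)) (j * lG / 2 * 2 ^ 7 / 2)) :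
    St1 n r0 Q (26 * lG) (c / lam) (Fin.append x (Fin.append b z)) := by
  have hk0 : 0 < 1 / κ := by positivity
  have hlam32 : 32 ≤ lam := by rw [hlam]; linarith
  have hlam0 : 0 < lam := by linarith
  refine ⟨?_, ?_⟩
  · intro j hj1 hj2 v hv
    rw [En_append, En_append]
    have hb := RC14.En_nonneg (repA j n) b v
    have hz0 := RC14.En_nonneg (repA j n) z v
    have h1 := hx.1 j hj1 hj2 v hv
    have h2 : c / lam * ‖v‖ ^ 2 ≤ c * ‖v‖ ^ 2 := by
      apply mul_le_mul_of_nonneg_right _ (sq_nonneg _)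
      exact div_le_self hc.le (by linarith)
    linarith
  · intro j hj1 hj2 W hW hWL
    have hE : ∀ v, 2 / (c / lam) * En (repA j n) (Fin.append x (Fin.append b z)) v =
        2 * lam / c * (En (repA j n) x v + (En (repA j n) b v + En (repA j n) z v)) := by
      intro v
      rw [En_append, En_append]
      congr 1
      field_simp
    rcases le_total j r with h | h
    · refine (hx.2 j hj1 h W hW hWL).mono (fun v _ => ?_) le_rfl
      simp only [hE]
      have hb := RC14.En_nonneg (repA j n) b v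
      have hz0 := RC14.En_nonneg (repA j n) z v
      have hx0 := RC14.En_nonneg (repA j n) x v
      have e1 : 2 / c ≤ 2 * lam / c := by
        apply div_le_div_of_nonneg_right _ hc.le
        linarith
      calc 2 / c * En (repA j n) x v ≤ 2 * lam / c * En (repA j n) x v :=
            mul_le_mul_of_nonneg_right e1 hx0
        _ ≤ _ := mul_le_mul_of_nonneg_left (by linarith) (by positivity)
    · refine (hz j h hj2 W hW hWL).mono (fun v _ => ?_) ?_
      · simp only [hE]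
        have hb := RC14.En_nonneg (repA j n) b v
        have hz0 := RC14.En_nonneg (repA j n) z v
        have hx0 := RC14.En_nonneg (repA j n) x v
        have hp := En_pw ha hc hc1 (repA j n) x v
        unfold EF
        rw [ROUNDHx.En_unfl]
        have h2 : 3 / 2 * ((M : ℝ) / (d + 1)) / (pc a c : ℝ) * En (repA j n) (pw x c) v ≤
            3 / 2 * (1 / κ) * (8 / c * En (repA j n) x v) := by
          have e1 : 3 / 2 * ((M : ℝ) / (d + 1)) / (pc a c : ℝ) * En (repA j n) (pw x c) v =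
              3 / 2 * ((M : ℝ) / (d + 1)) * (1 / (pc a c : ℝ) * En (repA j n) (pw x c) v) := by
            ring
          rw [e1]
          have h3 : 0 ≤ 1 / (pc a c : ℝ) * En (repA j n) (pw x c) v := by
            have := RC14.En_nonneg (repA j n) (pw x c) v
            positivity
          exact mul_le_mul (by linarith) hp h3 (by positivity)
        have h4 : 64 * (3 / 2 * (1 / κ) * (8 / c * En (repA j n) x v)) =
            768 * (1 / κ) / c * En (repA j n) x v := by ring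
        have h5 : 768 * (1 / κ) / c ≤ 2 * lam / c := by
          apply div_le_div_of_nonneg_right _ hc.le
          rw [hlam]; linarith
        have h6 : 64 ≤ 2 * lam / c := by
          rw [le_div_iff₀ hc]
          nlinarith
        have h7 : 768 * (1 / κ) / c * En (repA j n) x v ≤ 2 * lam / c * En (repA j n) x v :=
          mul_le_mul_of_nonneg_right h5 hx0
        have h8 : 64 * En (repA j n) b v ≤ 2 * lam / c * En (repA j n) b v :=
          mul_le_mul_of_nonneg_right h6 hb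
        have h9 : 16 * En (repA j n) z v ≤ 2 * lam / c * En (repA j n) z v :=
          mul_le_mul_of_nonneg_right (by linarith) hz0
        rw [mul_add, mul_add]
        linarith
      · have : (0 : ℝ) ≤ j := Nat.cast_nonneg _
        nlinarith [mul_nonneg this hlG]

/-- one round: from the levels `≤ r` to the levels `≤ r G^8` -/
theorem ROUNDF : ∃ G0 : ℕ, ∃ lam : ℝ, 1 ≤ lam ∧ ∀ G : ℕ, G0 ≤ G → ∀ n r0 r : ℕ,
    (Real.log n) ^ 2 ≤ r → r * G ^ 256 ≤ n →
    ∀ a : ℕ, 1 ≤ a → ∀ c : ℝ, 0 < c → c ≤ 1 → ∀ p : ℝ, 0 ≤ p →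
    (Nat.card {x : Fin a → Alt n // ¬ St1 n r0 r (26 * Real.log G) c x} : ℝ) ≤
      p * (Fintype.card (Alt n) : ℝ) ^ a →
    (Nat.card {y : Fin (a + (1 + 7 * 2)) → Alt n //
        ¬ St1 n r0 (r * G ^ 8) (26 * Real.log G) (c / lam) y} : ℝ) ≤
      (p + 2 / (n : ℝ)) * (Fintype.card (Alt n) : ℝ) ^ (a + (1 + 7 * 2)) := by
  obtain ⟨κ, hκ, hpar⟩ := PARAM 100 (1 / 1024) (by norm_num) (by norm_num)
  obtain ⟨G1, hG1⟩ := Filter.eventually_atTop.1 hpar
  obtain ⟨G2, hG2⟩ := BPARTF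
  obtain ⟨G3, hG3⟩ := ZEF
  have hk0 : 0 < 1 / κ := by positivity
  refine ⟨max (max G1 G2) (max G3 256), 384 * (1 / κ) + 32, by linarith, ?_⟩
  intro G hG n r0 r hlog hrn a ha c hc hc1 p hp hev
  have hGG1 : G1 ≤ G := le_trans (le_trans (le_max_left _ _) (le_max_left _ _)) hG
  have hGG2 : G2 ≤ G := le_trans (le_trans (le_max_right _ _) (le_max_left _ _)) hG
  have hGG3 : G3 ≤ G := le_trans (le_trans (le_max_left _ _) (le_max_right _ _)) hG
  have hG4 : 256 ≤ G := le_trans (le_trans (le_max_right _ _) (le_max_right _ _)) hG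
  set lam : ℝ := 384 * (1 / κ) + 32 with hlam
  set A : ℝ := (Fintype.card (Alt n) : ℝ) with hA
  have hA0 : 0 < A := by rw [hA]; exact_mod_cast Fintype.card_pos
  have hGr : (256 : ℝ) ≤ G := by exact_mod_cast hG4
  have hlG0 : 0 ≤ Real.log G := Real.log_nonneg (by linarith)
  -- sizes
  have hGp : ∀ k : ℕ, 1 ≤ G ^ k := fun k => Nat.one_le_pow _ _ (by omega)
  rcases Nat.eq_zero_or_pos r with hr0 | hr
  · -- no new levels
    subst hr0
    have hn1 : Real.log n = 0 := by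
      have : (Real.log n) ^ 2 ≤ 0 := by simpa using hlog
      nlinarith [sq_nonneg (Real.log (n : ℝ))]
    have h1 : ∀ (x : Fin a → Alt n) (w : Fin (1 + 7 * 2) → Alt n),
        St1 n r0 0 (26 * Real.log G) c x → St1 n r0 (0 * G ^ 8) (26 * Real.log G) (c / lam)
          (Fin.append x w) := by
      intro x w hx
      refine ⟨?_, ?_⟩
      · intro j hj1 hj2 v hv
        rw [En_append]
        have hb := RC14.En_nonneg (repA j n) w v
        have h1 := hx.1 j hj1 hj2 v hv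
        have h2 : c / lam * ‖v‖ ^ 2 ≤ c * ‖v‖ ^ 2 := by
          apply mul_le_mul_of_nonneg_right _ (sq_nonneg _)
          exact div_le_self hc.le (by rw [hlam]; linarith)
        linarith
      · intro j hj1 hj2
        omega
    rw [ROUNDHx.card_append]
    refine (card_prod_bound (fun x : Fin a → Alt n => St1 n r0 0 (26 * Real.log G) c x)
      (fun x w => ¬ St1 n r0 (0 * G ^ 8) (26 * Real.log G) (c / lam) (Fin.append x w)) 0
      le_rfl (fun x hx => ?_)).trans ?_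
    · have : IsEmpty {w : Fin (1 + 7 * 2) → Alt n //
          ¬ St1 n r0 (0 * G ^ 8) (26 * Real.log G) (c / lam) (Fin.append x w)} :=
        ⟨fun w => w.2 (h1 x w.1 hx)⟩
      rw [Nat.card_of_isEmpty]
      simp
    · rw [Fintype.card_fun, Fintype.card_fun, Fintype.card_fin, Fintype.card_fin]
      push_cast
      rw [← hA]
      have h2 : (0 : ℝ) ≤ 2 / (n : ℝ) * A ^ (a + (1 + 7 * 2)) := by positivity
      calc _ ≤ (p * A ^ a) * A ^ (1 + 7 * 2) + 0 * A ^ a * A ^ (1 + 7 * 2) := by gcongr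
        _ = p * A ^ (a + (1 + 7 * 2)) := by rw [pow_add A a]; ring
        _ ≤ (p + 2 / (n : ℝ)) * A ^ (a + (1 + 7 * 2)) := by rw [add_mul]; linarith
  have hG256n : G ^ 256 ≤ n := (Nat.le_mul_of_pos_left _ hr).trans hrn
  have hn256 : 256 ≤ n := by
    calc 256 ≤ G := hG4
      _ = G ^ 1 := (pow_one _).symm
      _ ≤ G ^ 256 := Nat.pow_le_pow_right (by omega) (by norm_num)
      _ ≤ n := hG256n
  have hnR : (256 : ℝ) ≤ n := by exact_mod_cast hn256
  have hn : (0 : ℝ) < n := by linarith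
  have hlog11 : 11 ≤ Real.log n := by
    have h1 : ((G : ℝ)) ^ 256 ≤ n := by exact_mod_cast hG256n
    have h2 := Real.log_le_log (by positivity) h1
    rw [Real.log_pow] at h2
    push_cast at h2
    have h3 : 1 ≤ Real.log G := by
      rw [Real.le_log_iff_exp_le (by linarith)]
      linarith [Real.exp_one_lt_d9]
    linarith
  have hlogr : Real.log n ≤ r := by
    refine le_trans ?_ hlog
    nlinarith
  have hr11 : 11 ≤ r := by
    have : (11 : ℝ) ≤ r := hlog11.trans hlogr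
    exact_mod_cast this
  obtain ⟨M, d, hd, hM, hN, hMd⟩ := hG1 G hGG1 r hr
  -- for a good `x`
  have hgood : ∀ x : Fin a → Alt n, St1 n r0 r (26 * Real.log G) c x →
      (Nat.card {w : Fin (1 + 7 * 2) → Alt n //
        ¬ St1 n r0 (r * G ^ 8) (26 * Real.log G) (c / lam) (Fin.append x w)} : ℝ) ≤
        2 / (n : ℝ) * Fintype.card (Fin (1 + 7 * 2) → Alt n) := by
    intro x hx
    have hmix := FMIXG G hG4 n r hr hrn a ha c hc hc1 x hx.2 M hM
    have ha' := pc_pos ha c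
    rw [ROUNDHx.card_append]
    have : Nonempty (Fin (pc a c + pc a c)) := ⟨⟨0, by omega⟩⟩
    have hb := hG2 G hGG2 n r hr11 hrn hlogr (Fin (2 * M) → Fin (pc a c + pc a c) × Bool)
      (gx (lz (pw x c)) M) hmix
    refine (card_prod_bound (fun b : Fin 1 → Alt n => GoodH G r (gx (lz (pw x c)) M) (cb b))
      (fun b z => ¬ St1 n r0 (r * G ^ 8) (26 * Real.log G) (c / lam)
        (Fin.append x (Fin.append b z))) (1 / (n : ℝ))
      (by positivity) ?_).trans ?_
    · intro b hgb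
      have hz := hG3 G hGG3 n r 7 hr hlog hrn (by omega) (pc a c) M d (pw x c) b ha' hd hN hgb
      rw [Fintype.card_fun, Fintype.card_fin]
      push_cast
      refine le_trans ?_ hz
      rw [← card_equiv (ROUNDHx.unflE n 7) (fun z => ¬ ∀ j, r ≤ j → j ≤ r * G ^ 8 →
        ∀ W : Submodule ℂ (RC14.V j n), Irr (repA j n) W → W ≤ Lvl j n →
          LRk W (EF (repA j n) (pw x c) b M d (ROUNDHx.unfl z))
            (j * Real.log G / 2 * 2 ^ 7 / 2)) _ (fun z => Iff.rfl)]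
      apply Nat.cast_le.2
      apply RC14.card_mono
      intro z hz1 hcon
      exact hz1 (combF hc hc1 hκ hlG0 hlam hMd ha x b z hx hcon)
    · rw [Fintype.card_fun, Fintype.card_fun, Fintype.card_fin, Fintype.card_fin,
        Fintype.card_fun, Fintype.card_fin]
      push_cast
      rw [← hA]
      calc _ ≤ (1 / (n : ℝ) * A ^ 1) * A ^ (7 * 2) + 1 / (n : ℝ) * A ^ 1 * A ^ (7 * 2) := by
            gcongr
        _ = 2 / (n : ℝ) * A ^ (1 + 7 * 2) := by rw [pow_add]; ring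
  rw [ROUNDHx.card_append]
  refine (card_prod_bound (fun x : Fin a → Alt n => St1 n r0 r (26 * Real.log G) c x)
    (fun x w => ¬ St1 n r0 (r * G ^ 8) (26 * Real.log G) (c / lam) (Fin.append x w)) (2 / (n : ℝ))
    (by positivity) hgood).trans ?_
  rw [Fintype.card_fun, Fintype.card_fun, Fintype.card_fin, Fintype.card_fin]
  push_cast
  rw [← hA]
  calc _ ≤ (p * A ^ a) * A ^ (1 + 7 * 2) + 2 / (n : ℝ) * A ^ a * A ^ (1 + 7 * 2) := by
        gcongr
    _ = (p + 2 / (n : ℝ)) * A ^ (a + (1 + 7 * 2)) := by rw [pow_add A a]; ring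

end LG45
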