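import Pool.Agent.H45.LLG.Defs

/-! Spectral projections of symmetric operators between 0 and 1. -/

namespace LG45
open RC14 RC852 TE852 LL14 Finset
open scoped InnerProductSpace

variable {V : Type*} [NormedAddCommGroup V] [InnerProductSpace ℂ V] [FiniteDimensional ℂ V]

/-- spectral projection of a symmetric operator `0 ≤ T ≤ 1` onto the eigenvalues `≥ θ` -/
theorem SPECU (T : Module.End ℂ V) (hT : T.IsSymmetric) (hT0 : ∀ v, 0 ≤ (⟪T v, v⟫_ℂ).re)
    (hT1 : ∀ v, (⟪T v, v⟫_ℂ).re ≤ ‖v‖ ^ 2) (θ : ℝ) (hθ : 0 ≤ θ) (hθ1 : θ ≤ 1) :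
    ∃ E : Module.End ℂ V, SymIdem E ∧ (∀ v, θ * ‖E v‖ ^ 2 ≤ (⟪T (E v), E v⟫_ℂ).re) ∧
      (∀ v, (1 - θ) * ‖v - E v‖ ^ 2 ≤ ‖v‖ ^ 2 - (⟪T v, v⟫_ℂ).re) ∧
      ∀ m k : ℕ, rtr (((1 / 2 : ℂ) • (1 + T ^ m)) ^ k) ≤
        rtr E + ((1 + θ ^ m) / 2) ^ k * Module.finrank ℂ V := by
  classical
  set n := Module.finrank ℂ V with hn
  set b := hT.eigenvectorBasis hn.symm with hb
  set μ := hT.eigenvalues hn.symm with hμ
  have hTb : ∀ i, T (b i) = (μ i : ℂ) • b i := fun i => hT.apply_eigenvectorBasis hn.symm i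
  have hpow : ∀ (L : ℕ) (i), (T ^ L) (b i) = ((μ i : ℂ) ^ L) • b i := by
    intro L i
    induction L with
    | zero => simp
    | succ L ih =>
      rw [pow_succ', Module.End.mul_apply, ih, map_smul, hTb, smul_smul, pow_succ]
  set E : Module.End ℂ V := b.toBasis.constr ℂ (fun i => if θ ≤ μ i then b i else 0) with hE
  have hEb : ∀ i, E (b i) = if θ ≤ μ i then b i else 0 := by
    intro i
    have := b.toBasis.constr_basis ℂ (fun i => if θ ≤ μ i then b i else 0) i
    rwa [OrthonormalBasis.coe_toBasis] at this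
  have hinner : ∀ i v, ⟪b i, E v⟫_ℂ = if θ ≤ μ i then ⟪b i, v⟫_ℂ else 0 := by
    intro i v
    conv_lhs => rw [← b.sum_repr v]
    rw [map_sum, inner_sum]
    simp only [map_smul, hEb, inner_smul_right]
    rw [Finset.sum_eq_single i]
    · split_ifs with h
      · rw [b.inner_eq_one i, mul_one, b.repr_apply_apply]
      · simp
    · intro j _ hji
      split_ifs with h
      · rw [b.inner_eq_zero (Ne.symm hji), mul_zero]
      · simp
    · simp
  have hEsym : E.IsSymmetric := by
    intro v w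
    rw [← b.sum_inner_mul_inner (E v) w, ← b.sum_inner_mul_inner v (E w)]
    apply Finset.sum_congr rfl
    intro i _
    rw [hinner i w, ← inner_conj_symm (E v) (b i), hinner i v]
    split_ifs with h
    · rw [inner_conj_symm]
    · simp
  have hEidem : E * E = E := by
    apply b.toBasis.ext
    intro i
    rw [OrthonormalBasis.coe_toBasis, Module.End.mul_apply, hEb]
    split_ifs with h
    · rw [hEb, if_pos h]
    · simp
  have hnorm : ∀ w : V, ‖w‖ ^ 2 = ∑ i, ‖⟪b i, w⟫_ℂ‖ ^ 2 := fun w =>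
    (b.sum_sq_norm_inner_right w).symm
  have hTre : ∀ v : V, (⟪T v, v⟫_ℂ).re = ∑ i, μ i * ‖⟪b i, v⟫_ℂ‖ ^ 2 := by
    intro v
    rw [← b.sum_inner_mul_inner (T v) v, Complex.re_sum]
    apply Finset.sum_congr rfl
    intro i _
    rw [hT v (b i), hTb, inner_smul_right, mul_assoc, ← inner_conj_symm v (b i), mul_comm (starRingEnd ℂ _) _,
      Complex.mul_conj, ← Complex.ofReal_mul, Complex.ofReal_re, Complex.normSq_eq_norm_sq]
  have hμ1 : ∀ i, μ i ≤ 1 := by
    intro i
    have h := hT1 (b i)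
    rw [hTb, inner_smul_left, b.inner_eq_one i, b.norm_eq_one i] at h
    simpa using h
  have hμ0 : ∀ i, 0 ≤ μ i := by
    intro i
    have h := hT0 (b i)
    rw [hTb, inner_smul_left, b.inner_eq_one i] at h
    simpa using h
  refine ⟨E, ⟨hEsym, hEidem⟩, ?_, ?_, ?_⟩
  · intro v
    rw [hnorm (E v), hTre (E v), Finset.mul_sum]
    apply Finset.sum_le_sum
    intro i _
    rw [hinner]
    split_ifs with h
    · exact mul_le_mul_of_nonneg_right h (sq_nonneg _)
    · simp
  · intro v
    rw [hnorm (v - E v), hnorm v, hTre v, ← Finset.sum_sub_distrib, Finset.mul_sum]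
    apply Finset.sum_le_sum
    intro i _
    rw [inner_sub_right, hinner]
    split_ifs with h
    · have h1 := hμ1 i
      simp only [sub_self, norm_zero]
      have h2 : 0 ≤ ‖⟪b i, v⟫_ℂ‖ ^ 2 := by positivity
      nlinarith
    · push Not at h
      rw [sub_zero]
      have h2 : 0 ≤ ‖⟪b i, v⟫_ℂ‖ ^ 2 := by positivity
      nlinarith
  · intro m k
    have htr : ∀ (A : Module.End ℂ V) (c : Fin n → ℝ),
        (∀ i, A (b i) = ((c i : ℝ) : ℂ) • b i) → rtr A = ∑ i, c i := by
      intro A c hA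
      unfold rtr
      rw [LinearMap.trace_eq_sum_inner _ b, Complex.re_sum]
      refine Finset.sum_congr rfl fun i _ => ?_
      rw [hA i, inner_smul_right, b.inner_eq_one, mul_one, Complex.ofReal_re]
    have e1 : rtr E = ∑ i, (if θ ≤ μ i then (1 : ℝ) else 0) := by
      apply htr
      intro i
      rw [hEb]
      split_ifs <;> simp
    have hA1 : ∀ i, ((1 / 2 : ℂ) • (1 + T ^ m)) (b i) = (((1 + μ i ^ m) / 2 : ℝ) : ℂ) • b i := by
      intro i
      rw [LinearMap.smul_apply, LinearMap.add_apply, hpow, Module.End.one_apply]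
      have : b i + (μ i : ℂ) ^ m • b i = (1 + (μ i : ℂ) ^ m) • b i := by
        rw [add_smul, one_smul]
      rw [this, smul_smul]
      congr 1
      push_cast
      ring
    have hAk : ∀ i, (((1 / 2 : ℂ) • (1 + T ^ m)) ^ k) (b i) =
        ((((1 + μ i ^ m) / 2) ^ k : ℝ) : ℂ) • b i := by
      intro i
      induction k with
      | zero => simp
      | succ k ih =>
        rw [pow_succ', Module.End.mul_apply, ih, map_smul, hA1, smul_smul]
        congr 1
        push_cast
        ring
    rw [htr _ _ hAk, e1]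
    have e2 : ((1 + θ ^ m) / 2) ^ k * (n : ℝ) = ∑ _i : Fin n, ((1 + θ ^ m) / 2) ^ k := by
      rw [Finset.sum_const, Finset.card_univ, Fintype.card_fin, nsmul_eq_mul]
      ring
    rw [e2, ← Finset.sum_add_distrib]
    refine Finset.sum_le_sum fun i _ => ?_
    have h0 := hμ0 i
    have h1 := hμ1 i
    have hp0 : 0 ≤ μ i ^ m := pow_nonneg h0 m
    have hp1 : μ i ^ m ≤ 1 := pow_le_one₀ h0 h1
    have hq0 : 0 ≤ ((1 + θ ^ m) / 2) ^ k := by positivity
    split_ifs with h
    · have : ((1 + μ i ^ m) / 2) ^ k ≤ 1 := pow_le_one₀ (by linarith) (by linarith)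
      linarith
    · rw [zero_add]
      apply pow_le_pow_left₀ (by linarith)
      have : μ i ^ m ≤ θ ^ m := pow_le_pow_left₀ h0 (not_le.1 h).le m
      linarith

/-- the real trace of a projection is the dimension of its range -/
theorem rtr_proj (E : Module.End ℂ V) (hE : SymIdem E) :
    rtr E = Module.finrank ℂ (LinearMap.range E) := by
  have h : LinearMap.IsProj (LinearMap.range E) E := by
    refine ⟨fun v => ⟨v, rfl⟩, ?_⟩
    rintro _ ⟨v, rfl⟩
    have := congrArg (fun A : Module.End ℂ V => A v) hE.2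
    exact this
  unfold rtr
  rw [h.trace]
  simp

/-- a subspace on which a projection is injective -/
theorem finrank_le_rtr (E : Module.End ℂ V) (hE : SymIdem E) (U : Submodule ℂ V)
    (hU : ∀ u ∈ U, E u = 0 → u = 0) : (Module.finrank ℂ U : ℝ) ≤ rtr E := by
  rw [rtr_proj E hE]
  have h1 : Module.finrank ℂ U ≤ Module.finrank ℂ (LinearMap.range E) := by
    let f : U →ₗ[ℂ] LinearMap.range E := (E.rangeRestrict).comp U.subtype
    apply LinearMap.finrank_le_finrank_of_injective (f := f)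
    rw [← LinearMap.ker_eq_bot, LinearMap.ker_eq_bot']
    intro u hu
    have h2 : E (u : V) = 0 := by
      have := congrArg Subtype.val hu
      exact this
    exact Subtype.ext (hU u u.2 h2)
  exact_mod_cast h1

end LG45
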