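import Pool.Agent.H45.LLG.Pow

/-! Traces on subspaces. -/

namespace LG45
open RC14 RC852 TE852 LL14 Finset
open scoped InnerProductSpace

section lin
variable {V : Type*} [NormedAddCommGroup V] [InnerProductSpace ℂ V] [FiniteDimensional ℂ V]

/-- trace of `A` on the subspace `X` -/
noncomputable def tre (A : Module.End ℂ V) (X : Submodule ℂ V) : ℝ := rtr (TYPES.Pr X * A)

theorem rtr_add (A B : Module.End ℂ V) : rtr (A + B) = rtr A + rtr B := by
  unfold rtr
  rw [map_add, Complex.add_re]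

theorem tre_restrict (A : Module.End ℂ V) (X : Submodule ℂ V) (hX : ∀ v ∈ X, A v ∈ X) :
    tre A X = (LinearMap.trace ℂ X (A.restrict hX)).re := by
  have hP : ∀ v, (A * TYPES.Pr X) v ∈ X := fun v => hX _ (TYPES.Pr_mem X v)
  have h1 := LinearMap.trace_restrict_eq_of_forall_mem X (A * TYPES.Pr X) hP
  unfold tre rtr
  rw [LinearMap.trace_mul_comm, ← h1]
  congr 2
  refine LinearMap.ext fun w => Subtype.ext ?_
  change A (TYPES.Pr X (w : V)) = A (w : V)
  rw [TYPES.Pr_self w.2]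

theorem Pr_split {X Y : Submodule ℂ V} (h : Y ≤ X) :
    TYPES.Pr X = TYPES.Pr Y + TYPES.Pr (X ⊓ Yᗮ) := by
  ext v
  rw [LinearMap.add_apply, TYPES.Pr_apply]
  refine Submodule.eq_starProjection_of_mem_of_inner_eq_zero
    (X.add_mem (h (TYPES.Pr_mem Y v)) (TYPES.Pr_mem (X ⊓ Yᗮ) v).1) ?_ |>.symm ▸ rfl
  intro w hw
  obtain ⟨a, ha, b, hb, hab⟩ := Submodule.exists_add_mem_mem_orthogonal (K := Y) w
  have hbX : b ∈ X ⊓ Yᗮ := by
    refine ⟨?_, hb⟩
    have : b = w - a := by rw [hab]; abel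
    rw [this]
    exact X.sub_mem hw (h ha)
  rw [hab, inner_add_right, inner_sub_left, inner_sub_left, inner_add_left, inner_add_left]
  have e1 : ⟪v, a⟫_ℂ = ⟪TYPES.Pr Y v, a⟫_ℂ := by
    rw [TYPES.Pr_symm, TYPES.Pr_self ha]
  have e2 : ⟪v, b⟫_ℂ = ⟪TYPES.Pr (X ⊓ Yᗮ) v, b⟫_ℂ := by
    rw [TYPES.Pr_symm, TYPES.Pr_self hbX]
  have e3 : ⟪TYPES.Pr (X ⊓ Yᗮ) v, a⟫_ℂ = 0 := by
    rw [← inner_conj_symm, (Submodule.mem_orthogonal _ _).1 (TYPES.Pr_mem (X ⊓ Yᗮ) v).2 a ha,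
      map_zero]
  have e4 : ⟪TYPES.Pr Y v, b⟫_ℂ = 0 := (Submodule.mem_orthogonal _ _).1 hb _ (TYPES.Pr_mem Y v)
  rw [e1, e2, e3, e4]
  ring

theorem tre_split (A : Module.End ℂ V) {X Y : Submodule ℂ V} (h : Y ≤ X) :
    tre A X = tre A Y + tre A (X ⊓ Yᗮ) := by
  unfold tre
  rw [Pr_split h, add_mul, rtr_add]

theorem tre_nonneg (A : Module.End ℂ V) (hA : ∀ v, 0 ≤ (⟪A v, v⟫_ℂ).re) (X : Submodule ℂ V) :
    0 ≤ tre A X := by
  have h1 : tre A X = rtr (TYPES.Pr X * A * TYPES.Pr X) := by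
    unfold tre rtr
    rw [LinearMap.trace_mul_comm ℂ (TYPES.Pr X * A), ← mul_assoc]
    congr 2
    have : TYPES.Pr X * TYPES.Pr X = TYPES.Pr X := by
      ext v
      exact TYPES.Pr_self (TYPES.Pr_mem X v)
    rw [this]
  rw [h1]
  unfold rtr
  rw [LinearMap.trace_eq_sum_inner _ (stdOrthonormalBasis ℂ V), Complex.re_sum]
  refine Finset.sum_nonneg fun i _ => ?_
  rw [Module.End.mul_apply, Module.End.mul_apply, ← TYPES.Pr_symm, ← inner_conj_symm,
    Complex.conj_re]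
  exact hA _

theorem tre_mono (A : Module.End ℂ V) (hA : ∀ v, 0 ≤ (⟪A v, v⟫_ℂ).re) {X Y : Submodule ℂ V}
    (h : Y ≤ X) : tre A Y ≤ tre A X := by
  rw [tre_split A h]
  have := tre_nonneg A hA (X ⊓ Yᗮ)
  linarith

theorem tre_top (A : Module.End ℂ V) : tre A ⊤ = rtr A := by
  unfold tre
  have : TYPES.Pr (⊤ : Submodule ℂ V) = 1 := by
    ext v
    exact TYPES.Pr_self Submodule.mem_top
  rw [this, one_mul]

theorem tre_le (A : Module.End ℂ V) (hA : ∀ v, (⟪A v, v⟫_ℂ).re ≤ ‖v‖ ^ 2) (X : Submodule ℂ V) :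
    tre A X ≤ Module.finrank ℂ X := by
  have h2 := tre_nonneg (1 - A) (fun v => by
    rw [LinearMap.sub_apply, inner_sub_left, Module.End.one_apply, Complex.sub_re,
      DISPaux.norm_sq_re]
    have := hA v
    linarith) X
  have h3 : tre (1 - A) X = tre 1 X - tre A X := by
    unfold tre rtr
    rw [mul_sub, map_sub, Complex.sub_re]
  have h4 : tre 1 X = Module.finrank ℂ X := by
    rw [tre_restrict 1 X (fun v hv => hv)]
    have : (1 : Module.End ℂ V).restrict (fun v hv => hv : ∀ v ∈ X, (1 : Module.End ℂ V) v ∈ X) =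
        1 := by
      ext v; rfl
    rw [this, LinearMap.trace_one]
    simp
  linarith

end lin

section cross
variable {V : Type*} [NormedAddCommGroup V] [InnerProductSpace ℂ V] [FiniteDimensional ℂ V]
variable {V' : Type*} [NormedAddCommGroup V'] [InnerProductSpace ℂ V'] [FiniteDimensional ℂ V']

/-- kernel and image -/
theorem tre_map (A : Module.End ℂ V) (hAs : A.IsSymmetric) (A' : Module.End ℂ V')
    (hA' : ∀ v, 0 ≤ (⟪A' v, v⟫_ℂ).re) (f : V →ₗ[ℂ] V') (hf : ∀ v, f (A v) = A' (f v))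
    (X : Submodule ℂ V) (hX : ∀ v ∈ X, A v ∈ X) (K : Submodule ℂ V) (hKX : K ≤ X)
    (hK : ∀ v ∈ X, f v = 0 → v ∈ K) (hK2 : ∀ v ∈ K, A v ∈ K)
    (Y : Submodule ℂ V') (hY : ∀ v ∈ X, f v ∈ Y) :
    tre A X ≤ tre A K + tre A' Y := by
  rw [tre_split A hKX]
  set L := X ⊓ Kᗮ with hL
  have hAL : ∀ v ∈ L, A v ∈ L := by
    rintro v ⟨h1, h2⟩
    refine ⟨hX v h1, ?_⟩
    rw [SetLike.mem_coe, Submodule.mem_orthogonal] at h2 ⊢
    intro u hu
    rw [← hAs]
    exact h2 _ (hK2 u hu)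
  have hinj : ∀ v ∈ L, f v = 0 → v = 0 := by
    rintro v ⟨h1, h2⟩ h0
    have h3 := hK v h1 h0
    exact inner_self_eq_zero.1 ((Submodule.mem_orthogonal _ _).1 h2 v h3)
  set Z := L.map f with hZ
  have hAZ : ∀ v ∈ Z, A' v ∈ Z := by
    rintro _ ⟨v, hv, rfl⟩
    exact ⟨A v, hAL v hv, hf v⟩
  have hZY : Z ≤ Y := by
    rintro _ ⟨v, hv, rfl⟩
    exact hY v hv.1
  have h5 : tre A L = tre A' Z := by
    rw [tre_restrict A L hAL, tre_restrict A' Z hAZ]
    let e0 : L →ₗ[ℂ] Z := (f.comp L.subtype).codRestrict Z fun v => ⟨v, v.2, rfl⟩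
    have he0 : Function.Bijective e0 := by
      constructor
      · rw [← LinearMap.ker_eq_bot, LinearMap.ker_eq_bot']
        intro v hv
        exact Subtype.ext (hinj v v.2 (congrArg Subtype.val hv))
      · rintro ⟨_, v, hv, rfl⟩
        exact ⟨⟨v, hv⟩, rfl⟩
    let e := LinearEquiv.ofBijective e0 he0
    have h6 : A'.restrict hAZ = e.conj (A.restrict hAL) := by
      ext z
      obtain ⟨v, rfl⟩ := e.surjective z
      rw [LinearEquiv.conj_apply, LinearMap.comp_apply, LinearMap.comp_apply]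
      simp only [LinearEquiv.coe_coe, LinearEquiv.symm_apply_apply]
      change A' (f v) = f (A v)
      rw [hf]
    rw [h6, LinearMap.trace_conj']
  rw [h5]
  have := tre_mono A' hA' hZY
  linarith

end cross

section rep
variable {G : Type*} [Group G]
variable {V : Type*} [NormedAddCommGroup V] [InnerProductSpace ℂ V] [FiniteDimensional ℂ V]

theorem Tq_pow_res {q : ℕ} (ρ : G →* (V ≃ₗᵢ[ℂ] V)) (y : Fin q → G) (W : Submodule ℂ V)
    (hW : Inv ρ W) (k : ℕ) (w : W) :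
    (((Tq (res ρ W hW) y ^ k) w : W) : V) = (Tq ρ y ^ k) (w : V) := by
  have h1 : ∀ w : W, ((Tq (res ρ W hW) y w : W) : V) = Tq ρ y (w : V) := by
    intro w
    rw [OPS.Tq_apply, OPS.Tq_apply]
    push_cast
    rfl
  induction k generalizing w with
  | zero => simp
  | succ k ih =>
    rw [pow_succ, pow_succ, Module.End.mul_apply, Module.End.mul_apply, ih, h1]

theorem Tq_pow_inv {q : ℕ} (ρ : G →* (V ≃ₗᵢ[ℂ] V)) (y : Fin q → G) (W : Submodule ℂ V)
    (hW : Inv ρ W) (k : ℕ) : ∀ v ∈ W, (Tq ρ y ^ k) v ∈ W := by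
  intro v hv
  rw [← Tq_pow_res ρ y W hW k ⟨v, hv⟩]
  exact Subtype.mem _

theorem tre_res {q : ℕ} (ρ : G →* (V ≃ₗᵢ[ℂ] V)) (y : Fin q → G) (W : Submodule ℂ V)
    (hW : Inv ρ W) (k : ℕ) : tre (Tq ρ y ^ k) W = rtr (Tq (res ρ W hW) y ^ k) := by
  rw [tre_restrict _ W (Tq_pow_inv ρ y W hW k)]
  unfold rtr
  congr 2
  ext w
  rw [Tq_pow_res]
  rfl

variable [Fintype G]

/-- from the irreducible components to an invariant subspace -/
theorem tre_irr (ρ : G →* (V ≃ₗᵢ[ℂ] V)) (A : Module.End ℂ V) (β : ℝ) (d : ℕ) :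
    ∀ X : Submodule ℂ V, Inv ρ X → Module.finrank ℂ X ≤ d →
    (∀ W, Irr ρ W → W ≤ X → tre A W ≤ β * Module.finrank ℂ W) →
    tre A X ≤ β * Module.finrank ℂ X := by
  induction d with
  | zero =>
    intro X hX hd h
    have hX0 : X = ⊥ := by
      apply Submodule.finrank_eq_zero.mp
      omega
    rw [hX0]
    have : tre A (⊥ : Submodule ℂ V) = 0 := by
      unfold tre
      have : TYPES.Pr (⊥ : Submodule ℂ V) = 0 := by
        ext v
        have := TYPES.Pr_mem (⊥ : Submodule ℂ V) v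
        rw [Submodule.mem_bot] at this
        rw [this]
        rfl
      rw [this, zero_mul]
      unfold rtr
      simp
    rw [this]
    simp
  | succ d ih =>
    intro X hX hd h
    by_cases h0 : X = ⊥
    · exact ih X hX (by rw [h0]; simp) h
    obtain ⟨W, hW, hWX⟩ := DECOMP.exists_irr ρ X hX h0
    have hinv' : Inv ρ (X ⊓ Wᗮ) := by
      intro g v hv
      refine ⟨hX g v hv.1, ?_⟩
      have h2 := hv.2
      rw [SetLike.mem_coe, Submodule.mem_orthogonal] at h2 ⊢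
      intro u hu
      rw [DECOMP.inner_rho]
      exact h2 _ (hW.2.1 _ _ hu)
    have hfr : Module.finrank ℂ X = Module.finrank ℂ W + Module.finrank ℂ (X ⊓ Wᗮ : Submodule ℂ V) := by
      have e1 : W ⊔ (X ⊓ Wᗮ) = X := by
        rw [inf_comm]
        exact Submodule.sup_orthogonal_inf_of_hasOrthogonalProjection hWX
      have e2 : W ⊓ (X ⊓ Wᗮ) = ⊥ := by
        rw [Submodule.eq_bot_iff]
        rintro v ⟨h1, _, h3⟩
        exact inner_self_eq_zero.1 ((Submodule.mem_orthogonal _ _).1 h3 v h1)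
      have e3 := Submodule.finrank_sup_add_finrank_inf_eq W (X ⊓ Wᗮ)
      rw [e1, e2, finrank_bot] at e3
      omega
    have hW0 : 0 < Module.finrank ℂ W := by
      rw [Module.finrank_pos_iff]
      exact Submodule.nontrivial_iff_ne_bot.mpr hW.1
    have h1 := ih (X ⊓ Wᗮ) hinv' (by omega) fun U hU hUX => h U hU (hUX.trans inf_le_left)
    have h2 := h W hW hWX
    rw [tre_split A hWX, hfr]
    push_cast
    linarith

end rep

end LG45
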